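import Pool.Agent.Lib.MP_7946c7_pr.A.ADefs
import Pool.Agent.Lib.MP_7946c7_pr.I.CF
import Pool.Agent.Lib.MP_7946c7_pr.IfT

/-!
# A01. Resistances inside the components of `Gm` and on the edges of `GA`

PROOF. `pos`: exponential. `inside`: `v ∈ cmp Gm univ u` gives `Rch`, and `rch_saw` gives a SAW
`γ` of `Gm` of length `ℓ` from `u` to `v`. By `h1`, `ℓ < lmN n h = ⌈3 log n/h⌉`, so
`ℓ ≤ 3 log n/h ≤ (log n)^2/h` for `log n ≥ 3`, and `h2` applies. The terms are
`1/c = exp ((c₀/h) lab e)`. For every edge of the walk `lab e ≤ -h`, so the term is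
`≤ exp (-c₀) ≤ 1`; if the edge is not in the filter of `h2` then
`lab e ≤ -h - (2/c₀) log n h`, so the term is `≤ exp (-c₀ - 2 log n) ≤ n⁻²`. The sum is at most
`(number in the filter) + ℓ n⁻² ≤ (log n)^Cr + 1`, because
`ℓ ≤ 3 log n / h ≤ 3 log n n^{1/3-δ} ≤ n²` for `n` large (`h ≥ n^{-1/3+δ}`).
`edge`: `lab ≤ C1 log n h` gives `(c₀/h) lab ≤ c₀ C1 log n`.
-/

open Finset MeasureTheory

namespace RST.A

private lemma a01_mem_cmp {V : Type*} [Fintype V] {R : V → V → Prop} {v w : V} :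
    w ∈ cmp R univ v ↔ Rch R univ v w := by
  simp [cmp]

/-- A sum whose terms are at most `1` on a set and at most `ε` outside. -/
private lemma a01_sum (ℓ : ℕ) (p : ℕ → Prop) [DecidablePred p] (g : ℕ → ℝ) (ε : ℝ)
    (h1 : ∀ i < ℓ, g i ≤ 1) (h2 : ∀ i < ℓ, ¬ p i → g i ≤ ε) (hε : 0 ≤ ε) :
    ∑ i ∈ range ℓ, g i ≤ ((range ℓ).filter p).card + ℓ * ε := by
  rw [← Finset.sum_filter_add_sum_filter_not (range ℓ) p]
  refine add_le_add ?_ ?_
  · calc ∑ i ∈ (range ℓ).filter p, g i ≤ ∑ i ∈ (range ℓ).filter p, (1 : ℝ) := by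
          refine Finset.sum_le_sum fun i hi => h1 i ?_
          exact Finset.mem_range.1 (Finset.mem_filter.1 hi).1
      _ = _ := by simp
  · calc ∑ i ∈ (range ℓ).filter (fun i => ¬ p i), g i ≤
          ∑ i ∈ (range ℓ).filter (fun i => ¬ p i), ε := by
          refine Finset.sum_le_sum fun i hi => ?_
          have := Finset.mem_filter.1 hi
          exact h2 i (Finset.mem_range.1 this.1) this.2
      _ = ((range ℓ).filter (fun i => ¬ p i)).card * ε := by
          rw [Finset.sum_const, nsmul_eq_mul]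
      _ ≤ ℓ * ε := by
          refine mul_le_mul_of_nonneg_right ?_ hε
          have := Finset.card_filter_le (range ℓ) (fun i => ¬ p i)
          rw [Finset.card_range] at this
          exact_mod_cast this

private lemma a01_log {n : ℕ} (hn : 64 ≤ n) : 3 ≤ Real.log n ∧ 3 * Real.log n ≤ n := by
  have hn' : (64 : ℝ) ≤ n := by exact_mod_cast hn
  constructor
  · have h1 : Real.log 64 ≤ Real.log n := Real.log_le_log (by norm_num) hn'
    have h2 : Real.log 64 = 6 * Real.log 2 := by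
      have : (64 : ℝ) = 2 ^ 6 := by norm_num
      rw [this, Real.log_pow]
      norm_num
    have h3 := Real.log_two_gt_d9
    linarith
  · have h1 : Real.log (Real.sqrt n) ≤ Real.sqrt n - 1 :=
      Real.log_le_sub_one_of_pos (Real.sqrt_pos.2 (by linarith))
    rw [Real.log_sqrt (by linarith)] at h1
    have h2 : Real.sqrt n * Real.sqrt n = n := Real.mul_self_sqrt (by linarith)
    have h3 : (8 : ℝ) ≤ Real.sqrt n := by
      have : (8 : ℝ) = Real.sqrt 64 := by
        rw [show (64 : ℝ) = 8 ^ 2 by norm_num, Real.sqrt_sq (by norm_num)]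
      rw [this]
      exact Real.sqrt_le_sqrt hn'
    nlinarith

open Classical in
theorem cfacts (δ c₀ : ℝ) (Cr : ℕ) (hδ : 0 < δ) (hδ1 : δ ≤ 1 / 10) (hc : 0 < c₀) (hc1 : c₀ ≤ 1) :
    ∃ n₀ : ℕ, ∀ n : ℕ, n₀ ≤ n → ∀ h : ℝ, R2Par δ n h → ∀ lab : Sym2 (Fin n) → ℝ,
    (∀ (γ : ℕ → Fin n) (ℓ : ℕ), IsSAW (Gm h lab) γ ℓ → ℓ < lmN n h) →
    (∀ (γ : ℕ → Fin n) (ℓ : ℕ), IsSAW (Gm h lab) γ ℓ → (ℓ : ℝ) ≤ (Real.log n) ^ 2 / h →
      ((range ℓ).filter fun i => -h - 2 / c₀ * Real.log n * h < lab s(γ i, γ (i + 1))).card ≤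
      (Real.log n) ^ Cr) →
    CFacts (Gm h lab) (GA h lab) (cc c₀ h lab) ((Real.log n) ^ Cr + 1) ((n : ℝ) ^ (c₀ * C1)) := by
  refine ⟨64, fun n hn h hp lab h1 h2 => ?_⟩
  obtain ⟨hlog3, hlogn⟩ := a01_log hn
  have hn' : (64 : ℝ) ≤ n := by exact_mod_cast hn
  have hn0 : (0 : ℝ) < n := by linarith
  have hinv : (n : ℝ)⁻¹ ≤ h := by
    refine le_trans ?_ hp.lo
    rw [← Real.rpow_neg_one]
    exact Real.rpow_le_rpow_of_exponent_le (by linarith) (by linarith)
  have hh : 0 < h := lt_of_lt_of_le (inv_pos.2 hn0) hinv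
  refine ⟨fun e => Real.exp_pos _, fun u v hv => ?_, fun u v huv => ?_⟩
  · rw [a01_mem_cmp] at hv
    obtain ⟨γ, ℓ, hγ0, hγl, hγ, -⟩ := rch_saw (Gm h lab) univ u v (mem_univ _) hv
    refine ⟨γ, ℓ, hγ0, hγl, hγ, ?_⟩
    have hℓ := h1 γ ℓ hγ
    unfold lmN at hℓ
    rw [Nat.lt_ceil] at hℓ
    have hℓ2 : (ℓ : ℝ) ≤ (Real.log n) ^ 2 / h := by
      refine hℓ.le.trans ?_
      refine div_le_div_of_nonneg_right ?_ hh.le
      nlinarith
    have hℓn : (ℓ : ℝ) ≤ n ^ 2 := by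
      refine hℓ.le.trans ?_
      rw [div_le_iff₀ hh]
      have e1 : (n : ℝ) = n ^ 2 * (n : ℝ)⁻¹ := by field_simp
      calc 3 * Real.log n ≤ n := hlogn
        _ = n ^ 2 * (n : ℝ)⁻¹ := e1
        _ ≤ n ^ 2 * h := mul_le_mul_of_nonneg_left hinv (by positivity)
    have hcnt := h2 γ ℓ hγ hℓ2
    have hterm : ∀ i, 1 / cc c₀ h lab s(γ i, γ (i + 1)) =
        Real.exp (c₀ / h * lab s(γ i, γ (i + 1))) := by
      intro i
      unfold cc
      rw [one_div, ← Real.exp_neg]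
      congr 1
      ring
    have hs := a01_sum ℓ (fun i => -h - 2 / c₀ * Real.log n * h < lab s(γ i, γ (i + 1)))
      (fun i => 1 / cc c₀ h lab s(γ i, γ (i + 1))) ((n : ℝ) ^ 2)⁻¹ ?_ ?_ (by positivity)
    · have e2 : (ℓ : ℝ) * ((n : ℝ) ^ 2)⁻¹ ≤ 1 := by
        rw [← div_eq_mul_inv, div_le_one (by positivity)]
        exact hℓn
      linarith
    · intro i hi
      beta_reduce
      rw [hterm i, Real.exp_le_one_iff]
      have h3 : lab s(γ i, γ (i + 1)) ≤ -h := (hγ.1 i hi).2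
      have h4 : 0 < c₀ / h := by positivity
      nlinarith
    · intro i hi hni
      beta_reduce at hni ⊢
      rw [hterm i]
      rw [not_lt] at hni
      have h4 : 0 < c₀ / h := by positivity
      have h5 : c₀ / h * lab s(γ i, γ (i + 1)) ≤ -(2 * Real.log n) := by
        calc c₀ / h * lab s(γ i, γ (i + 1)) ≤ c₀ / h * (-h - 2 / c₀ * Real.log n * h) :=
              mul_le_mul_of_nonneg_left hni h4.le
          _ = -c₀ - 2 * Real.log n := by field_simp
          _ ≤ -(2 * Real.log n) := by linarith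
      calc Real.exp (c₀ / h * lab s(γ i, γ (i + 1))) ≤ Real.exp (-(2 * Real.log n)) :=
            Real.exp_le_exp.2 h5
        _ = ((n : ℝ) ^ 2)⁻¹ := by
            rw [Real.exp_neg]
            congr 1
            have e3 : 2 * Real.log n = Real.log ((n : ℝ) ^ 2) := by
              rw [Real.log_pow]; norm_num
            rw [e3, Real.exp_log (by positivity)]
  · have hlab : lab s(u, v) ≤ C1 * Real.log n * h := huv.2
    unfold cc
    rw [one_div, ← Real.exp_neg, Real.rpow_def_of_pos hn0]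
    refine Real.exp_le_exp.2 ?_
    have h4 : 0 < c₀ / h := by positivity
    calc -(-(c₀ / h) * lab s(u, v)) = c₀ / h * lab s(u, v) := by ring
      _ ≤ c₀ / h * (C1 * Real.log n * h) := mul_le_mul_of_nonneg_left hlab h4.le
      _ = Real.log n * (c₀ * C1) := by field_simp

end RST.A
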