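import Pool.Agent.Lib.MP_7946c7_pr.G.ExpB
import Pool.Agent.Lib.MP_7946c7_pr.H.HDefs
import Pool.Agent.Lib.MP_7946c7_pr.IfT

/-!
# A02. The macroscopic components are joined in `GA` and lie in the giant

PROOF of `bigs_conn`. For `Q ∈ bigs` let `X` be the set of the `P ∈ bigs` such that some (hence,
components being connected in `Gm ≤ GA`, every) vertex of `P` is reachable in `GA` from the
vertices of `Q`. If `X ≠ bigs` then `X` or its complement `Y = bigs \ X` is nonempty with at most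
half of the elements (both are nonempty since `Q ∈ X`); by `d6` (the count on the right side is
positive) there is `P ∈ X`, `P' ∉ X` (or conversely) with `cadj GA`; `GA` is symmetric, so `P'` is
reachable: contradiction. `cmp` members: `P ∈ bigs` means `P = cmp Gm univ v`, its vertices are
mutually reachable by `Gm` (symmetric).

PROOF of `bigs_in_gg`. `R ≥ GA`: the component of `u` in `R` contains all the vertices of all the
elements of `bigs`, which are pairwise disjoint (`cmp_disjoint`) of size `≥ km`; so its size is at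
least `(bigs).card * km ≥ k`.
-/

open Finset MeasureTheory

namespace RST.A

private lemma a02_mem_filter {α : Type*} {p : α → Prop} {inst : DecidablePred p} {s : Finset α}
    {a : α} : a ∈ @Finset.filter α p inst s ↔ a ∈ s ∧ p a := by
  simp

private lemma a02_mem_sdiff {α : Type*} {inst : DecidableEq α} {s t : Finset α} {a : α} :
    a ∈ @SDiff.sdiff (Finset α) (@Finset.instSDiff α inst) s t ↔ a ∈ s ∧ a ∉ t := by
  simp

private lemma a02_mem_cmp {V : Type*} [Fintype V] {R : V → V → Prop} {v w : V} :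
    w ∈ cmp R univ v ↔ Rch R univ v w := by
  simp [cmp]

private lemma a02_bigs {V : Type} [Fintype V] {R : V → V → Prop} {k : ℕ} {Q : Finset V}
    (hQ : Q ∈ bigs R univ k) : (∃ v, cmp R univ v = Q) ∧ k ≤ Q.card := by
  classical
  rw [bigs, mem_filter, mem_image] at hQ
  obtain ⟨⟨u, _, h⟩, h'⟩ := hQ
  exact ⟨⟨u, h⟩, h'⟩

private lemma a02_eq {V : Type} [Fintype V] {R : V → V → Prop} (hR : ∀ u v, R u v → R v u) {k : ℕ}
    {Q : Finset V} (hQ : Q ∈ bigs R univ k) {v : V} (hv : v ∈ Q) : cmp R univ v = Q := by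
  classical
  obtain ⟨⟨u, rfl⟩, -⟩ := a02_bigs hQ
  exact cmp_eq_of_mem R hR univ u v hv

private lemma a02_mono {V : Type} [Fintype V] {R S : V → V → Prop} (h : ∀ u v, R u v → S u v)
    {u v : V} (huv : Rch R univ u v) : Rch S univ u v := by
  unfold Rch at *
  induction huv with
  | refl => exact Relation.ReflTransGen.refl
  | tail _ h2 ih => exact Relation.ReflTransGen.tail ih ⟨h _ _ h2.1, h2.2.1, h2.2.2⟩

private lemma a02_all {V : Type} [Fintype V] {Gm GA : V → V → Prop}
    (hm : ∀ u v, Gm u v → Gm v u) (hle : ∀ u v, Gm u v → GA u v) {k : ℕ} {P : Finset V}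
    (hP : P ∈ bigs Gm univ k) {u x : V} (hx : x ∈ P) (hux : Rch GA univ u x) :
    ∀ y ∈ P, Rch GA univ u y := by
  intro y hy
  have h1 := a02_eq hm hP hx
  rw [← h1, a02_mem_cmp] at hy
  exact Relation.ReflTransGen.trans hux (a02_mono hle hy)

theorem bigs_conn {V : Type} [Fintype V] [DecidableEq V] (Gm GA GW : V → V → Prop)
    (km lmax r' r'' k₀ lm ab eb : ℕ) (F : DFacts Gm GA GW km lmax r' r'' k₀ lm ab eb)
    (Q Q' : Finset V) (hQ : Q ∈ bigs Gm univ km) (hQ' : Q' ∈ bigs Gm univ km) (u v : V)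
    (hu : u ∈ Q) (hv : v ∈ Q') : Rch GA univ u v := by
  classical
  obtain ⟨X, hX⟩ : ∃ X : Finset (Finset V), X = (bigs Gm univ km).filter
    (fun P => ∀ x ∈ P, Rch GA univ u x) := ⟨_, rfl⟩
  have hmemX : ∀ P, P ∈ X ↔ P ∈ bigs Gm univ km ∧ ∀ x ∈ P, Rch GA univ u x := by
    intro P
    rw [hX, a02_mem_filter]
  have hQX : Q ∈ X := (hmemX Q).2 ⟨hQ, a02_all F.symm_m F.le_A hQ hu Relation.ReflTransGen.refl⟩
  have hXs : X ⊆ bigs Gm univ km := fun P hP => ((hmemX P).1 hP).1
  by_contra hcon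
  have hQ'X : Q' ∉ X := fun h => hcon (((hmemX Q').1 h).2 v hv)
  obtain ⟨Y, hY⟩ : ∃ Y : Finset (Finset V), Y = (bigs Gm univ km) \ X := ⟨_, rfl⟩
  have hmemY : ∀ P, P ∈ Y ↔ P ∈ bigs Gm univ km ∧ P ∉ X := by
    intro P
    rw [hY, Finset.mem_sdiff]
  have hYs : Y ⊆ bigs Gm univ km := fun P hP => ((hmemY P).1 hP).1
  have hcard : Y.card + X.card = (bigs Gm univ km).card := by
    rw [hY]
    exact Finset.card_sdiff_add_card_eq_card hXs
  have hXpos : 0 < X.card := Finset.card_pos.2 ⟨Q, hQX⟩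
  have hYpos : 0 < Y.card := Finset.card_pos.2 ⟨Q', (hmemY Q').2 ⟨hQ', hQ'X⟩⟩
  rcases Nat.lt_or_ge (bigs Gm univ km).card (2 * X.card) with h | h
  · have h6 := F.d6 Y hYs (by omega)
    have hpos : 0 < ((bigs Gm univ km \ Y).filter fun Q => ∃ P ∈ Y, cadj GA P Q).card := by
      have : 0 < 2 * ((bigs Gm univ km \ Y).filter fun Q => ∃ P ∈ Y, cadj GA P Q).card := by
        refine lt_of_lt_of_le hYpos (le_trans h6 (le_of_eq ?_))
        congr 2
        ext Q
        rw [a02_mem_filter, a02_mem_filter, a02_mem_sdiff, a02_mem_sdiff]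
      omega
    obtain ⟨P', hP'⟩ := Finset.card_pos.1 hpos
    rw [a02_mem_filter, a02_mem_sdiff] at hP'
    obtain ⟨⟨h1, h2⟩, P, hP, p, hp, p', hp', hadj⟩ := hP'
    have h3 : P' ∈ X := by
      by_contra h4
      exact h2 ((hmemY P').2 ⟨h1, h4⟩)
    have h5 := ((hmemX P').1 h3).2 p' hp'
    have h7 : Rch GA univ u p :=
      Relation.ReflTransGen.tail h5 ⟨F.symm_A _ _ hadj, mem_univ _, mem_univ _⟩
    exact ((hmemY P).1 hP).2 ((hmemX P).2 ⟨((hmemY P).1 hP).1,
      a02_all F.symm_m F.le_A ((hmemY P).1 hP).1 hp h7⟩)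
  · have h6 := F.d6 X hXs h
    have hpos : 0 < ((bigs Gm univ km \ X).filter fun Q => ∃ P ∈ X, cadj GA P Q).card := by
      have : 0 < 2 * ((bigs Gm univ km \ X).filter fun Q => ∃ P ∈ X, cadj GA P Q).card := by
        refine lt_of_lt_of_le hXpos (le_trans h6 (le_of_eq ?_))
        congr 2
        ext Q
        rw [a02_mem_filter, a02_mem_filter, a02_mem_sdiff, a02_mem_sdiff]
      omega
    obtain ⟨P', hP'⟩ := Finset.card_pos.1 hpos
    rw [a02_mem_filter, a02_mem_sdiff] at hP'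
    obtain ⟨⟨h1, h2⟩, P, hP, p, hp, p', hp', hadj⟩ := hP'
    have h5 := ((hmemX P).1 hP).2 p hp
    have h7 : Rch GA univ u p' :=
      Relation.ReflTransGen.tail h5 ⟨hadj, mem_univ _, mem_univ _⟩
    exact h2 ((hmemX P').2 ⟨h1, a02_all F.symm_m F.le_A h1 hp' h7⟩)

theorem bigs_in_gg {V : Type} [Fintype V] [DecidableEq V] (Gm GA GW : V → V → Prop)
    (km lmax r' r'' k₀ lm ab eb : ℕ) (F : DFacts Gm GA GW km lmax r' r'' k₀ lm ab eb)
    (R : V → V → Prop) (hR : ∀ u v, GA u v → R u v) (k : ℕ)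
    (hk : k ≤ (bigs Gm univ km).card * km) (Q : Finset V) (hQ : Q ∈ bigs Gm univ km) (u : V)
    (hu : u ∈ Q) : u ∈ gg R univ k := by
  unfold gg
  rw [a02_mem_filter]
  refine ⟨mem_univ _, hk.trans ?_⟩
  have hsub : (bigs Gm univ km).biUnion (fun P => P) ⊆ cmp R univ u := by
    intro x hx
    rw [Finset.mem_biUnion] at hx
    obtain ⟨P, hP, hxP⟩ := hx
    rw [a02_mem_cmp]
    exact a02_mono hR (bigs_conn Gm GA GW km lmax r' r'' k₀ lm ab eb F Q P hQ hP u x hu hxP)
  refine le_trans ?_ (Finset.card_le_card hsub)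
  rw [Finset.card_biUnion]
  · rw [← smul_eq_mul, ← Finset.sum_const]
    exact Finset.sum_le_sum fun P hP => (a02_bigs hP).2
  · intro P hP P' hP' hne
    show Disjoint P P'
    rw [Finset.disjoint_left]
    intro x hx hx'
    exact hne ((a02_eq F.symm_m hP hx).symm.trans (a02_eq F.symm_m hP' hx'))

end RST.A
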