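import Pool.Agent.Lib.MP_7946c7_pr.A.ADefs

/-!
# A03. The tiny masses

PROOF of `mass_tiny`. For `x ≠ z`: `κ f(x)² ≤ c s(x,z) (f x - f z)²` is at most `Dir c f` (one term
of a sum of nonnegative terms). So `t f(x)² ≤ (t/κ) Dir`, and there are at most `card V` terms.

PROOF of `mass_gap`. Let `a` be the average over `R`. `∑ m (f-a)² = ∑ m f² + a² ∑ m ≥ ∑ m f²`
(as `∑ m f = 0`). `∑_R (f-a)² ≤ K Dir`; for `x ∉ R` and any fixed `y ∈ R`:
`(f x - a)² ≤ 2 (f x - f y)² + 2 (f y - a)² ≤ 2 Dir/κ + 2 K Dir`; so the total is at most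
`K Dir + t card V (2/κ + 2K) Dir ≤ (3K+2) Dir`.

The other facts are immediate sums.
-/

open Finset MeasureTheory

namespace RST.A

variable {V : Type} [Fintype V] [DecidableEq V]

lemma A03_term (c : Sym2 V → ℝ) (κ : ℝ) (hκ : 0 < κ) (hc : ∀ e, κ ≤ c e) (f : V → ℝ) (x y : V) :
    κ * (f x - f y) ^ 2 ≤ Dir c f := by
  have hnn : ∀ e : Sym2 V, 0 ≤ sqd f e := by
    intro e
    induction e using Sym2.ind with
    | _ a b => exact sq_nonneg _
  have h1 : c s(x, y) * sqd f s(x, y) ≤ Dir c f := by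
    unfold Dir
    exact single_le_sum (f := fun e => c e * sqd f e)
      (fun e _ => mul_nonneg (le_trans hκ.le (hc e)) (hnn e)) (mem_univ s(x, y))
  have h2 : sqd f s(x, y) = (f x - f y) ^ 2 := rfl
  rw [h2] at h1
  exact le_trans (mul_le_mul_of_nonneg_right (hc _) (sq_nonneg _)) h1

lemma A03_Dir_nonneg (c : Sym2 V → ℝ) (κ : ℝ) (hκ : 0 < κ) (hc : ∀ e, κ ≤ c e) (f : V → ℝ) :
    0 ≤ Dir c f := by
  unfold Dir
  apply sum_nonneg
  intro e _
  refine mul_nonneg (le_trans hκ.le (hc e)) ?_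
  induction e using Sym2.ind with
  | _ a b => exact sq_nonneg _

lemma A03_split (R : Finset V) (t : ℝ) (F : V → ℝ) :
    ∑ x, mm R t x * F x = ∑ x ∈ R, F x + t * ∑ x ∈ Rᶜ, F x := by
  rw [← sum_add_sum_compl R]
  congr 1
  · refine sum_congr rfl fun x hx => ?_
    simp [mm, hx]
  · rw [mul_sum]
    refine sum_congr rfl fun x hx => ?_
    have : x ∉ R := mem_compl.1 hx
    simp [mm, this]

theorem mass_tiny (c : Sym2 V → ℝ) (κ t : ℝ) (hκ : 0 < κ) (hc : ∀ e, κ ≤ c e) (ht : 0 ≤ t)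
    (ht1 : t * Fintype.card V ≤ κ) (R : Finset V) (f : V → ℝ) (z : V) (hz : f z = 0) :
    ∑ x, mm R t x * f x ^ 2 ≤ ∑ x ∈ R, f x ^ 2 + Dir c f := by
  have hD := A03_Dir_nonneg c κ hκ hc f
  rw [A03_split R t (fun x => f x ^ 2)]
  have h1 : ∀ x, f x ^ 2 ≤ Dir c f / κ := by
    intro x
    rw [le_div_iff₀ hκ]
    have := A03_term c κ hκ hc f x z
    rw [hz, sub_zero] at this
    linarith
  have h2 : ∑ x ∈ Rᶜ, f x ^ 2 ≤ Fintype.card V * (Dir c f / κ) := by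
    calc ∑ x ∈ Rᶜ, f x ^ 2 ≤ ∑ x ∈ Rᶜ, Dir c f / κ := sum_le_sum fun x _ => h1 x
      _ = (Rᶜ.card : ℝ) * (Dir c f / κ) := by rw [sum_const, nsmul_eq_mul]
      _ ≤ _ := by
        have h3 : (Rᶜ.card : ℝ) ≤ Fintype.card V := by exact_mod_cast card_le_univ _
        gcongr
  have h4 : t * ∑ x ∈ Rᶜ, f x ^ 2 ≤ Dir c f := by
    calc t * ∑ x ∈ Rᶜ, f x ^ 2 ≤ t * (Fintype.card V * (Dir c f / κ)) := by gcongr
      _ = (t * Fintype.card V) * (Dir c f / κ) := by ring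
      _ ≤ κ * (Dir c f / κ) := by gcongr
      _ = Dir c f := by field_simp
  linarith

theorem mass_gap (c : Sym2 V → ℝ) (κ t : ℝ) (hκ : 0 < κ) (hc : ∀ e, κ ≤ c e) (ht : 0 ≤ t)
    (ht1 : t * Fintype.card V ≤ κ) (ht2 : t * Fintype.card V ≤ 1) (R : Finset V)
    (hR : R.Nonempty) (K : ℝ) (hK : 0 ≤ K) (f : V → ℝ)
    (h : ∑ x ∈ R, (f x - (∑ y ∈ R, f y) / R.card) ^ 2 ≤ K * Dir c f)
    (h0 : ∑ x, mm R t x * f x = 0) :
    ∑ x, mm R t x * f x ^ 2 ≤ (3 * K + 2) * Dir c f := by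
  have hD := A03_Dir_nonneg c κ hκ hc f
  set a : ℝ := (∑ y ∈ R, f y) / R.card with ha
  obtain ⟨y, hy⟩ := hR
  have hmm : ∀ x, 0 ≤ mm R t x := by
    intro x
    unfold mm
    split_ifs
    · exact zero_le_one
    · exact ht
  have h1 : ∑ x, mm R t x * f x ^ 2 ≤ ∑ x, mm R t x * (f x - a) ^ 2 := by
    have h2 : ∑ x, mm R t x * (f x - a) ^ 2 =
        ∑ x, mm R t x * f x ^ 2 - 2 * a * ∑ x, mm R t x * f x + a ^ 2 * ∑ x, mm R t x := by
      rw [mul_sum, mul_sum, ← sum_sub_distrib, ← sum_add_distrib]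
      refine sum_congr rfl fun x _ => ?_
      ring
    rw [h2, h0]
    have h3 : 0 ≤ a ^ 2 * ∑ x, mm R t x := mul_nonneg (sq_nonneg _) (sum_nonneg fun x _ => hmm x)
    linarith
  have hya : (f y - a) ^ 2 ≤ K * Dir c f :=
    le_trans (single_le_sum (f := fun x => (f x - a) ^ 2) (fun x _ => sq_nonneg _) hy) h
  have h4 : ∀ x, (f x - a) ^ 2 ≤ 2 * (Dir c f / κ) + 2 * (K * Dir c f) := by
    intro x
    have h5 : (f x - f y) ^ 2 ≤ Dir c f / κ := by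
      rw [le_div_iff₀ hκ]
      have := A03_term c κ hκ hc f x y
      linarith
    nlinarith [sq_nonneg ((f x - f y) - (f y - a))]
  have h6 : ∑ x ∈ Rᶜ, (f x - a) ^ 2 ≤
      Fintype.card V * (2 * (Dir c f / κ) + 2 * (K * Dir c f)) := by
    calc ∑ x ∈ Rᶜ, (f x - a) ^ 2 ≤ ∑ x ∈ Rᶜ, (2 * (Dir c f / κ) + 2 * (K * Dir c f)) :=
          sum_le_sum fun x _ => h4 x
      _ = (Rᶜ.card : ℝ) * (2 * (Dir c f / κ) + 2 * (K * Dir c f)) := by
          rw [sum_const, nsmul_eq_mul]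
      _ ≤ _ := by
        have h3 : (Rᶜ.card : ℝ) ≤ Fintype.card V := by exact_mod_cast card_le_univ _
        gcongr
  have h7 : t * ∑ x ∈ Rᶜ, (f x - a) ^ 2 ≤ 2 * Dir c f + 2 * (K * Dir c f) := by
    calc t * ∑ x ∈ Rᶜ, (f x - a) ^ 2
        ≤ t * (Fintype.card V * (2 * (Dir c f / κ) + 2 * (K * Dir c f))) := by gcongr
      _ = (t * Fintype.card V) * (2 * (Dir c f / κ)) +
          (t * Fintype.card V) * (2 * (K * Dir c f)) := by ring
      _ ≤ κ * (2 * (Dir c f / κ)) + 1 * (2 * (K * Dir c f)) := by gcongr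
      _ = _ := by field_simp
  refine le_trans h1 ?_
  rw [A03_split R t (fun x => (f x - a) ^ 2)]
  linarith

theorem mm_pos (R : Finset V) (t : ℝ) (ht : 0 < t) (x : V) : 0 < mm R t x := by
  unfold mm
  split_ifs
  · exact zero_lt_one
  · exact ht

theorem mm_sum_ge (R : Finset V) (t : ℝ) (ht : 0 ≤ t) : (R.card : ℝ) ≤ ∑ x, mm R t x := by
  have h1 := A03_split R t (fun _ => 1)
  simp only [mul_one, sum_const, nsmul_eq_mul] at h1
  rw [h1]
  have : 0 ≤ t * (Rᶜ.card : ℝ) := by positivity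
  linarith

theorem mm_compl (R : Finset V) (t : ℝ) (ht : 0 ≤ t) :
    ∑ x ∈ Rᶜ, mm R t x ≤ t * Fintype.card V := by
  have h1 : ∑ x ∈ Rᶜ, mm R t x = ∑ x ∈ Rᶜ, t := by
    refine sum_congr rfl fun x hx => ?_
    have : x ∉ R := mem_compl.1 hx
    simp [mm, this]
  rw [h1, sum_const, nsmul_eq_mul, mul_comm]
  have h3 : (Rᶜ.card : ℝ) ≤ Fintype.card V := by exact_mod_cast card_le_univ _
  gcongr

theorem mm_sq (R : Finset V) (t : ℝ) (ht : 0 ≤ t) (ht1 : t ≤ 1) (hR : R.Nonempty) :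
    ∑ x, mm R t x ^ 2 ≤ 1 / R.card * (∑ x, mm R t x) ^ 2 := by
  have h1 : ∑ x, mm R t x ^ 2 ≤ ∑ x, mm R t x := by
    refine sum_le_sum fun x _ => ?_
    unfold mm
    split_ifs
    · norm_num
    · nlinarith
  have h2 := mm_sum_ge R t ht
  have h3 : (0 : ℝ) < R.card := by exact_mod_cast hR.card_pos
  refine le_trans h1 ?_
  rw [one_div, ← div_eq_inv_mul, le_div_iff₀ h3]
  nlinarith

lemma A03_rch_symm {W : Type} {R : W → W → Prop} (hR : ∀ u v, R u v → R v u) {S : Finset W}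
    {u v : W} (h : Rch R S u v) : Rch R S v u := by
  unfold Rch at h ⊢
  induction h with
  | refl => exact Relation.ReflTransGen.refl
  | tail _ h2 ih => exact Relation.ReflTransGen.head ⟨hR _ _ h2.1, h2.2.2, h2.2.1⟩ ih

lemma A03_cmp_eq {W : Type} {R : W → W → Prop} (hR : ∀ u v, R u v → R v u) {S : Finset W}
    {u v w : W} (h1 : w ∈ cmp R S u) (h2 : w ∈ cmp R S v) : cmp R S u = cmp R S v := by
  unfold cmp at h1 h2 ⊢
  simp only [mem_filter] at h1 h2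
  have huv : Rch R S u v := h1.2.2.trans (A03_rch_symm hR h2.2.2)
  have hvu : Rch R S v u := A03_rch_symm hR huv
  ext x
  simp only [mem_filter]
  constructor
  · rintro ⟨hx, hu, hux⟩
    exact ⟨hx, h2.2.1, hvu.trans hux⟩
  · rintro ⟨hx, hv, hvx⟩
    exact ⟨hx, h1.2.1, huv.trans hvx⟩

lemma A03_inj {n : ℕ} (h : ℝ) (lab : Sym2 (Fin n) → ℝ) (rep : Finset (Fin n) → Fin n)
    (hrep : ∀ Q ∈ SS h lab, rep Q ∈ Q) : Set.InjOn rep (SS h lab : Set (Finset (Fin n))) := by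
  intro Q hQ Q' hQ' heq
  have hQ1 := hQ
  have hQ1' := hQ'
  simp only [SS, bigs, coe_filter, mem_image, mem_univ, true_and, Set.mem_setOf_eq] at hQ1 hQ1'
  obtain ⟨⟨u, hu⟩, _⟩ := hQ1
  obtain ⟨⟨v, hv⟩, _⟩ := hQ1'
  have hs : ∀ u v, Gm h lab u v → Gm h lab v u := by
    rintro a b ⟨h1, h2⟩
    exact ⟨h1.symm, by rwa [Sym2.eq_swap]⟩
  have h1 := hrep Q hQ
  have h2 := hrep Q' hQ'
  rw [← heq] at h2
  have h3 : rep Q ∈ cmp (Gm h lab) univ u := by rw [hu]; exact h1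
  have h4 : rep Q ∈ cmp (Gm h lab) univ v := by rw [hv]; exact h2
  rw [← hu, ← hv]
  exact A03_cmp_eq hs h3 h4

/-- Sums over representatives. -/
theorem sum_reps {n : ℕ} (h : ℝ) (lab : Sym2 (Fin n) → ℝ) (rep : Finset (Fin n) → Fin n)
    (hrep : ∀ Q ∈ SS h lab, rep Q ∈ Q) (F : Fin n → ℝ) :
    ∑ x ∈ reps h lab rep, F x = ∑ Q ∈ SS h lab, F (rep Q) := by
  unfold reps
  exact sum_image (A03_inj h lab rep hrep)

theorem card_reps {n : ℕ} (h : ℝ) (lab : Sym2 (Fin n) → ℝ) (rep : Finset (Fin n) → Fin n)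
    (hrep : ∀ Q ∈ SS h lab, rep Q ∈ Q) : (reps h lab rep).card = (SS h lab).card := by
  unfold reps
  exact card_image_of_injOn (A03_inj h lab rep hrep)

end RST.A
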