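import Pool.Agent.Lib.MP_7946c7_pr.A.ADefs

/-!
# A04. Numerical facts on the parameters, `n` large

PROOFS. Put `y = log (150/c₀ (log n)^{3/4}) / log (21/20) ≥ 0` for `n` large; `J = ⌈y⌉` satisfies
`y ≤ J ≤ y+1`, so `150/c₀ (log n)^{3/4} ≤ (21/20)^J ≤ (21/20) 150/c₀ (log n)^{3/4}`, and
multiplication by `(log n)^{1/4}` gives `JN_spec`: `150/c₀ log n ≤ (21/20)^J (log n)^{1/4} ≤
157.5/c₀ log n`, hence `165/c₀ log n ≤ LL ≤ 174/c₀ log n`. `xb = (21/20) XS n h J`.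
`hpar`: `lo`: `xb ≥ h ≥ n^{-1/3+δ} ≥ n^{-1/3+δ/2}`. `hi`: `xb ≤ 170/c₀ log n n^{-δ} ≤ n^{-δ/2}`.
`klo`: `n^{δ/4}/xb² ≤ n^{δ/2}/h² ≤ kst`. `khi`: `kst ≤ n^{δ/2}/h² + 1 ≤ h n/1000 ≤ xb n/1000`, since
`h³ n ≥ n^{3δ}`.
`kst_le`: `kst ≤ n^{δ/2}/h² + 1 ≤ 10⁻⁶ h n ≤ (h³n/100)(10⁻⁴/h²) ≤ N' * kh h`.
`sizes`: `lmN = ⌈3 log n/h⌉`, `l1N = ⌈8 log n/h⌉`, `rN ≤ n^{-θ}/h ≤ 1/h`.
-/

open Finset MeasureTheory

namespace RST.A

open Filter in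
lemma A04_rpow (a C : ℝ) (ha : 0 < a) : ∀ᶠ n : ℕ in atTop, C ≤ (n : ℝ) ^ a :=
  ((tendsto_rpow_atTop ha).comp tendsto_natCast_atTop_atTop).eventually_ge_atTop C

open Filter in
lemma A04_log (C : ℝ) : ∀ᶠ n : ℕ in atTop, C ≤ Real.log n :=
  (Real.tendsto_log_atTop.comp tendsto_natCast_atTop_atTop).eventually_ge_atTop C

open Filter in
lemma A04_log_rpow (a C : ℝ) (ha : 0 < a) (hC : 0 < C) :
    ∀ᶠ n : ℕ in atTop, C * Real.log n ≤ (n : ℝ) ^ a := by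
  have h1 := (isLittleO_log_rpow_atTop ha).bound (c := 1 / C) (by positivity)
  have h2 : ∀ᶠ n : ℕ in atTop, ‖Real.log (n : ℝ)‖ ≤ 1 / C * ‖(n : ℝ) ^ a‖ :=
    tendsto_natCast_atTop_atTop.eventually h1
  filter_upwards [h2] with n hn
  have h3 : ‖(n : ℝ) ^ a‖ = (n : ℝ) ^ a := Real.norm_of_nonneg (by positivity)
  rw [h3] at hn
  have h4 : Real.log n ≤ 1 / C * (n : ℝ) ^ a := le_trans (le_abs_self _) hn
  calc C * Real.log n ≤ C * (1 / C * (n : ℝ) ^ a) := by gcongr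
    _ = (n : ℝ) ^ a := by field_simp

theorem JN_spec (c₀ : ℝ) (hc : 0 < c₀) (hc1 : c₀ ≤ 1) : ∃ n₀ : ℕ, ∀ n : ℕ, n₀ ≤ n →
    150 / c₀ * Real.log n ≤ (21 / 20) ^ JN c₀ n * (Real.log n) ^ (1 / 4 : ℝ) ∧
    (21 / 20) ^ JN c₀ n * (Real.log n) ^ (1 / 4 : ℝ) ≤ 158 / c₀ * Real.log n ∧
    165 / c₀ * Real.log n ≤ LL c₀ n ∧ LL c₀ n ≤ 174 / c₀ * Real.log n ∧
    (∀ h : ℝ, xb c₀ n h = 21 / 20 * XS n h (JN c₀ n)) ∧
    ∀ h : ℝ, LL c₀ n * h = 11 / 10 * XS n h (JN c₀ n) := by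
  obtain ⟨n₀, hn₀⟩ := Filter.eventually_atTop.1 (A04_log 1)
  refine ⟨n₀, fun n hn => ?_⟩
  have hl := hn₀ n hn
  have hl0 : 0 < Real.log n := by linarith
  have hx1 : (1 : ℝ) ≤ (Real.log n) ^ (3 / 4 : ℝ) := Real.one_le_rpow hl (by norm_num)
  have hc2 : (150 : ℝ) ≤ 150 / c₀ := by
    rw [le_div_iff₀ hc]
    nlinarith
  set X : ℝ := 150 / c₀ * (Real.log n) ^ (3 / 4 : ℝ) with hX
  have hX1 : 1 ≤ X := by nlinarith
  have hX0 : 0 < X := by linarith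
  have hb : (0 : ℝ) < Real.log (21 / 20) := Real.log_pos (by norm_num)
  have hy0 : 0 ≤ Real.log X / Real.log (21 / 20) := div_nonneg (Real.log_nonneg hX1) hb.le
  have hJ1 : Real.log X / Real.log (21 / 20) ≤ (JN c₀ n : ℝ) := Nat.le_ceil _
  have hJ2 : (JN c₀ n : ℝ) < Real.log X / Real.log (21 / 20) + 1 := Nat.ceil_lt_add_one hy0
  have hlogp : Real.log (((21 : ℝ) / 20) ^ JN c₀ n) = JN c₀ n * Real.log (21 / 20) :=
    Real.log_pow _ _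
  have hp0 : (0 : ℝ) < (21 / 20) ^ JN c₀ n := by positivity
  have h1 : X ≤ (21 / 20) ^ JN c₀ n := by
    rw [← Real.log_le_log_iff hX0 hp0, hlogp]
    rwa [div_le_iff₀ hb] at hJ1
  have h2 : (21 / 20 : ℝ) ^ JN c₀ n ≤ 21 / 20 * X := by
    rw [← Real.log_le_log_iff hp0 (by positivity), hlogp, Real.log_mul (by norm_num) hX0.ne']
    have h3 : (JN c₀ n : ℝ) * Real.log (21 / 20) ≤
        (Real.log X / Real.log (21 / 20) + 1) * Real.log (21 / 20) := by gcongr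
    have h4 : (Real.log X / Real.log (21 / 20) + 1) * Real.log (21 / 20) =
        Real.log X + Real.log (21 / 20) := by field_simp
    linarith
  have h5 : (Real.log n) ^ (3 / 4 : ℝ) * (Real.log n) ^ (1 / 4 : ℝ) = Real.log n := by
    rw [← Real.rpow_add hl0]
    norm_num
  have h6 : X * (Real.log n) ^ (1 / 4 : ℝ) = 150 / c₀ * Real.log n := by
    rw [hX, mul_assoc, h5]
  have hq0 : 0 < (Real.log n) ^ (1 / 4 : ℝ) := Real.rpow_pos_of_pos hl0 _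
  have h7 : 150 / c₀ * Real.log n ≤ (21 / 20) ^ JN c₀ n * (Real.log n) ^ (1 / 4 : ℝ) := by
    rw [← h6]; gcongr
  have hcl : 0 < Real.log n / c₀ := by positivity
  have e150 : 150 / c₀ * Real.log n = 150 * (Real.log n / c₀) := by ring
  have e158 : 158 / c₀ * Real.log n = 158 * (Real.log n / c₀) := by ring
  have e165 : 165 / c₀ * Real.log n = 165 * (Real.log n / c₀) := by ring
  have e174 : 174 / c₀ * Real.log n = 174 * (Real.log n / c₀) := by ring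
  have h8 : (21 / 20 : ℝ) ^ JN c₀ n * (Real.log n) ^ (1 / 4 : ℝ) ≤ 158 / c₀ * Real.log n := by
    calc (21 / 20 : ℝ) ^ JN c₀ n * (Real.log n) ^ (1 / 4 : ℝ)
        ≤ (21 / 20 * X) * (Real.log n) ^ (1 / 4 : ℝ) := by gcongr
      _ = 21 / 20 * (150 / c₀ * Real.log n) := by rw [← h6]; ring
      _ ≤ 158 / c₀ * Real.log n := by rw [e150, e158]; linarith
  refine ⟨h7, h8, ?_, ?_, ?_, ?_⟩
  · unfold LL
    rw [e150] at h7
    rw [e165]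
    linarith
  · unfold LL
    rw [e158] at h8
    rw [e174]
    linarith
  · intro h
    unfold xb XS
    rw [pow_succ]
    ring
  · intro h
    unfold LL XS
    ring

lemma A04_par (δ : ℝ) (hδ : 0 < δ) (hδ1 : δ ≤ 1 / 10) : ∃ n₀ : ℕ, ∀ n : ℕ, n₀ ≤ n → ∀ h : ℝ,
    R2Par δ n h → 1 ≤ n ∧ 0 < h ∧ h ≤ 1 / 100 ∧ (n : ℝ) ^ (3 * δ) ≤ h ^ 3 * n ∧
      (kst δ n h : ℝ) ≤ 2 * ((n : ℝ) ^ (δ / 2) / h ^ 2) ∧
      10 ^ 7 * (n : ℝ) ^ (δ / 2) ≤ h ^ 3 * n := by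
  obtain ⟨n₁, hn₁⟩ := Filter.eventually_atTop.1 (A04_rpow δ 100 hδ)
  obtain ⟨n₂, hn₂⟩ := Filter.eventually_atTop.1 (A04_rpow (5 / 2 * δ) (10 ^ 7) (by linarith))
  refine ⟨max 1 (max n₁ n₂), fun n hn h hh => ?_⟩
  have hn1 : 1 ≤ n := le_trans (le_max_left _ _) hn
  have h1 := hn₁ n (le_trans (le_trans (le_max_left _ _) (le_max_right _ _)) hn)
  have h2 := hn₂ n (le_trans (le_trans (le_max_right _ _) (le_max_right _ _)) hn)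
  have hnr : (0 : ℝ) < n := by exact_mod_cast hn1
  have hn1r : (1 : ℝ) ≤ n := by exact_mod_cast hn1
  have hh0 : 0 < h := lt_of_lt_of_le (Real.rpow_pos_of_pos hnr _) hh.lo
  have hh1 : h ≤ 1 / 100 := by
    refine le_trans hh.hi ?_
    rw [Real.rpow_neg hnr.le, ← one_div]
    exact one_div_le_one_div_of_le (by norm_num) h1
  have h3 : (n : ℝ) ^ (3 * δ) ≤ h ^ 3 * n := by
    have h4 : ((n : ℝ) ^ (-(1 / 3 : ℝ) + δ)) ^ 3 ≤ h ^ 3 :=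
      pow_le_pow_left₀ (Real.rpow_pos_of_pos hnr _).le hh.lo 3
    have h5 : ((n : ℝ) ^ (-(1 / 3 : ℝ) + δ)) ^ 3 * n = (n : ℝ) ^ (3 * δ) := by
      rw [← Real.rpow_natCast, ← Real.rpow_mul hnr.le]
      nth_rewrite 2 [← Real.rpow_one (n : ℝ)]
      rw [← Real.rpow_add hnr]
      congr 1
      push_cast
      ring
    rw [← h5]
    gcongr
  have h6 : (1 : ℝ) ≤ (n : ℝ) ^ (δ / 2) / h ^ 2 := by
    rw [le_div_iff₀ (by positivity)]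
    have h7 : (1 : ℝ) ≤ (n : ℝ) ^ (δ / 2) := Real.one_le_rpow hn1r (by linarith)
    nlinarith
  refine ⟨hn1, hh0, hh1, h3, ?_, ?_⟩
  · have h8 : (kst δ n h : ℝ) < (n : ℝ) ^ (δ / 2) / h ^ 2 + 1 :=
      Nat.ceil_lt_add_one (by linarith)
    linarith
  · refine le_trans ?_ h3
    calc 10 ^ 7 * (n : ℝ) ^ (δ / 2) ≤ (n : ℝ) ^ (5 / 2 * δ) * (n : ℝ) ^ (δ / 2) := by gcongr
      _ = (n : ℝ) ^ (3 * δ) := by
        rw [← Real.rpow_add hnr]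
        congr 1
        ring

theorem hpar (δ c₀ : ℝ) (hδ : 0 < δ) (hδ1 : δ ≤ 1 / 10) (hc : 0 < c₀) (hc1 : c₀ ≤ 1) :
    ∃ n₀ : ℕ, ∀ n : ℕ, n₀ ≤ n → ∀ h : ℝ, R2Par δ n h →
    HPar (δ / 2) n (xb c₀ n h) (kst δ n h) ∧ 0 < h ∧ h ≤ 1 / 100 ∧
    150 / c₀ * Real.log n * h ≤ xb c₀ n h ∧ xb c₀ n h ≤ 170 / c₀ * Real.log n * h ∧
    26 / 25 * xb c₀ n h ≤ LL c₀ n * h ∧ (n : ℝ) ^ (3 * δ) ≤ h ^ 3 * n := by
  obtain ⟨n₁, hn₁⟩ := JN_spec c₀ hc hc1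
  obtain ⟨n₂, hn₂⟩ := A04_par δ hδ hδ1
  obtain ⟨n₃, hn₃⟩ := Filter.eventually_atTop.1 (A04_log 1)
  obtain ⟨n₄, hn₄⟩ := Filter.eventually_atTop.1
    (A04_log_rpow (δ / 2) (170 / c₀) (by linarith) (by positivity))
  refine ⟨max (max n₁ n₂) (max n₃ n₄), fun n hn h hh => ?_⟩
  obtain ⟨a1, a2, a3, a4, a5, a6⟩ := hn₁ n (by omega)
  obtain ⟨hn1, hh0, hh1, b1, b2, b3⟩ := hn₂ n (by omega) h hh
  have hl := hn₃ n (by omega)
  have hlr := hn₄ n (by omega)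
  have hnr : (0 : ℝ) < n := by exact_mod_cast hn1
  have hn1r : (1 : ℝ) ≤ n := by exact_mod_cast hn1
  set E : ℝ := (21 / 20) ^ JN c₀ n * (Real.log n) ^ (1 / 4 : ℝ) with hE
  have hXS : XS n h (JN c₀ n) = E * h := by unfold XS; rw [hE]; ring
  have hc2 : (150 : ℝ) ≤ 150 / c₀ := by
    rw [le_div_iff₀ hc]
    nlinarith
  have hcl : 0 < Real.log n / c₀ := by positivity
  have e150 : 150 / c₀ * Real.log n = 150 * (Real.log n / c₀) := by ring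
  have e158 : 158 / c₀ * Real.log n = 158 * (Real.log n / c₀) := by ring
  have e170 : 170 / c₀ * Real.log n = 170 * (Real.log n / c₀) := by ring
  have hE1 : 150 * (Real.log n / c₀) ≤ E := by rw [← e150]; exact a1
  have hE2 : E ≤ 158 * (Real.log n / c₀) := by rw [← e158]; exact a2
  have hxb : xb c₀ n h = 21 / 20 * (E * h) := by rw [a5 h, hXS]
  have hEh0 : 0 ≤ (E - 150 * (Real.log n / c₀)) * h := mul_nonneg (by linarith) hh0.le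
  have hEh1 : 0 ≤ (158 * (Real.log n / c₀) - E) * h := mul_nonneg (by linarith) hh0.le
  have hclh : 0 < Real.log n / c₀ * h := by positivity
  have hx1 : 150 / c₀ * Real.log n * h ≤ xb c₀ n h := by
    rw [e150, hxb]; nlinarith
  have hx2 : xb c₀ n h ≤ 170 / c₀ * Real.log n * h := by
    rw [e170, hxb]; nlinarith
  have hlc : (1 : ℝ) ≤ 150 / c₀ * Real.log n := by nlinarith
  have hhx : h ≤ xb c₀ n h := by nlinarith
  have hx0 : 0 < xb c₀ n h := by linarith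
  refine ⟨⟨?_, ?_, ?_, ?_⟩, hh0, hh1, hx1, hx2, ?_, b1⟩
  · refine le_trans ?_ hhx
    refine le_trans ?_ hh.lo
    exact Real.rpow_le_rpow_of_exponent_le hn1r (by linarith)
  · refine le_trans hx2 ?_
    calc 170 / c₀ * Real.log n * h ≤ (n : ℝ) ^ (δ / 2) * (n : ℝ) ^ (-δ) :=
          mul_le_mul hlr hh.hi hh0.le (by positivity)
      _ = (n : ℝ) ^ (-(δ / 2)) := by
        rw [← Real.rpow_add hnr]
        congr 1
        ring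
  · calc (n : ℝ) ^ (δ / 2 / 2) / xb c₀ n h ^ 2 ≤ (n : ℝ) ^ (δ / 2) / h ^ 2 := by
          gcongr
          linarith
      _ ≤ (kst δ n h : ℝ) := Nat.le_ceil _
  · have h8 : 2 * ((n : ℝ) ^ (δ / 2) / h ^ 2) ≤ h * n / 1000 := by
      rw [← mul_div_assoc, div_le_div_iff₀ (by positivity) (by norm_num)]
      have h9 : 0 < (n : ℝ) ^ (δ / 2) := Real.rpow_pos_of_pos hnr _
      nlinarith
    have h10 : h * n / 1000 ≤ xb c₀ n h * n / 1000 := by gcongr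
    linarith
  · rw [a6 h, hxb, hXS]
    have : 0 < E * h := by
      have : 0 < E := by linarith [hE1, hcl]
      positivity
    linarith

theorem kst_le (δ : ℝ) (hδ : 0 < δ) (hδ1 : δ ≤ 1 / 10) : ∃ n₀ : ℕ, ∀ n : ℕ, n₀ ≤ n → ∀ h : ℝ,
    R2Par δ n h → ∀ N' : ℕ, h ^ 3 * n / 100 ≤ N' → kst δ n h ≤ N' * kh h := by
  obtain ⟨n₂, hn₂⟩ := A04_par δ hδ hδ1
  refine ⟨n₂, fun n hn h hh N' hN' => ?_⟩
  obtain ⟨hn1, hh0, hh1, b1, b2, b3⟩ := hn₂ n hn h hh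
  have hnr : (0 : ℝ) < n := by exact_mod_cast hn1
  have h1 : (1 / 10 ^ 4 : ℝ) / h ^ 2 ≤ (kh h : ℝ) := Nat.le_ceil _
  have h2 : (h ^ 3 * n / 100) * ((1 / 10 ^ 4 : ℝ) / h ^ 2) ≤ (N' : ℝ) * (kh h : ℝ) := by
    gcongr
  have h3 : 2 * ((n : ℝ) ^ (δ / 2) / h ^ 2) ≤
      (h ^ 3 * n / 100) * ((1 / 10 ^ 4 : ℝ) / h ^ 2) := by
    have h4 : (h ^ 3 * n / 100) * ((1 / 10 ^ 4 : ℝ) / h ^ 2) =
        (h ^ 3 * n / 10 ^ 6) / h ^ 2 := by ring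
    rw [h4, ← mul_div_assoc]
    gcongr
    have h9 : 0 < (n : ℝ) ^ (δ / 2) := Real.rpow_pos_of_pos hnr _
    linarith
  have h5 : (kst δ n h : ℝ) ≤ (N' * kh h : ℕ) := by
    push_cast
    linarith
  exact_mod_cast h5

theorem sizes (δ θ : ℝ) (hδ : 0 < δ) (hδ1 : δ ≤ 1 / 10) (hθ : 0 < θ) (hθ1 : θ ≤ δ / 10) :
    ∃ n₀ : ℕ, ∀ n : ℕ, n₀ ≤ n → ∀ h : ℝ, R2Par δ n h →
    2 * lmN n h ≤ l1N n h ∧ 4 * rN θ n h ≤ l1N n h ∧ 2 ≤ rN θ n h ∧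
    (lmN n h : ℝ) ≤ 4 * Real.log n / h ∧ (l1N n h : ℝ) ≤ 9 * Real.log n / h ∧
    (n : ℝ) ^ (-θ) / (2 * h) ≤ rN θ n h ∧ (rN θ n h : ℝ) ≤ 1 / h ∧ 1 ≤ lmN n h := by
  obtain ⟨n₂, hn₂⟩ := A04_par δ hδ hδ1
  obtain ⟨n₃, hn₃⟩ := Filter.eventually_atTop.1 (A04_log 1)
  obtain ⟨n₄, hn₄⟩ := Filter.eventually_atTop.1 (A04_rpow (9 / 10 * δ) 2 (by linarith))
  refine ⟨max n₂ (max n₃ n₄), fun n hn h hh => ?_⟩
  obtain ⟨hn1, hh0, hh1, b1, b2, b3⟩ := hn₂ n (by omega) h hh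
  have hl := hn₃ n (by omega)
  have hr2 := hn₄ n (by omega)
  have hnr : (0 : ℝ) < n := by exact_mod_cast hn1
  have hn1r : (1 : ℝ) ≤ n := by exact_mod_cast hn1
  have hL : 1 ≤ Real.log n / h := by
    rw [le_div_iff₀ hh0]
    nlinarith
  have e3 : 3 * Real.log n / h = 3 * (Real.log n / h) := by ring
  have e8 : 8 * Real.log n / h = 8 * (Real.log n / h) := by ring
  have e4 : 4 * Real.log n / h = 4 * (Real.log n / h) := by ring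
  have e9 : 9 * Real.log n / h = 9 * (Real.log n / h) := by ring
  have m1 : 3 * (Real.log n / h) ≤ (lmN n h : ℝ) := by
    rw [← e3]; exact Nat.le_ceil _
  have m2 : (lmN n h : ℝ) < 3 * (Real.log n / h) + 1 := by
    rw [← e3]; exact Nat.ceil_lt_add_one (by rw [e3]; linarith)
  have m3 : 8 * (Real.log n / h) ≤ (l1N n h : ℝ) := by
    rw [← e8]; exact Nat.le_ceil _
  have m4 : (l1N n h : ℝ) < 8 * (Real.log n / h) + 1 := by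
    rw [← e8]; exact Nat.ceil_lt_add_one (by rw [e8]; linarith)
  have hx2 : 2 ≤ (n : ℝ) ^ (-θ) / h := by
    rw [le_div_iff₀ hh0]
    have h1 : (n : ℝ) ^ (9 / 10 * δ) * (n : ℝ) ^ (-δ) ≤ (n : ℝ) ^ (-θ) := by
      rw [← Real.rpow_add hnr]
      exact Real.rpow_le_rpow_of_exponent_le hn1r (by linarith)
    have h2 : 2 * h ≤ (n : ℝ) ^ (9 / 10 * δ) * (n : ℝ) ^ (-δ) :=
      mul_le_mul hr2 hh.hi hh0.le (by positivity)
    linarith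
  have hr : (n : ℝ) ^ (-θ) ≤ 1 := Real.rpow_le_one_of_one_le_of_nonpos hn1r (by linarith)
  have hxle : (n : ℝ) ^ (-θ) / h ≤ 1 / h := by gcongr
  have r1 : (rN θ n h : ℝ) ≤ (n : ℝ) ^ (-θ) / h := Nat.floor_le (by linarith)
  have r2 : (n : ℝ) ^ (-θ) / h < (rN θ n h : ℝ) + 1 := Nat.lt_floor_add_one _
  have h1h : 1 / h ≤ Real.log n / h := by gcongr
  refine ⟨?_, ?_, ?_, ?_, ?_, ?_, ?_, ?_⟩
  · have : ((2 * lmN n h : ℕ) : ℝ) ≤ (l1N n h : ℝ) := by push_cast; linarith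
    exact_mod_cast this
  · have : ((4 * rN θ n h : ℕ) : ℝ) ≤ (l1N n h : ℝ) := by push_cast; linarith
    exact_mod_cast this
  · exact Nat.le_floor (by exact_mod_cast hx2)
  · rw [e4]; linarith
  · rw [e9]; linarith
  · have : (n : ℝ) ^ (-θ) / (2 * h) = ((n : ℝ) ^ (-θ) / h) / 2 := by ring
    rw [this]; linarith
  · linarith
  · have : (0 : ℝ) < (lmN n h : ℝ) := by linarith
    exact_mod_cast this

end RST.A
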