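import Pool.Agent.Lib.MP_7946c7_pr.A.A02
import Pool.Agent.Lib.MP_7946c7_pr.A.A04
import Pool.Agent.Lib.MP_7946c7_pr.H.Main

/-!
# A05. Good paths ending at a representative: they enter `GW` quickly

PROOF of `enter`. Use `hanging_tree (δ/2)` (IfH) with `xs = xb c₀ n h`, `k = kst δ n h`, `j₂` from
`F.hang`, `s = 6 log n / (c₀/h) = (6/c₀) log n h ≤ xb/25` (by `hpar`: `xb ≥ 150/c₀ log n h`), and the
first property of `GoodT`. Its hypothesis `γ ℓ ∈ gg (gr lab xb) univ (kst)` holds because `γ ℓ` is a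
representative: `bigs_in_gg` with `R = gr lab xb`, `GA ≤ R` since `C1 log n h ≤ xb`
(`xb ≥ 150/c₀ log n h ≥ 150 C1 log n h` as `c₀ C1 ≤ 1`), and `kst_le` with `F.nlo`. The conclusion
gives `i ≤ ℓ`, `i ≤ 2500 log n/xb` (so `i ≤ EhN`, a floor) and the labels after `i` are
`≤ 26/25 xb ≤ LL h`, which gives `GW` (edges of `T` join distinct vertices).

`EhN_le`: `2500 log n / xb ≤ 2500 log n c₀/(150 log n h) ≤ 17/h`.
-/

open Finset MeasureTheory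

namespace RST.A

/-- Length of the hanging pieces. -/
noncomputable def EhN (c₀ : ℝ) (n : ℕ) (h : ℝ) : ℕ := ⌊2500 * Real.log n / xb c₀ n h⌋₊

theorem EhN_le (δ c₀ : ℝ) (hδ : 0 < δ) (hδ1 : δ ≤ 1 / 10) (hc : 0 < c₀) (hc1 : c₀ ≤ 1) :
    ∃ n₀ : ℕ, ∀ n : ℕ, n₀ ≤ n → ∀ h : ℝ, R2Par δ n h → (EhN c₀ n h : ℝ) ≤ 17 / h := by
  obtain ⟨n₁, h₁⟩ := hpar δ c₀ hδ hδ1 hc hc1
  refine ⟨max n₁ 2, fun n hn h hp => ?_⟩
  obtain ⟨-, hh, -, hx, -, -, -⟩ := h₁ n ((le_max_left _ _).trans hn) h hp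
  have hn2 : 2 ≤ n := (le_max_right _ _).trans hn
  have hl : 0 < Real.log n := Real.log_pos (by exact_mod_cast hn2)
  have h0 : 0 < 150 / c₀ * Real.log n * h := by positivity
  have hx0 : 0 < xb c₀ n h := lt_of_lt_of_le h0 hx
  refine (Nat.floor_le (by positivity)).trans ?_
  calc 2500 * Real.log n / xb c₀ n h ≤ 2500 * Real.log n / (150 / c₀ * Real.log n * h) :=
        div_le_div_of_nonneg_left (by positivity) h0 hx
    _ = (50 / 3 * c₀) / h := by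
        field_simp
        ring
    _ ≤ 17 / h := div_le_div_of_nonneg_right (by linarith) hh.le

theorem enter (δ θ c₀ : ℝ) (Cr : ℕ) (hδ : 0 < δ) (hδ1 : δ ≤ 1 / 10) (hθ : 0 < θ)
    (hθ1 : θ ≤ δ / 10) (hc : 0 < c₀) (hc1 : c₀ * C1 ≤ 1) : ∃ n₀ : ℕ, ∀ n : ℕ, n₀ ≤ n →
    ∀ h : ℝ, R2Par δ n h → ∀ lab : Sym2 (Fin n) → ℝ, WFacts δ θ c₀ Cr n h lab →
    ∀ rep : Finset (Fin n) → Fin n, (∀ Q ∈ SS h lab, rep Q ∈ Q) →
    ∀ T ∈ GoodT c₀ h lab, T.IsTree → ∀ (γ : ℕ → Fin n) (ℓ : ℕ), IsSAW T.Adj γ ℓ →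
      γ ℓ ∈ reps h lab rep →
      ∃ i ≤ ℓ, i ≤ EhN c₀ n h ∧ ∀ j, i ≤ j → j < ℓ → GW c₀ h lab (γ j) (γ (j + 1)) := by
  have hC1 : (1 : ℝ) ≤ C1 := by
    unfold C1
    norm_num
  have hc1' : c₀ ≤ 1 := by nlinarith
  obtain ⟨n₁, h₁⟩ := hpar δ c₀ hδ hδ1 hc hc1'
  obtain ⟨n₂, h₂⟩ := kst_le δ hδ hδ1
  obtain ⟨n₃, h₃⟩ := hanging_tree (δ / 2) (by linarith) (by linarith)
  refine ⟨max (max n₁ n₂) (max n₃ 2), fun n hn h hp lab F rep hrep T hT hTt γ ℓ hγ hℓ => ?_⟩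
  have hn1 : n₁ ≤ n := ((le_max_left _ _).trans (le_max_left _ _)).trans hn
  have hn2 : n₂ ≤ n := ((le_max_right _ _).trans (le_max_left _ _)).trans hn
  have hn3 : n₃ ≤ n := ((le_max_left _ _).trans (le_max_right _ _)).trans hn
  have hn4 : 2 ≤ n := ((le_max_right _ _).trans (le_max_right _ _)).trans hn
  have hl : 0 < Real.log n := Real.log_pos (by exact_mod_cast hn4)
  obtain ⟨hP, hh, -, hx, -, hxL, -⟩ := h₁ n hn1 h hp
  have h0 : 0 < 150 / c₀ * Real.log n * h := by positivity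
  have hx0 : 0 < xb c₀ n h := lt_of_lt_of_le h0 hx
  obtain ⟨j₂, hj1, hj2, hH⟩ := F.hang
  have hcard : Fintype.card (Fin n) = n := Fintype.card_fin n
  -- the graph `GA` is contained in the graph at the base scale
  have hGA : C1 * Real.log n * h ≤ xb c₀ n h := by
    refine le_trans ?_ hx
    have h1 : C1 ≤ 1 / c₀ := by
      rw [le_div_iff₀ hc]
      linarith
    have h2 : C1 ≤ 150 / c₀ := by
      have h3 : 150 / c₀ = 150 * (1 / c₀) := by ring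
      rw [h3]
      linarith
    exact mul_le_mul_of_nonneg_right (mul_le_mul_of_nonneg_right h2 hl.le) hh.le
  have hgg : γ ℓ ∈ gg (gr lab (xb c₀ n h)) univ (kst δ n h) := by
    obtain ⟨Q, hQ, hQe⟩ := mem_image.1 hℓ
    have hk : kst δ n h ≤ (bigs (Gm h lab) univ (kh h)).card * kh h :=
      h₂ n hn2 h hp _ F.nlo
    exact bigs_in_gg (Gm h lab) (GA h lab) (GW c₀ h lab) _ _ _ _ _ _ _ _ F.D
      (gr lab (xb c₀ n h)) (fun u v huv => ⟨huv.1, huv.2.trans hGA⟩) _ hk Q hQ _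
      (hQe ▸ hrep Q hQ)
  have hs : 6 * Real.log n / (c₀ / h) ≤ xb c₀ n h / 25 := by
    have e : 6 * Real.log n / (c₀ / h) = 150 / c₀ * Real.log n * h / 25 := by
      field_simp
      ring
    rw [e]
    exact div_le_div_of_nonneg_right hx (by norm_num)
  obtain ⟨i, hi, hib, -, hlab⟩ := h₃ (Fin n) (by rw [hcard]; exact hn3) lab (xb c₀ n h)
    (6 * Real.log n / (c₀ / h)) (kst δ n h) j₂ (by rw [hcard]; exact hP)
    (by rw [hcard]; exact hj1) (by rw [hcard]; exact hj2) hH hs T hTt hT.1 γ ℓ hγ hgg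
  rw [hcard] at hib
  refine ⟨i, hi, ?_, fun j hj hjℓ => ⟨(hγ.1 j hjℓ).ne, (hlab j hj hjℓ).trans hxL⟩⟩
  unfold EhN
  exact Nat.le_floor hib

end RST.A
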