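import Pool.Agent.Lib.MP_7946c7_pr.A.A01
import Pool.Agent.Lib.MP_7946c7_pr.A.A05
import Pool.Agent.Lib.MP_7946c7_pr.I.Main

/-!
# A06. Hypotheses (U3) and (U4) of the upper theorem

PROOF of `u3_fixed`. By `enter` there is `i ≤ EhN` with the steps `i..ℓ-1` of `γ` in `GW`. Put
`γ' j = γ (i + j)`: a SAW of `GW` of length `M₀` (`i + M₀ ≤ EhN + M₀ ≤ ℓ`), and `f (γ' j) = 0` for
`j ≤ M₀`. For `j + l1N ≤ M₀` the piece `γ' j, …, γ' (j + l1N)` is a SAW of `T` with labels `≤ LL h`,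
so the second property of `GoodT` gives an `AGood` vertex on it. Apply `dirichletS` (IfI) with
`F.D`, `CFacts` from `cfacts` (A01), `R₀ = (log n)^Cr + 1`, `RA = n^{c₀ C1}`, `hl₁`, `hl₂`, `hr'`
from `sizes`.

PROOF of `u4_fixed`. By `enter`, `γ' j = γ (i+j)` is a SAW of `GW` of length `ℓ - i`; `len_bound`
gives `ℓ - i ≤ 2 (r''+1) + lmN (#{edges of γ' in Ebig} + 1)` and the edges of `γ'` are edges of `γ`
(inject the index set `range (ℓ-i)` into `range ℓ` by `j ↦ i + j`).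
-/

open Finset MeasureTheory

namespace RST.A

theorem u3_fixed (δ θ c₀ : ℝ) (Cr : ℕ) (hδ : 0 < δ) (hδ1 : δ ≤ 1 / 10) (hθ : 0 < θ)
    (hθ1 : θ ≤ δ / 10) (hc : 0 < c₀) (hc1 : c₀ * C1 ≤ 1) : ∃ n₀ : ℕ, ∀ n : ℕ, n₀ ≤ n →
    ∀ h : ℝ, R2Par δ n h → ∀ lab : Sym2 (Fin n) → ℝ, WFacts δ θ c₀ Cr n h lab →
    ∀ rep : Finset (Fin n) → Fin n, (∀ Q ∈ SS h lab, rep Q ∈ Q) →
    ∀ (M₀ : ℕ) (mg : ℝ), 0 < mg → mg * (abN θ n + ebN θ n + 1) *
      ((2 * k0N θ + 4) * (abN θ n + ebN θ n + 2)) ≤ (M₀ / (2 * l1N n h) : ℕ) →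
    ∀ T ∈ GoodT c₀ h lab, T.IsTree → ∀ (γ : ℕ → Fin n) (ℓ : ℕ), EhN c₀ n h + M₀ ≤ ℓ →
      IsSAW T.Adj γ ℓ → γ ℓ ∈ reps h lab rep →
      ∀ f : Fin n → ℝ, (∀ i ≤ EhN c₀ n h + M₀, f (γ i) = 0) →
      ∑ Q ∈ SS h lab, f (rep Q) ^ 2 ≤
        50 * (abN θ n + 1) ^ 2 * (2 * ((Real.log n) ^ Cr + 1) + (n : ℝ) ^ (c₀ * C1)) *
          ((SS h lab).card / mg + 1) * Dir (cc c₀ h lab) f := by
  have hC1 : (1 : ℝ) ≤ C1 := by unfold C1; norm_num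
  have hc2 : c₀ ≤ 1 := by nlinarith
  obtain ⟨n₁, h₁⟩ := enter δ θ c₀ Cr hδ hδ1 hθ hθ1 hc hc1
  obtain ⟨n₂, h₂⟩ := cfacts δ c₀ Cr hδ hδ1 hc hc2
  obtain ⟨n₃, h₃⟩ := sizes δ θ hδ hδ1 hθ hθ1
  refine ⟨max (max n₁ n₂) (max n₃ 3), fun n hn h hh lab F rep hrep M₀ mg hmg hmg2 T hT hTt γ ℓ
    hℓ hγ hend f hf => ?_⟩
  have hn1 : n₁ ≤ n := by omega
  have hn2 : n₂ ≤ n := by omega
  have hn3 : n₃ ≤ n := by omega
  have hn4 : 3 ≤ n := by omega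
  obtain ⟨i, hiℓ, hiE, hiW⟩ := h₁ n hn1 h hh lab F rep hrep T hT hTt γ ℓ hγ hend
  have hγ' : IsSAW (GW c₀ h lab) (fun j => γ (i + j)) M₀ := by
    refine ⟨fun j hj => ?_, fun a ha b hb hab => ?_⟩
    · have := hiW (i + j) (by omega) (by omega)
      simpa [add_assoc] using this
    · have := hγ.2 (i + a) (by omega) (i + b) (by omega) hab
      omega
  obtain ⟨s1, s2, s3, -, -, -, -, -⟩ := h₃ n hn3 h hh
  have CF := h₂ n hn2 h hh lab F.D.d1 F.rcnt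
  have hlog : 0 ≤ Real.log n := Real.log_nonneg (by exact_mod_cast (by omega : 1 ≤ n))
  have hgood : ∀ j, j + l1N n h ≤ M₀ → ∃ t, j ≤ t ∧ t ≤ j + l1N n h ∧
      AGood (Gm h lab) (GA h lab) (kh h) (γ (i + t)) := by
    intro j hj
    have hsaw : IsSAW T.Adj (fun t => γ (i + (j + t))) (l1N n h) := by
      refine ⟨fun t ht => ?_, fun a ha b hb hab => ?_⟩
      · have := hγ.1 (i + (j + t)) (by omega)
        simpa [add_assoc] using this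
      · have := hγ.2 (i + (j + a)) (by omega) (i + (j + b)) (by omega) hab
        omega
    have hW : ∀ t < l1N n h, gr lab (LL c₀ n * h) (γ (i + (j + t))) (γ (i + (j + (t + 1)))) := by
      intro t ht
      have := hiW (i + (j + t)) (by omega) (by omega)
      simpa [add_assoc] using this
    obtain ⟨t, ht, hg⟩ := hT.2 (fun t => γ (i + (j + t))) hsaw hW
    exact ⟨j + t, by omega, by omega, hg⟩
  have hf' : ∀ j ≤ M₀, f (γ (i + j)) = 0 := fun j hj => hf (i + j) (by omega)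
  exact dirichletS (Gm h lab) (GA h lab) (GW c₀ h lab) (kh h) (lmN n h) (rN θ n h)
    (rN θ n h / 2) (k0N θ) (2 * k0N θ + 4) (abN θ n) (ebN θ n) F.D rfl s3 le_rfl
    (cc c₀ h lab) _ _ CF (by positivity) (by positivity) rep hrep (fun j => γ (i + j)) M₀
    (l1N n h) hγ' s1 s2 hgood mg hmg hmg2 f hf'

open Classical in
theorem u4_fixed (δ θ c₀ : ℝ) (Cr : ℕ) (hδ : 0 < δ) (hδ1 : δ ≤ 1 / 10) (hθ : 0 < θ)
    (hθ1 : θ ≤ δ / 10) (hc : 0 < c₀) (hc1 : c₀ * C1 ≤ 1) : ∃ n₀ : ℕ, ∀ n : ℕ, n₀ ≤ n →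
    ∀ h : ℝ, R2Par δ n h → ∀ lab : Sym2 (Fin n) → ℝ, WFacts δ θ c₀ Cr n h lab →
    ∀ rep : Finset (Fin n) → Fin n, (∀ Q ∈ SS h lab, rep Q ∈ Q) →
    ∀ T ∈ GoodT c₀ h lab, T.IsTree → ∀ (γ : ℕ → Fin n) (ℓ : ℕ), IsSAW T.Adj γ ℓ →
      γ ℓ ∈ reps h lab rep →
      (ℓ : ℝ) ≤ (EhN c₀ n h + 2 * ((rN θ n h / 2 : ℕ) + 1) + lmN n h) + lmN n h *
        ((range ℓ).filter fun i =>
          s(γ i, γ (i + 1)) ∈ Ebig (Gm h lab) (GW c₀ h lab) (rN θ n h / 2)).card := by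
  obtain ⟨n₁, h₁⟩ := enter δ θ c₀ Cr hδ hδ1 hθ hθ1 hc hc1
  refine ⟨n₁, fun n hn h hh lab F rep hrep T hT hTt γ ℓ hγ hend => ?_⟩
  obtain ⟨i, hiℓ, hiE, hiW⟩ := h₁ n hn h hh lab F rep hrep T hT hTt γ ℓ hγ hend
  have hγ' : IsSAW (GW c₀ h lab) (fun j => γ (i + j)) (ℓ - i) := by
    refine ⟨fun j hj => ?_, fun a ha b hb hab => ?_⟩
    · have := hiW (i + j) (by omega) (by omega)
      simpa [add_assoc] using this
    · have := hγ.2 (i + a) (by omega) (i + b) (by omega) hab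
      omega
  have hb := len_bound (Gm h lab) (GA h lab) (GW c₀ h lab) (kh h) (lmN n h) (rN θ n h)
    (rN θ n h / 2) (k0N θ) (2 * k0N θ + 4) (abN θ n) (ebN θ n) F.D (fun j => γ (i + j))
    (ℓ - i) hγ'
  have hcard : ((range (ℓ - i)).filter fun j => s(γ (i + j), γ (i + (j + 1))) ∈
      Ebig (Gm h lab) (GW c₀ h lab) (rN θ n h / 2)).card ≤
      ((range ℓ).filter fun j =>
          s(γ j, γ (j + 1)) ∈ Ebig (Gm h lab) (GW c₀ h lab) (rN θ n h / 2)).card := by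
    apply Finset.card_le_card_of_injOn (fun j => i + j)
    · intro j hj
      simp only [Finset.coe_filter, Finset.mem_range, Set.mem_ofPred_eq] at hj ⊢
      refine ⟨by omega, ?_⟩
      have := hj.2
      simpa [add_assoc] using this
    · intro a _ b _ hab
      simpa using hab
  set A := ((range (ℓ - i)).filter fun j => s(γ (i + j), γ (i + (j + 1))) ∈
      Ebig (Gm h lab) (GW c₀ h lab) (rN θ n h / 2)).card with hA
  set B := ((range ℓ).filter fun j =>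
          s(γ j, γ (j + 1)) ∈ Ebig (Gm h lab) (GW c₀ h lab) (rN θ n h / 2)).card with hB
  have hnat : ℓ ≤ (EhN c₀ n h + 2 * (rN θ n h / 2 + 1) + lmN n h) + lmN n h * B := by
    have h1 : lmN n h * (A + 1) ≤ lmN n h * (B + 1) := Nat.mul_le_mul_left _ (by omega)
    have h2 : ℓ - i ≤ 2 * (rN θ n h / 2 + 1) + lmN n h * (A + 1) := hb
    have h3 : lmN n h * (B + 1) = lmN n h * B + lmN n h := by ring
    omega
  exact_mod_cast hnat

end RST.A
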