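import Pool.Agent.Lib.MP_7946c7_pr.A.A02
import Pool.Agent.Lib.MP_7946c7_pr.A.A04
import Pool.Agent.Lib.MP_7946c7_pr.I.Main
import Pool.Agent.Lib.MP_7946c7_pr.N.Main

/-!
# A07. Hypothesis (L) of the lower theorem

PROOF of `l_fixed`. `γ 0 = rep Q`, `γ ℓ = rep Q'` with `Q, Q' ∈ SS`, `Q ≠ Q'` (as `γ 0 ≠ γ ℓ`).
By `bigs_conn` the two vertices are joined in `GA = gr lab (C1 log n h)`, so the first property of
`GoodT` gives labels `≤ C1 log n h + 6 log n/(c₀/h) = (C1 + 6/c₀) log n h ≤ 7/c₀ log n h ≤ LL h`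
(`JN_spec`; `C1 ≤ 1/c₀`). So `γ` is a SAW of `GW`, and `lower_struct` (IfI) applies.
`c_window`: an edge of `PPa`, of `QQb` or of `Ecyc`, `Ebig` is not an edge of `Gm`: its endpoints
are in different components (resp. by definition), so `lab > -h` (endpoints distinct) and
`c = exp (-(c₀/h) lab) ≤ exp c₀ ≤ 3`.
`c_min`: `lab e ≤ n - 1` (from `F.rng`).
-/

open Finset MeasureTheory

namespace RST.A

open Classical in
theorem A07_mem_cmp {V : Type} [Fintype V] (R : V → V → Prop) (u v : V) :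
    v ∈ cmp R univ u ↔ Rch R univ u v := by
  unfold cmp
  rw [mem_filter]
  exact ⟨fun h => h.2.2, fun h => ⟨mem_univ _, mem_univ _, h⟩⟩

open Classical in
theorem A07_mem_Ebig {V : Type} [Fintype V] (Gm GW : V → V → Prop) (r : ℕ) (e : Sym2 V)
    (he : e ∈ Ebig Gm GW r) : ∃ a b, e = s(a, b) ∧ GW a b ∧ ¬ Gm a b := by
  unfold Ebig at he
  rw [mem_filter] at he
  obtain ⟨-, a, b, h0, -, h1, h2, -⟩ := he
  exact ⟨a, b, h0, h1, h2⟩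

open Classical in
theorem A07_mem_Ecyc {V : Type} [Fintype V] (Gm GW : V → V → Prop) (lm : ℕ) (e : Sym2 V)
    (he : e ∈ Ecyc Gm GW lm) : ∃ a b, e = s(a, b) ∧ GW a b ∧ ¬ Gm a b := by
  unfold Ecyc at he
  rw [mem_filter] at he
  obtain ⟨-, l, -, a, b, hch, i, hi, h0⟩ := he
  exact ⟨_, _, h0, (hch.window i hi).1, (hch.window i hi).2⟩

open Classical in
theorem A07_mem_PPa {V : Type} [Fintype V] (Gm GW : V → V → Prop) (r : ℕ) (p : Sym2 V × Sym2 V)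
    (hp : p ∈ PPa Gm GW r) : ∃ a a' b b', p = (s(a, a'), s(b, b')) ∧ GW a a' ∧ ¬ Gm a a' ∧
      GW b b' ∧ ¬ Gm b b' := by
  unfold PPa at hp
  rw [mem_filter] at hp
  obtain ⟨-, a, a', b, b', h0, h1, h2, h3, h4, h5, -, -⟩ := hp
  rw [A07_mem_cmp] at h1 h4 h5
  refine ⟨a, a', b, b', h0, h2, fun h6 => h4 ?_, h3, fun h6 => h5 ?_⟩
  · exact Relation.ReflTransGen.single ⟨h6, mem_univ _, mem_univ _⟩
  · exact Relation.ReflTransGen.tail h1 ⟨h6, mem_univ _, mem_univ _⟩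

open Classical in
theorem A07_mem_QQb {V : Type} [Fintype V] (Gm GW : V → V → Prop) (km r : ℕ)
    (rep : Finset V → V) (p : V × Sym2 V) (hp : p ∈ QQb Gm GW km r rep) :
    ∃ b b', p.2 = s(b, b') ∧ GW b b' ∧ ¬ Gm b b' := by
  unfold QQb at hp
  rw [mem_filter] at hp
  obtain ⟨-, b, b', h0, -, h1, h2, -⟩ := hp
  rw [A07_mem_cmp] at h2
  refine ⟨b, b', by rw [h0], h1, fun h6 => h2 ?_⟩
  exact Relation.ReflTransGen.single ⟨h6, mem_univ _, mem_univ _⟩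

theorem A07_window {n : ℕ} (c₀ h : ℝ) (lab : Sym2 (Fin n) → ℝ) (hc : 0 < c₀) (hc1 : c₀ ≤ 1)
    (hh : 0 < h) (u v : Fin n) (h1 : GW c₀ h lab u v) (h2 : ¬ Gm h lab u v) :
    cc c₀ h lab s(u, v) ≤ 3 := by
  have h3 : -h < lab s(u, v) := by
    by_contra h4
    exact h2 ⟨h1.1, not_lt.1 h4⟩
  unfold cc
  have h5 : 0 < c₀ / h := div_pos hc hh
  have h6 : -(c₀ / h) * lab s(u, v) ≤ 1 := by
    have h7 : c₀ / h * (-h) ≤ c₀ / h * lab s(u, v) := mul_le_mul_of_nonneg_left h3.le h5.le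
    have h8 : c₀ / h * (-h) = -c₀ := by field_simp
    rw [h8] at h7
    linarith
  calc Real.exp (-(c₀ / h) * lab s(u, v)) ≤ Real.exp 1 := Real.exp_le_exp.2 h6
    _ ≤ 3 := by
      have := Real.exp_one_lt_d9
      linarith

theorem l_fixed (δ θ c₀ : ℝ) (Cr : ℕ) (hδ : 0 < δ) (hδ1 : δ ≤ 1 / 10) (hθ : 0 < θ)
    (hθ1 : θ ≤ δ / 10) (hc : 0 < c₀) (hc1 : c₀ * C1 ≤ 1) : ∃ n₀ : ℕ, ∀ n : ℕ, n₀ ≤ n →
    ∀ h : ℝ, R2Par δ n h → ∀ lab : Sym2 (Fin n) → ℝ, WFacts δ θ c₀ Cr n h lab →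
    ∀ rep : Finset (Fin n) → Fin n, (∀ Q ∈ SS h lab, rep Q ∈ Q) →
    ∀ T ∈ GoodT c₀ h lab, T.IsTree → ∀ (γ : ℕ → Fin n) (ℓ : ℕ), IsSAW T.Adj γ ℓ →
      γ 0 ∈ reps h lab rep → γ ℓ ∈ reps h lab rep → γ 0 ≠ γ ℓ →
      (∀ i < ℓ, s(γ i, γ (i + 1)) ∉ Ecyc (Gm h lab) (GW c₀ h lab) (2 * k0N θ + 4)) →
      ∃ (q : ℕ) (g : ℕ → ℕ), (∀ j ≤ q, g j < ℓ) ∧ q + 1 ≤ k0N θ * (ℓ / rN θ n h + 1) ∧
        (γ 0, s(γ (g 0), γ (g 0 + 1))) ∈ QQb (Gm h lab) (GW c₀ h lab) (kh h) (rN θ n h / 2) rep ∧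
        (γ ℓ, s(γ (g q), γ (g q + 1))) ∈ QQb (Gm h lab) (GW c₀ h lab) (kh h) (rN θ n h / 2) rep ∧
        ∀ j < q, (s(γ (g j), γ (g j + 1)), s(γ (g (j + 1)), γ (g (j + 1) + 1))) ∈
          PPa (Gm h lab) (GW c₀ h lab) (rN θ n h / 2) := by
  have hC1 : (0 : ℝ) < C1 := by unfold C1; norm_num
  have hc2 : c₀ ≤ 1 := by
    have h1 : (1 : ℝ) ≤ C1 := by unfold C1; norm_num
    nlinarith
  obtain ⟨n₁, h1⟩ := JN_spec c₀ hc hc2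
  obtain ⟨n₂, h2⟩ := hpar δ c₀ hδ hδ1 hc hc2
  obtain ⟨n₃, h3⟩ := sizes δ θ hδ hδ1 hθ hθ1
  refine ⟨max (max n₁ n₂) (max n₃ 1), fun n hn h hR lab F rep hrep T hT hTt γ ℓ hγ hγ0 hγl hne hE => ?_⟩
  have hn1 : n₁ ≤ n := le_trans (le_trans (le_max_left _ _) (le_max_left _ _)) hn
  have hn2 : n₂ ≤ n := le_trans (le_trans (le_max_right _ _) (le_max_left _ _)) hn
  have hn3 : n₃ ≤ n := le_trans (le_trans (le_max_left _ _) (le_max_right _ _)) hn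
  have hn4 : 1 ≤ n := le_trans (le_trans (le_max_right _ _) (le_max_right _ _)) hn
  obtain ⟨-, -, hLL, -, -, -⟩ := h1 n hn1
  obtain ⟨-, hh, -⟩ := h2 n hn2 h hR
  obtain ⟨-, -, hr2, -⟩ := h3 n hn3 h hR
  have hlog : 0 ≤ Real.log n := Real.log_nonneg (by exact_mod_cast hn4)
  classical
  unfold reps at hγ0 hγl
  rw [mem_image] at hγ0 hγl
  obtain ⟨Q, hQ, hQ0⟩ := hγ0
  obtain ⟨Q', hQ', hQl⟩ := hγl
  have hQne : Q ≠ Q' := by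
    rintro rfl
    exact hne (hQ0.symm.trans hQl)
  have hrch : Rch (GA h lab) univ (γ 0) (γ ℓ) := by
    have := bigs_conn (Gm h lab) (GA h lab) (GW c₀ h lab) _ _ _ _ _ _ _ _ F.D Q Q' hQ hQ'
      (rep Q) (rep Q') (hrep Q hQ) (hrep Q' hQ')
    rwa [hQ0, hQl] at this
  have hlab : ∀ i < ℓ, lab s(γ i, γ (i + 1)) ≤ LL c₀ n * h := by
    intro i hi
    have h4 := hT.1 (C1 * Real.log n * h) γ ℓ hγ hrch i hi
    have h5 : 6 * Real.log n / (c₀ / h) = 6 / c₀ * (Real.log n * h) := by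
      field_simp
    have h6 : C1 ≤ 1 / c₀ := by
      rw [le_div_iff₀ hc]; linarith [mul_comm c₀ C1]
    have h7 : 0 ≤ Real.log n * h := mul_nonneg hlog hh.le
    have h8 : C1 * Real.log n * h + 6 / c₀ * (Real.log n * h) ≤ 165 / c₀ * Real.log n * h := by
      have e : 165 / c₀ * Real.log n * h - (C1 * Real.log n * h + 6 / c₀ * (Real.log n * h)) =
          (158 * (1 / c₀) + (1 / c₀ - C1)) * (Real.log n * h) := by ring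
      have e2 : 0 ≤ (158 * (1 / c₀) + (1 / c₀ - C1)) * (Real.log n * h) := by
        apply mul_nonneg _ h7
        have : 0 < 1 / c₀ := by positivity
        linarith
      linarith
    have h9 : 165 / c₀ * Real.log n * h ≤ LL c₀ n * h := mul_le_mul_of_nonneg_right hLL hh.le
    rw [h5] at h4
    linarith
  have hW : IsSAW (GW c₀ h lab) γ ℓ := by
    refine ⟨fun i hi => ⟨(hγ.1 i hi).ne, hlab i hi⟩, hγ.2⟩
  exact lower_struct (Gm h lab) (GA h lab) (GW c₀ h lab) (kh h) (lmN n h) (rN θ n h)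
    (rN θ n h / 2) (k0N θ) (2 * k0N θ + 4) (abN θ n) (ebN θ n) F.D rfl hr2 le_rfl rep hrep γ ℓ hW
    Q Q' hQ hQ' hQne hQ0.symm hQl.symm hE

variable {n : ℕ} (c₀ h : ℝ) (lab : Sym2 (Fin n) → ℝ)

theorem c_window_Ecyc (hc : 0 < c₀) (hc1 : c₀ ≤ 1) (hh : 0 < h) (lm : ℕ) (e : Sym2 (Fin n))
    (he : e ∈ Ecyc (Gm h lab) (GW c₀ h lab) lm) : cc c₀ h lab e ≤ 3 := by
  obtain ⟨a, b, rfl, h1, h2⟩ := A07_mem_Ecyc _ _ _ _ he
  exact A07_window c₀ h lab hc hc1 hh _ _ h1 h2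

theorem c_window_Ebig (hc : 0 < c₀) (hc1 : c₀ ≤ 1) (hh : 0 < h) (r : ℕ) (e : Sym2 (Fin n))
    (he : e ∈ Ebig (Gm h lab) (GW c₀ h lab) r) : cc c₀ h lab e ≤ 3 := by
  obtain ⟨a, b, rfl, h1, h2⟩ := A07_mem_Ebig _ _ _ _ he
  exact A07_window c₀ h lab hc hc1 hh _ _ h1 h2

theorem c_window_PPa (hc : 0 < c₀) (hc1 : c₀ ≤ 1) (hh : 0 < h) (r : ℕ)
    (p : Sym2 (Fin n) × Sym2 (Fin n)) (hp : p ∈ PPa (Gm h lab) (GW c₀ h lab) r) :
    cc c₀ h lab p.1 ≤ 3 ∧ cc c₀ h lab p.2 ≤ 3 := by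
  obtain ⟨a, a', b, b', rfl, h1, h2, h3, h4⟩ := A07_mem_PPa _ _ _ _ hp
  exact ⟨A07_window c₀ h lab hc hc1 hh _ _ h1 h2, A07_window c₀ h lab hc hc1 hh _ _ h3 h4⟩

theorem c_window_QQb (hc : 0 < c₀) (hc1 : c₀ ≤ 1) (hh : 0 < h) (km r : ℕ)
    (rep : Finset (Fin n) → Fin n) (p : Fin n × Sym2 (Fin n))
    (hp : p ∈ QQb (Gm h lab) (GW c₀ h lab) km r rep) : cc c₀ h lab p.2 ≤ 3 := by
  obtain ⟨b, b', h0, h1, h2⟩ := A07_mem_QQb _ _ _ _ _ _ hp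
  rw [h0]
  exact A07_window c₀ h lab hc hc1 hh _ _ h1 h2

theorem c_min (hc : 0 < c₀) (hh : 0 < h) (hn : 0 < n)
    (hr : ∀ e, 0 ≤ (1 + lab e) / n ∧ (1 + lab e) / n ≤ 1) (e : Sym2 (Fin n)) :
    Real.exp (-(c₀ / h) * (n - 1)) ≤ cc c₀ h lab e := by
  unfold cc
  apply Real.exp_le_exp.2
  have h1 := (hr e).2
  have hn' : (0 : ℝ) < n := by exact_mod_cast hn
  rw [div_le_one hn'] at h1
  have h2 : 0 < c₀ / h := div_pos hc hh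
  nlinarith

/-- Probability of the good trees. -/
theorem goodT_prob (δ θ : ℝ) (Cr : ℕ) (hc : 0 < c₀) (hh : 0 < h) (hn : 2 ≤ n)
    (F : WFacts δ θ c₀ Cr n h lab) : PT (cc c₀ h lab) (GoodT c₀ h lab)ᶜ ≤ 2 / n := by
  have hκ : 0 < c₀ / h := div_pos hc hh
  have : Nonempty (Fin n) := ⟨⟨0, by omega⟩⟩
  have hcp : ∀ e, 0 < cc c₀ h lab e := fun e => Real.exp_pos _
  have h1 := tree_labels lab (c₀ / h) hκ (by rw [Fintype.card_fin]; exact hn)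
  rw [Fintype.card_fin] at h1
  have h2 := F.t2
  have h3 : PT (cc c₀ h lab) (GoodT c₀ h lab)ᶜ ≤ PT (cc c₀ h lab)
      ({T | ¬ ∀ (x : ℝ) (γ : ℕ → Fin n) (ℓ : ℕ), IsSAW T.Adj γ ℓ →
        Rch (gr lab x) univ (γ 0) (γ ℓ) →
        ∀ i < ℓ, lab s(γ i, γ (i + 1)) ≤ x + 6 * Real.log n / (c₀ / h)} ∪
      {T | ∃ γ : ℕ → Fin n, IsSAW T.Adj γ (l1N n h) ∧
        (∀ i < l1N n h, gr lab (LL c₀ n * h) (γ i) (γ (i + 1))) ∧
        ∀ i ≤ l1N n h, ¬ AGood (Gm h lab) (GA h lab) (kh h) (γ i)}) := by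
    apply PT_mono hcp
    intro T _ hT
    by_contra h4
    apply hT
    rw [Set.mem_union, not_or, Set.mem_ofPred_eq, Set.mem_ofPred_eq] at h4
    obtain ⟨h5, h6⟩ := h4
    rw [not_not] at h5
    refine ⟨h5, fun γ hγ hγ2 => ?_⟩
    by_contra h7
    push Not at h7
    exact h6 ⟨γ, hγ, hγ2, h7⟩
  have h4 := PT_union_le hcp
      {T | ¬ ∀ (x : ℝ) (γ : ℕ → Fin n) (ℓ : ℕ), IsSAW T.Adj γ ℓ →
        Rch (gr lab x) univ (γ 0) (γ ℓ) →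
        ∀ i < ℓ, lab s(γ i, γ (i + 1)) ≤ x + 6 * Real.log n / (c₀ / h)}
      {T | ∃ γ : ℕ → Fin n, IsSAW T.Adj γ (l1N n h) ∧
        (∀ i < l1N n h, gr lab (LL c₀ n * h) (γ i) (γ (i + 1))) ∧
        ∀ i ≤ l1N n h, ¬ AGood (Gm h lab) (GA h lab) (kh h) (γ i)}
  have h5 : (2 : ℝ) / n = 1 / n + 1 / n := by ring
  rw [h5]
  exact h3.trans (h4.trans (add_le_add h1 h2))

end RST.A
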