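import Pool.Agent.Lib.MP_7946c7_pr.A.A03
import Pool.Agent.Lib.MP_7946c7_pr.A.A06
import Pool.Agent.Lib.MP_7946c7_pr.A.A07

/-!
# A08. Upper bound of regime 2 at fixed labels

PROOF. `N := h³ n ≥ n^{3δ}` (`hpar`), `s₁ := n^{ε/3} √N`, `N' := (SS h lab).card`,
`κ := exp (-(c₀/h)(n-1)) ≤ 1`, `t := κ/n²` (mass), choose `rep` (components are nonempty),
`R := reps`, `m := mm R t`, `M₀ := ⌈s₁/h⌉₊`, `mg := s₁ n^{-5θ}`, `M₁ := EhN + M₀`.
Numbers, for `n` large (`θ ≤ ε/200`, `c₀ C1 ≤ ε/200`):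
* `M₀/(2 l1N) ≥ (s₁/h)/(18 log n/h) - 1 ≥ s₁/(20 log n)` (natural division loses at most 1);
  `(ab+eb+1)(2k₀+4)(ab+eb+2) ≤ 12 (2k₀+4) n^{4θ}` and `240 (2k₀+4) log n ≤ n^θ`, so the hypothesis on
  `mg` in `u3_fixed` holds;
* `K := 50 (ab+1)² (2((log n)^Cr+1) + n^{c₀C1}) (N'/mg + 1) ≤ 200 n^{4θ} n^{ε/100} (n^{6θ} √N n^{-ε/3} + 1)`
  (`N' ≤ n^θ N`); with `mass_tiny` (t n ≤ κ) every `f` vanishing on the first `M₁+1` vertices has
  `∑ m f² ≤ (K+1) Dir`: (U3) with `lam := 1/(K+1)`;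
* time `τ := s₁`: `lam τ ≥ s₁ / (401 n^{10θ+ε/100} (√N n^{-ε/3} + 2)) ≥ n^{ε/5}` (two cases, `√N n^{-ε/3}`
  at least or at most 1; `10θ ≤ ε/20`);
* (U4) from `u4_fixed` with `a₁ := EhN + 2(r''+1) + lmN ≤ 30 log n/h`, `a₂ := lmN ≤ 4 log n/h`;
* (U5): `∑_{Ebig} c ≤ 3 n^{3θ} N` and `∑ m ≥ N' ≥ N/100`: `Bs := 300 n^{3θ}`;
* `L := 4/ε`, `ε₁ := 2/n` (`goodT_prob`), `ε₂ := 1/n` (`mm_compl`: `∑_{Rᶜ} m ≤ t n ≤ 1/n ≤ (1/n) ∑ m`).
`upper_abstract` gives probability `≤ 4/n + 2/n + n² exp(-n^{ε/5}) + ε/4 ≤ ε` for a path longer than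
`2 M₁ + 2 (a₁ + 2 a₂ (s₁+1) Bs L) ≤ n^{ε/2} n^{ε/3} √N/h ≤ n^ε √(h n)` (as `√N/h = √(h n)`).
-/

open Finset MeasureTheory

namespace RST.A

/-! ### numbers, `n` large -/

theorem A08_ev_rpow (C : ℝ) {a : ℝ} (ha : 0 < a) :
    ∀ᶠ n : ℕ in Filter.atTop, C ≤ (n : ℝ) ^ a :=
  ((tendsto_rpow_atTop ha).comp tendsto_natCast_atTop_atTop).eventually_ge_atTop C

theorem A08_ev_logpow (C : ℝ) (k : ℕ) {a : ℝ} (ha : 0 < a) :
    ∀ᶠ n : ℕ in Filter.atTop, C * Real.log n ^ k ≤ (n : ℝ) ^ a := by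
  have h1 := (isLittleO_log_rpow_rpow_atTop (k : ℝ) ha).comp_tendsto tendsto_natCast_atTop_atTop
  have h2 := h1.bound (show (0 : ℝ) < 1 / (|C| + 1) by positivity)
  filter_upwards [h2, Filter.eventually_ge_atTop 1] with n hn hn1
  simp only [Function.comp, Real.norm_eq_abs] at hn
  have hl : 0 ≤ Real.log n := Real.log_natCast_nonneg n
  rw [Real.rpow_natCast, abs_of_nonneg (pow_nonneg hl k),
    abs_of_nonneg (Real.rpow_nonneg (Nat.cast_nonneg n) a), one_div,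
    inv_mul_eq_div, le_div_iff₀ (by positivity)] at hn
  have h3 : C * Real.log n ^ k ≤ (|C| + 1) * Real.log n ^ k := by
    apply mul_le_mul_of_nonneg_right _ (pow_nonneg hl k)
    have := le_abs_self C
    linarith
  linarith

theorem A08_ev_exp {a C : ℝ} (ha : 0 < a) (hC : 0 < C) :
    ∀ᶠ n : ℕ in Filter.atTop, (n : ℝ) ^ 2 * Real.exp (-((n : ℝ) ^ a)) ≤ C := by
  have h1 : Filter.Tendsto (fun n : ℕ => (n : ℝ) ^ a) Filter.atTop Filter.atTop :=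
    (tendsto_rpow_atTop ha).comp tendsto_natCast_atTop_atTop
  have h2 := (tendsto_rpow_mul_exp_neg_mul_atTop_nhds_zero (2 / a) 1 one_pos).comp h1
  have h3 := h2.eventually_le_const hC
  filter_upwards [h3] with n hn
  simp only [Function.comp] at hn
  rw [← Real.rpow_mul (Nat.cast_nonneg n), mul_div_cancel₀ _ ha.ne'] at hn
  have e1 : (n : ℝ) ^ (2 : ℝ) = (n : ℝ) ^ 2 := by
    rw [← Real.rpow_natCast]; norm_num
  rw [e1, neg_one_mul] at hn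
  exact hn

/-- all the numerical conditions -/
theorem A08_numbers (θ ε : ℝ) (Cr k₀ : ℕ) (hε : 0 < ε) (hθ : 0 < θ) : ∃ n₀ : ℕ, ∀ n : ℕ, n₀ ≤ n →
    2 ≤ n ∧ 1 ≤ Real.log n ∧ 432 * (2 * (k₀ : ℝ) + 4) * Real.log n ≤ (n : ℝ) ^ θ ∧
    36 * Real.log n ≤ (n : ℝ) ^ (ε / 3) ∧
    2 * (Real.log n ^ Cr + 1) ≤ (n : ℝ) ^ (ε / 200) ∧ 801 ≤ ((n : ℝ) ^ (ε / 600)) ^ 47 ∧
    (n : ℝ) ^ 2 * Real.exp (-((n : ℝ) ^ (ε / 5))) ≤ ε / 16 ∧
    40000 / ε * Real.log n ≤ (n : ℝ) ^ (ε / 2) ∧ 6 / (n : ℝ) ≤ ε / 4 := by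
  have e1 := A08_ev_logpow (432 * (2 * (k₀ : ℝ) + 4)) 1 hθ
  have e2 := A08_ev_logpow 36 1 (show 0 < ε / 3 by positivity)
  have e3 := A08_ev_logpow 4 Cr (show 0 < ε / 200 by positivity)
  have e3' := A08_ev_rpow 4 (show 0 < ε / 200 by positivity)
  have e4 := A08_ev_rpow 801 (show 0 < ε / 600 by positivity)
  have e5 := A08_ev_exp (show 0 < ε / 5 by positivity) (show 0 < ε / 16 by positivity)
  have e6 := A08_ev_logpow (40000 / ε) 1 (show 0 < ε / 2 by positivity)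
  have e7 := Filter.eventually_ge_atTop (max 3 ⌈24 / ε⌉₊)
  obtain ⟨n₀, h⟩ := Filter.eventually_atTop.1
    (e1.and (e2.and (e3.and (e3'.and (e4.and (e5.and (e6.and e7)))))))
  refine ⟨n₀, fun n hn => ?_⟩
  obtain ⟨h1, h2, h3, h3', h4, h5, h6, h7⟩ := h n hn
  rw [pow_one] at h1 h2 h6
  have h3n : 3 ≤ n := le_trans (le_max_left _ _) h7
  have hn0 : (0 : ℝ) < n := by exact_mod_cast (show 0 < n by omega)
  refine ⟨by omega, ?_, h1, h2, by linarith, ?_, h5, h6, ?_⟩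
  · rw [Real.le_log_iff_exp_le hn0]
    have h8 := Real.exp_one_lt_d9
    have h9 : (3 : ℝ) ≤ n := by exact_mod_cast h3n
    linarith
  · refine h4.trans (le_self_pow₀ (by linarith) (by norm_num))
  · have h8 : 24 / ε ≤ n := (Nat.le_ceil _).trans (by exact_mod_cast le_trans (le_max_right _ _) h7)
    rw [div_le_iff₀ hε] at h8
    rw [div_le_iff₀ hn0]
    linarith

theorem A08_PT_mono {V : Type} [Fintype V] (c : Sym2 V → ℝ) (hc : ∀ e, 0 < c e)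
    (S S' : Set (SimpleGraph V)) (h : S ⊆ S') : PT c S ≤ PT c S' := by
  classical
  have hw : ∀ T : SimpleGraph V, 0 ≤ wtT c T := by
    intro T
    unfold wtT
    apply Finset.prod_nonneg
    intro e _
    split_ifs
    · exact (hc e).le
    · exact zero_le_one
  unfold PT
  apply div_le_div_of_nonneg_right
  · unfold sumT
    apply Finset.sum_le_sum
    intro T _
    by_cases h1 : T.IsTree ∧ T ∈ S
    · rw [if_pos h1, if_pos ⟨h1.1, h h1.2⟩]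
    · rw [if_neg h1]
      split_ifs
      · exact hw T
      · exact le_rfl
  · unfold sumT
    apply Finset.sum_nonneg
    intro T _
    split_ifs
    · exact hw T
    · exact le_rfl

/-- the bound for `K + 1` -/
theorem A08_K {p q S N' ab R mg s₁ : ℝ} (hp : 1 ≤ p) (hq : 1 ≤ q) (hpq : p ≤ q ^ 3) (hS : 1 ≤ S)
    (hs : s₁ = q ^ 200 * S) (hmg : mg = s₁ / p ^ 5) (hab0 : 0 ≤ ab) (hab : ab ≤ p ^ 2)
    (hR0 : 0 ≤ R) (hR : R ≤ 2 * q ^ 3) (hN0 : 0 ≤ N') (hN : N' ≤ p * S ^ 2)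
    (h47 : 801 ≤ q ^ 47) :
    0 < 50 * (ab + 1) ^ 2 * R * (N' / mg + 1) + 1 ∧
    q ^ 120 ≤ 1 / (50 * (ab + 1) ^ 2 * R * (N' / mg + 1) + 1) * s₁ := by
  have hp0 : 0 < p := by linarith
  have hq0 : 0 < q := by linarith
  have hS0 : 0 < S := by linarith
  have hs0 : 0 < s₁ := by rw [hs]; positivity
  have hmg0 : 0 < mg := by rw [hmg]; positivity
  have h1 : N' / mg ≤ p ^ 6 * S := by
    rw [div_le_iff₀ hmg0]
    calc N' ≤ p * S ^ 2 := hN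
      _ = p ^ 6 * S * (1 * S / p ^ 5) := by field_simp
      _ ≤ p ^ 6 * S * (q ^ 200 * S / p ^ 5) := by
          apply mul_le_mul_of_nonneg_left _ (by positivity)
          apply div_le_div_of_nonneg_right _ (by positivity)
          exact mul_le_mul_of_nonneg_right (one_le_pow₀ hq) hS0.le
      _ = p ^ 6 * S * mg := by rw [hmg, hs]
  have hpS : 1 ≤ p ^ 6 * S := by
    have := one_le_pow₀ (n := 6) hp
    nlinarith
  have h2 : N' / mg + 1 ≤ 2 * (p ^ 6 * S) := by linarith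
  have h20 : 0 ≤ N' / mg + 1 := by positivity
  have h3 : (ab + 1) ^ 2 ≤ (2 * p ^ 2) ^ 2 := by
    apply pow_le_pow_left₀ (by linarith)
    have := one_le_pow₀ (n := 2) hp
    linarith
  have h4 : 50 * (ab + 1) ^ 2 * R * (N' / mg + 1) ≤ 800 * q ^ 33 * S := by
    calc 50 * (ab + 1) ^ 2 * R * (N' / mg + 1)
        ≤ 50 * (2 * p ^ 2) ^ 2 * (2 * q ^ 3) * (2 * (p ^ 6 * S)) := by
          apply mul_le_mul _ h2 h20 (by positivity)
          apply mul_le_mul _ hR hR0 (by positivity)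
          linarith
      _ = 800 * p ^ 10 * q ^ 3 * S := by ring
      _ ≤ 800 * (q ^ 3) ^ 10 * q ^ 3 * S := by
          apply mul_le_mul_of_nonneg_right _ hS0.le
          apply mul_le_mul_of_nonneg_right _ (by positivity)
          apply mul_le_mul_of_nonneg_left _ (by norm_num)
          exact pow_le_pow_left₀ hp0.le hpq 10
      _ = 800 * q ^ 33 * S := by ring
  have h5 : 1 ≤ q ^ 33 * S := by
    have := one_le_pow₀ (n := 33) hq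
    nlinarith
  have h6 : 50 * (ab + 1) ^ 2 * R * (N' / mg + 1) + 1 ≤ 801 * q ^ 33 * S := by linarith
  have h7 : 0 < 50 * (ab + 1) ^ 2 * R * (N' / mg + 1) + 1 := by positivity
  refine ⟨h7, ?_⟩
  rw [one_div, inv_mul_eq_div, le_div_iff₀ h7]
  calc q ^ 120 * (50 * (ab + 1) ^ 2 * R * (N' / mg + 1) + 1) ≤ q ^ 120 * (801 * q ^ 33 * S) :=
        mul_le_mul_of_nonneg_left h6 (by positivity)
    _ = 801 * (q ^ 153 * S) := by ring
    _ ≤ q ^ 47 * (q ^ 153 * S) := mul_le_mul_of_nonneg_right h47 (by positivity)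
    _ = s₁ := by rw [hs]; ring

/-- the hypothesis on `mg` of `u3_fixed` -/
theorem A08_mg {p s₁ h ln k ab eb mg : ℝ} {M₀ d : ℕ} (hp : 1 ≤ p) (hh : 0 < h) (hln : 1 ≤ ln)
    (hk : 0 ≤ k) (hab0 : 0 ≤ ab) (hab : ab ≤ p ^ 2) (heb0 : 0 ≤ eb) (heb : eb ≤ p)
    (hmg : mg = s₁ / p ^ 5) (hs1 : 36 * ln ≤ s₁) (hM : s₁ / h ≤ M₀) (hd : (d : ℝ) ≤ 9 * ln / h)
    (hd0 : 0 < d) (hkl : 432 * (2 * k + 4) * ln ≤ p) :
    mg * (ab + eb + 1) * ((2 * k + 4) * (ab + eb + 2)) ≤ ((M₀ / (2 * d) : ℕ) : ℝ) := by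
  have hp0 : 0 < p := by linarith
  have hs0 : 0 < s₁ := by linarith
  have hln0 : 0 < ln := by linarith
  have hmg0 : 0 < mg := by rw [hmg]; positivity
  have hpp : p ≤ p ^ 2 := le_self_pow₀ hp (by norm_num)
  have h1 : ab + eb + 1 ≤ 3 * p ^ 2 := by linarith
  have h2 : ab + eb + 2 ≤ 4 * p ^ 2 := by linarith
  have h3 : mg * (ab + eb + 1) * ((2 * k + 4) * (ab + eb + 2)) ≤ 12 * (2 * k + 4) * (s₁ / p) := by
    calc mg * (ab + eb + 1) * ((2 * k + 4) * (ab + eb + 2))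
        ≤ mg * (3 * p ^ 2) * ((2 * k + 4) * (4 * p ^ 2)) := by
          apply mul_le_mul
          · exact mul_le_mul_of_nonneg_left h1 hmg0.le
          · exact mul_le_mul_of_nonneg_left h2 (by linarith)
          · positivity
          · positivity
      _ = 12 * (2 * k + 4) * (s₁ / p) := by
          rw [hmg]
          field_simp
          ring
  have h4 : 12 * (2 * k + 4) * (s₁ / p) ≤ s₁ / (36 * ln) := by
    rw [← mul_div_assoc, div_le_div_iff₀ hp0 (by positivity)]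
    have := mul_le_mul_of_nonneg_left hkl hs0.le
    nlinarith
  have hd1 : (0 : ℝ) < d := by exact_mod_cast hd0
  have h5 : (M₀ : ℝ) / (2 * d) ≤ ((M₀ / (2 * d) : ℕ) : ℝ) + 1 := by
    have h6 := Nat.lt_mul_div_succ M₀ (show 0 < 2 * d by omega)
    have h7 : (M₀ : ℝ) ≤ (2 * d) * (((M₀ / (2 * d) : ℕ) : ℝ) + 1) := by exact_mod_cast h6.le
    rw [div_le_iff₀ (by positivity)]
    linarith
  have h8 : s₁ / (18 * ln) ≤ (M₀ : ℝ) / (2 * d) := by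
    rw [div_le_div_iff₀ (by positivity) (by positivity)]
    have e1 : s₁ ≤ M₀ * h := by rwa [div_le_iff₀ hh] at hM
    have e2 : (d : ℝ) * h ≤ 9 * ln := by rwa [le_div_iff₀ hh] at hd
    have e3 : s₁ * d ≤ M₀ * h * d := mul_le_mul_of_nonneg_right e1 hd1.le
    have e4 : (M₀ : ℝ) * (d * h) ≤ M₀ * (9 * ln) := mul_le_mul_of_nonneg_left e2 (Nat.cast_nonneg _)
    nlinarith
  have h9 : s₁ / (18 * ln) = s₁ / (36 * ln) + s₁ / (36 * ln) := by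
    field_simp
    ring
  have h10 : 1 ≤ s₁ / (36 * ln) := by
    rw [le_div_iff₀ (by positivity)]
    linarith
  linarith

/-- the final comparison of lengths -/
theorem A08_len {p q ln S h ε s₁ Eh r lm M₀ : ℝ} (hp : 1 ≤ p) (hq : 1 ≤ q)
    (hpq : p ≤ q ^ 3) (hln : 1 ≤ ln) (hS : 1 ≤ S) (hh : 0 < h) (hh1 : h ≤ 1 / 100) (hε : 0 < ε)
    (hε1 : ε ≤ 1) (hs : s₁ = q ^ 200 * S) (hEh : Eh ≤ 17 / h) (hr : r ≤ 1 / h)
    (hlm0 : 0 ≤ lm) (hlm : lm ≤ 4 * ln / h) (hM : M₀ ≤ s₁ / h + 1)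
    (hl : 40000 / ε * ln ≤ q ^ 300) :
    2 * (Eh + M₀) + 2 * ((Eh + 2 * (r + 1) + lm) + 2 * lm * (s₁ + 1) * (300 * p ^ 3) * (4 / ε)) ≤
      q ^ 600 * (S / h) := by
  have hp0 : 0 < p := by linarith
  have hq0 : 0 < q := by linarith
  have hln0 : 0 < ln := by linarith
  have hS0 : 0 < S := by linarith
  have hs1 : 1 ≤ s₁ := by
    rw [hs]
    have := one_le_pow₀ (n := 200) hq
    nlinarith
  have hinv : 1 ≤ 1 / h := by
    rw [le_div_iff₀ hh]; linarith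
  have hp3 : 1 ≤ p ^ 3 := one_le_pow₀ hp
  have hε4 : 1 ≤ 1 / ε := by
    rw [le_div_iff₀ hε]; linarith
  -- everything is at most a multiple of `Z := (1/ε) ln p³ s₁ / h`
  have a1 : lm * (s₁ + 1) * (300 * p ^ 3) * (4 / ε) ≤
      (4 * ln / h) * (2 * s₁) * (300 * p ^ 3) * (4 / ε) := by
    apply mul_le_mul_of_nonneg_right _ (by positivity)
    apply mul_le_mul_of_nonneg_right _ (by positivity)
    apply mul_le_mul hlm (by linarith) (by linarith) (by positivity)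
  have z1 : 1 ≤ 1 / ε * ln * p ^ 3 := by
    have : 1 ≤ 1 / ε * ln := by nlinarith
    nlinarith
  have z2 : s₁ ≤ 1 / ε * ln * p ^ 3 * s₁ := by nlinarith
  have z3 : ln ≤ 1 / ε * ln * p ^ 3 * s₁ := by
    have b1 : ln ≤ 1 / ε * ln := by nlinarith
    have b2 : 1 / ε * ln ≤ 1 / ε * ln * p ^ 3 := le_mul_of_one_le_right (by positivity) hp3
    have b3 : 1 / ε * ln * p ^ 3 ≤ 1 / ε * ln * p ^ 3 * s₁ :=
      le_mul_of_one_le_right (by positivity) hs1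
    linarith
  have hinv0 : 0 < 1 / h := by positivity
  have w1 : 17 / h ≤ 17 * (1 / ε * ln * p ^ 3 * s₁) * (1 / h) := by
    have : (17 : ℝ) ≤ 17 * (1 / ε * ln * p ^ 3 * s₁) := by linarith
    have := mul_le_mul_of_nonneg_right this hinv0.le
    calc 17 / h = 17 * (1 / h) := by ring
      _ ≤ _ := this
  have w2 : s₁ / h ≤ (1 / ε * ln * p ^ 3 * s₁) * (1 / h) := by
    have := mul_le_mul_of_nonneg_right z2 hinv0.le
    calc s₁ / h = s₁ * (1 / h) := by ring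
      _ ≤ _ := this
  have w3 : 1 / h ≤ (1 / ε * ln * p ^ 3 * s₁) * (1 / h) := by
    have h1 : (1 : ℝ) ≤ 1 / ε * ln * p ^ 3 * s₁ := by linarith
    have := mul_le_mul_of_nonneg_right h1 hinv0.le
    linarith
  have w4 : 4 * ln / h ≤ 4 * (1 / ε * ln * p ^ 3 * s₁) * (1 / h) := by
    have := mul_le_mul_of_nonneg_right z3 hinv0.le
    calc 4 * ln / h = 4 * (ln * (1 / h)) := by ring
      _ ≤ 4 * ((1 / ε * ln * p ^ 3 * s₁) * (1 / h)) := by linarith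
      _ = _ := by ring
  have w5 : (4 * ln / h) * (2 * s₁) * (300 * p ^ 3) * (4 / ε) =
      9600 * ((1 / ε * ln * p ^ 3 * s₁) * (1 / h)) := by
    field_simp
    ring
  obtain ⟨Z, hZ⟩ : ∃ Z : ℝ, Z = (1 / ε * ln * p ^ 3 * s₁) * (1 / h) := ⟨_, rfl⟩
  have w1' : 17 / h ≤ 17 * Z := by rw [hZ]; linarith
  have w4' : 4 * ln / h ≤ 4 * Z := by rw [hZ]; linarith
  rw [← hZ] at w2 w3 w5
  have hZ0 : 0 < Z := by rw [hZ]; positivity
  have hsum : 2 * (Eh + M₀) + 2 * ((Eh + 2 * (r + 1) + lm) +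
      2 * lm * (s₁ + 1) * (300 * p ^ 3) * (4 / ε)) ≤ 40000 * Z := by
    have e1 : 2 * lm * (s₁ + 1) * (300 * p ^ 3) * (4 / ε) =
        2 * (lm * (s₁ + 1) * (300 * p ^ 3) * (4 / ε)) := by ring
    rw [e1]
    linarith
  refine hsum.trans ?_
  rw [hZ, hs]
  calc 40000 * (1 / ε * ln * p ^ 3 * (q ^ 200 * S) * (1 / h))
      = (40000 / ε * ln) * (p ^ 3 * q ^ 200) * (S / h) := by ring
    _ ≤ q ^ 300 * ((q ^ 3) ^ 3 * q ^ 200) * (S / h) := by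
        apply mul_le_mul_of_nonneg_right _ (by positivity)
        apply mul_le_mul hl _ (by positivity) (by positivity)
        apply mul_le_mul_of_nonneg_right _ (by positivity)
        exact pow_le_pow_left₀ hp0.le hpq 3
    _ = q ^ 509 * (S / h) := by ring
    _ ≤ q ^ 600 * (S / h) := by
        apply mul_le_mul_of_nonneg_right _ (by positivity)
        exact pow_le_pow_right₀ hq (by norm_num)

theorem upper_fixed (δ θ c₀ ε : ℝ) (Cr : ℕ) (hδ : 0 < δ) (hδ1 : δ ≤ 1 / 10) (hε : 0 < ε)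
    (hε1 : ε ≤ 1) (hθ : 0 < θ) (hθ1 : θ ≤ δ / 10) (hθ2 : θ ≤ ε / 200) (hc : 0 < c₀)
    (hc1 : c₀ * C1 ≤ ε / 200) : ∃ n₀ : ℕ, ∀ n : ℕ, n₀ ≤ n →
    ∀ h : ℝ, R2Par δ n h → ∀ lab : Sym2 (Fin n) → ℝ, WFacts δ θ c₀ Cr n h lab →
    PT (cc c₀ h lab) {T | ∃ (γ : ℕ → Fin n) (ℓ : ℕ), IsSAW T.Adj γ ℓ ∧
      (n : ℝ) ^ ε * Real.sqrt (h * n) < ℓ} ≤ ε := by
  have hC1 : (1 : ℝ) ≤ C1 := by unfold C1; norm_num
  have hcc1 : c₀ * C1 ≤ 1 := by linarith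
  have hc01 : c₀ ≤ 1 := by nlinarith
  obtain ⟨n1, H1⟩ := u3_fixed δ θ c₀ Cr hδ hδ1 hθ hθ1 hc hcc1
  obtain ⟨n2, H2⟩ := u4_fixed δ θ c₀ Cr hδ hδ1 hθ hθ1 hc hcc1
  obtain ⟨n3, H3⟩ := EhN_le δ c₀ hδ hδ1 hc hc01
  obtain ⟨n4, H4⟩ := hpar δ c₀ hδ hδ1 hc hc01
  obtain ⟨n5, H5⟩ := sizes δ θ hδ hδ1 hθ hθ1
  obtain ⟨n6, H6⟩ := A08_numbers θ ε Cr (k0N θ) hε hθ
  refine ⟨max (max (max n1 n2) (max n3 n4)) (max n5 n6), ?_⟩
  intro n hn h hR2 lab F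
  have hn1 : n1 ≤ n := le_trans (le_trans (le_max_left _ _) (le_max_left _ _))
    (le_trans (le_max_left _ _) hn)
  have hn2 : n2 ≤ n := le_trans (le_trans (le_max_right _ _) (le_max_left _ _))
    (le_trans (le_max_left _ _) hn)
  have hn3 : n3 ≤ n := le_trans (le_trans (le_max_left _ _) (le_max_right _ _))
    (le_trans (le_max_left _ _) hn)
  have hn4 : n4 ≤ n := le_trans (le_trans (le_max_right _ _) (le_max_right _ _))
    (le_trans (le_max_left _ _) hn)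
  have hn5 : n5 ≤ n := le_trans (le_max_left _ _) (le_trans (le_max_right _ _) hn)
  have hn6 : n6 ≤ n := le_trans (le_max_right _ _) (le_trans (le_max_right _ _) hn)
  obtain ⟨m1, m2, m3, m4, m5, m6, m7, m8, m9⟩ := H6 n hn6
  obtain ⟨-, hh, hh1, -, -, -, hN3⟩ := H4 n hn4 h hR2
  have hEh := H3 n hn3 h hR2
  obtain ⟨z1, z2, z3, z4, z5, z6, z7, z8⟩ := H5 n hn5 h hR2
  -- the numbers
  have hn0 : (0 : ℝ) < n := by exact_mod_cast (show 0 < n by omega)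
  have hn1' : (1 : ℝ) ≤ n := by exact_mod_cast (show 1 ≤ n by omega)
  have hpw : ∀ (a : ℝ) (k : ℕ), ((n : ℝ) ^ a) ^ k = (n : ℝ) ^ (a * k) := by
    intro a k
    rw [← Real.rpow_natCast, ← Real.rpow_mul (Nat.cast_nonneg n)]
  obtain ⟨p, hp⟩ : ∃ p : ℝ, p = (n : ℝ) ^ θ := ⟨_, rfl⟩
  obtain ⟨q, hq⟩ : ∃ q : ℝ, q = (n : ℝ) ^ (ε / 600) := ⟨_, rfl⟩
  have hp1 : 1 ≤ p := by rw [hp]; exact Real.one_le_rpow hn1' hθ.le
  have hq1 : 1 ≤ q := by rw [hq]; exact Real.one_le_rpow hn1' (by positivity)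
  have hpq : p ≤ q ^ 3 := by
    rw [hp, hq, hpw]
    apply Real.rpow_le_rpow_of_exponent_le hn1'
    push_cast
    linarith
  have q3 : (n : ℝ) ^ (ε / 200) = q ^ 3 := by rw [hq, hpw]; congr 1; push_cast; ring
  have q200 : (n : ℝ) ^ (ε / 3) = q ^ 200 := by rw [hq, hpw]; congr 1; push_cast; ring
  have q120 : (n : ℝ) ^ (ε / 5) = q ^ 120 := by rw [hq, hpw]; congr 1; push_cast; ring
  have q300 : (n : ℝ) ^ (ε / 2) = q ^ 300 := by rw [hq, hpw]; congr 1; push_cast; ring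
  have q600 : (n : ℝ) ^ ε = q ^ 600 := by rw [hq, hpw]; congr 1; push_cast; ring
  have p3 : (n : ℝ) ^ (3 * θ) = p ^ 3 := by rw [hp, hpw]; congr 1; push_cast; ring
  have p2 : (n : ℝ) ^ (2 * θ) = p ^ 2 := by rw [hp, hpw]; congr 1; push_cast; ring
  rw [← hp] at m3
  rw [q200] at m4
  rw [q3] at m5
  rw [← hq] at m6
  rw [q120] at m7
  rw [q300] at m8
  -- `N = S²`
  have hN1 : 1 ≤ h ^ 3 * n := le_trans (Real.one_le_rpow hn1' (by positivity)) hN3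
  obtain ⟨S, hS⟩ : ∃ S : ℝ, S = Real.sqrt (h ^ 3 * n) := ⟨_, rfl⟩
  have hS2 : S ^ 2 = h ^ 3 * n := by rw [hS]; exact Real.sq_sqrt (by linarith)
  have hS1 : 1 ≤ S := by rw [hS]; exact Real.one_le_sqrt.2 hN1
  have hSh : Real.sqrt (h * n) = S / h := by
    have e1 : h ^ 3 * n = h ^ 2 * (h * n) := by ring
    rw [hS, e1, Real.sqrt_mul (sq_nonneg h) (h * n), Real.sqrt_sq hh.le]
    field_simp
  obtain ⟨s₁, hs₁⟩ : ∃ s : ℝ, s = q ^ 200 * S := ⟨_, rfl⟩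
  have hs0 : 0 < s₁ := by rw [hs₁]; positivity
  have hs36 : 36 * Real.log n ≤ s₁ := by
    rw [hs₁]
    have : q ^ 200 * 1 ≤ q ^ 200 * S := mul_le_mul_of_nonneg_left hS1 (by positivity)
    linarith
  obtain ⟨M₀, hM₀⟩ : ∃ M : ℕ, M = ⌈s₁ / h⌉₊ := ⟨_, rfl⟩
  have hM1 : s₁ / h ≤ M₀ := by rw [hM₀]; exact Nat.le_ceil _
  have hM2 : (M₀ : ℝ) ≤ s₁ / h + 1 := by
    rw [hM₀]; exact (Nat.ceil_lt_add_one (by positivity)).le
  obtain ⟨mg, hmg⟩ : ∃ x : ℝ, x = s₁ / p ^ 5 := ⟨_, rfl⟩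
  have hmg0 : 0 < mg := by rw [hmg]; positivity
  have hab : (abN θ n : ℝ) ≤ p ^ 2 := by
    rw [← p2]; exact Nat.floor_le (by positivity)
  have heb : (ebN θ n : ℝ) ≤ p := by
    rw [hp]; exact Nat.floor_le (by positivity)
  have hl0 : 0 < l1N n h := by omega
  have hmgk := A08_mg (M₀ := M₀) (d := l1N n h) (k := (k0N θ : ℝ)) (ab := (abN θ n : ℝ))
    (eb := (ebN θ n : ℝ)) hp1 hh m2 (Nat.cast_nonneg _) (Nat.cast_nonneg _) hab
    (Nat.cast_nonneg _) heb hmg hs36 hM1 z5 hl0 m3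
  -- representatives
  have hrepex : ∃ rep : Finset (Fin n) → Fin n, ∀ Q ∈ SS h lab, rep Q ∈ Q := by
    classical
    refine ⟨fun Q => if hQ : Q.Nonempty then hQ.choose else ⟨0, by omega⟩, ?_⟩
    intro Q hQ
    have hne : Q.Nonempty := by
      rw [← Finset.card_pos]
      have h1 : kh h ≤ Q.card := (Finset.mem_filter.1 hQ).2
      have h2 : 0 < kh h := Nat.ceil_pos.2 (by positivity)
      omega
    simp only [dif_pos hne]
    exact hne.choose_spec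
  obtain ⟨rep, hrep⟩ := hrepex
  obtain ⟨R, hR⟩ : ∃ R : Finset (Fin n), R = reps h lab rep := ⟨_, rfl⟩
  obtain ⟨N', hN'⟩ : ∃ x : ℕ, x = (SS h lab).card := ⟨_, rfl⟩
  have hRc : R.card = N' := by rw [hR, hN']; exact card_reps h lab rep hrep
  have hNlo := F.nlo
  have hNhi := F.nhi
  rw [← hN', ← hS2] at hNlo hNhi
  rw [← hp] at hNhi
  -- the masses
  obtain ⟨κ, hκ⟩ : ∃ x : ℝ, x = Real.exp (-(c₀ / h) * (n - 1)) := ⟨_, rfl⟩
  have hκ0 : 0 < κ := by rw [hκ]; exact Real.exp_pos _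
  have hκ1 : κ ≤ 1 := by
    rw [hκ, Real.exp_le_one_iff]
    have : 0 ≤ (c₀ / h) * (n - 1) := mul_nonneg (by positivity) (by linarith)
    linarith
  have hκc : ∀ e, κ ≤ cc c₀ h lab e := by
    intro e
    rw [hκ]
    exact c_min c₀ h lab hc hh (by omega) F.rng e
  obtain ⟨t₀, ht₀⟩ : ∃ x : ℝ, x = κ / (n : ℝ) ^ 2 := ⟨_, rfl⟩
  have ht00 : 0 < t₀ := by rw [ht₀]; positivity
  have htn : t₀ * n = κ / n := by rw [ht₀]; field_simp
  have htn1 : t₀ * (Fintype.card (Fin n) : ℝ) ≤ κ := by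
    rw [Fintype.card_fin, htn, div_le_iff₀ hn0]
    nlinarith
  have hc0 : ∀ e, 0 < cc c₀ h lab e := fun e => Real.exp_pos _
  have hsumge : (N' : ℝ) ≤ ∑ x, mm R t₀ x := by
    rw [← hRc]; exact mm_sum_ge R t₀ ht00.le
  have hN'1 : (1 : ℝ) ≤ N' := by
    have h1 : (0 : ℝ) < N' := lt_of_lt_of_le (by positivity) hNlo
    have h2 : 0 < N' := by exact_mod_cast h1
    exact_mod_cast h2
  -- the eigenvalue
  obtain ⟨RR, hRR⟩ : ∃ x : ℝ, x = 2 * (Real.log n ^ Cr + 1) + (n : ℝ) ^ (c₀ * C1) := ⟨_, rfl⟩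
  have hRR0 : 0 ≤ RR := by
    rw [hRR]
    have : 0 ≤ Real.log n ^ Cr := by positivity
    positivity
  have hRR1 : RR ≤ 2 * q ^ 3 := by
    have h1 : (n : ℝ) ^ (c₀ * C1) ≤ q ^ 3 := by
      rw [← q3]
      exact Real.rpow_le_rpow_of_exponent_le hn1' hc1
    rw [hRR]
    linarith
  obtain ⟨K, hK⟩ : ∃ x : ℝ, x = 50 * ((abN θ n : ℝ) + 1) ^ 2 * RR * ((N' : ℝ) / mg + 1) :=
    ⟨_, rfl⟩
  have hKK := A08_K (N' := (N' : ℝ)) (ab := (abN θ n : ℝ)) hp1 hq1 hpq hS1 hs₁ hmg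
    (Nat.cast_nonneg _) hab hRR0 hRR1 (Nat.cast_nonneg _) hNhi m6
  rw [← hK] at hKK
  obtain ⟨hK0, hKs⟩ := hKK
  have hEb := z4
  -- application
  have hU3 : ∀ T ∈ GoodT c₀ h lab, T.IsTree → ∀ (γ : ℕ → Fin n) (ℓ : ℕ),
      EhN c₀ n h + M₀ ≤ ℓ → IsSAW T.Adj γ ℓ → γ ℓ ∈ R →
      ∀ f : Fin n → ℝ, (∀ i ≤ EhN c₀ n h + M₀, f (γ i) = 0) →
      1 / (K + 1) * ∑ x, mm R t₀ x * f x ^ 2 ≤ Dir (cc c₀ h lab) f := by
    intro T hT hTt γ ℓ hℓ hγ hγR f hf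
    have h1 := H1 n hn1 h hR2 lab F rep hrep M₀ mg hmg0 hmgk T hT hTt γ ℓ hℓ hγ
      (hR ▸ hγR) f hf
    rw [← hN', ← hRR, ← hK] at h1
    have h2 := mass_tiny (cc c₀ h lab) κ t₀ hκ0 hκc ht00.le htn1 R f (γ 0) (hf 0 (Nat.zero_le _))
    have h3 := sum_reps h lab rep hrep (fun x => f x ^ 2)
    rw [← hR] at h3
    rw [h3] at h2
    rw [one_div, inv_mul_eq_div, div_le_iff₀ hK0]
    linarith
  have hG := goodT_prob c₀ h lab δ θ Cr hc hh m1 F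
  have hRm : ∑ x ∈ Rᶜ, mm R t₀ x ≤ 1 / n * ∑ x, mm R t₀ x := by
    have h1 := mm_compl R t₀ ht00.le
    rw [Fintype.card_fin, htn] at h1
    have h2 : κ / n ≤ 1 / n := div_le_div_of_nonneg_right hκ1 hn0.le
    have h3 : 1 / (n : ℝ) * 1 ≤ 1 / n * ∑ x, mm R t₀ x :=
      mul_le_mul_of_nonneg_left (by linarith) (by positivity)
    linarith
  have hU5 : ∑ e ∈ Ebig (Gm h lab) (GW c₀ h lab) (rN θ n h / 2), cc c₀ h lab e ≤
      300 * p ^ 3 * ∑ x, mm R t₀ x := by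
    have h1 : ∑ e ∈ Ebig (Gm h lab) (GW c₀ h lab) (rN θ n h / 2), cc c₀ h lab e ≤
        (Ebig (Gm h lab) (GW c₀ h lab) (rN θ n h / 2)).card • (3 : ℝ) :=
      Finset.sum_le_card_nsmul _ _ _ fun e he => c_window_Ebig c₀ h lab hc hc01 hh _ e he
    rw [nsmul_eq_mul] at h1
    have h2 := F.nbig
    rw [← hS2, p3] at h2
    have h3 : S ^ 2 ≤ 100 * ∑ x, mm R t₀ x := by linarith
    have h4 : 3 * (p ^ 3 * S ^ 2) ≤ 3 * (p ^ 3 * (100 * ∑ x, mm R t₀ x)) := by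
      apply mul_le_mul_of_nonneg_left _ (by norm_num)
      exact mul_le_mul_of_nonneg_left h3 (by positivity)
    linarith
  have hL1 : 1 ≤ 4 / ε := by
    rw [le_div_iff₀ hε]; linarith
  have hU4 := H2 n hn2 h hR2 lab F rep hrep
  rw [← hR] at hU4
  haveI hne : Nonempty (Fin n) := ⟨⟨0, by omega⟩⟩
  have hU := upper_abstract (cc c₀ h lab) hc0 (mm R t₀) (mm_pos R t₀ ht00) R (GoodT c₀ h lab)
    (2 / n) (1 / n) (1 / (K + 1)) (EhN c₀ n h + 2 * ((rN θ n h / 2 : ℕ) + 1) + lmN n h)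
    (lmN n h) (300 * p ^ 3) s₁ (4 / ε) hG hRm (by positivity) (EhN c₀ n h + M₀) hU3
    (Ebig (Gm h lab) (GW c₀ h lab) (rN θ n h / 2)) (by positivity) (by positivity)
    hU4 hU5 hs0 hL1
  have hlen := A08_len (p := p) (ln := Real.log n) (Eh := (EhN c₀ n h : ℝ))
    (r := ((rN θ n h / 2 : ℕ) : ℝ)) (lm := (lmN n h : ℝ)) (M₀ := (M₀ : ℝ)) hp1 hq1 hpq m2 hS1 hh
    hh1 hε hε1 hs₁ hEh (by
      have h1 : ((rN θ n h / 2 : ℕ) : ℝ) ≤ (rN θ n h : ℝ) := by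
        exact_mod_cast Nat.div_le_self _ _
      linarith) (Nat.cast_nonneg _) z4 hM2 m8
  rw [← hSh, ← q600] at hlen
  refine (A08_PT_mono _ hc0 _ _ ?_).trans (hU.trans ?_)
  · rintro T ⟨γ, ℓ, hγ, hℓ⟩
    refine ⟨γ, ℓ, hγ, lt_of_le_of_lt ?_ hℓ⟩
    refine le_trans (le_of_eq ?_) hlen
    push_cast
    ring
  · rw [Fintype.card_fin]
    have h1 : Real.exp (-(1 / (K + 1)) * s₁) ≤ Real.exp (-(q ^ 120)) := by
      apply Real.exp_le_exp.2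
      linarith
    have h2 : (n : ℝ) ^ 2 * Real.exp (-(1 / (K + 1)) * s₁) ≤ ε / 16 :=
      (mul_le_mul_of_nonneg_left h1 (by positivity)).trans m7
    have h3 : 2 * (2 / (n : ℝ)) + 2 * (1 / n) = 6 / n := by
      field_simp
      norm_num
    have h4 : 1 / (4 / ε) = ε / 4 := by
      field_simp
    rw [h3, h4]
    linarith

end RST.A
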