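import Pool.Agent.Lib.MP_7946c7_pr.A.A01
import Pool.Agent.Lib.MP_7946c7_pr.A.A03
import Pool.Agent.Lib.MP_7946c7_pr.A.A07

/-!
# A09. Lower bound of regime 2 at fixed labels (`ε ≤ δ`)

PROOF. Notation as in A08: `N := h³ n ≥ n^{3δ} ≥ n^{3ε}`, `N'`, `κ`, `t := κ/n²`, `rep`, `R`, `m`.
* Gap: `poincareS` (IfI) with `cfacts`, `sum_reps`, `card_reps`, then `mass_gap` with
  `K := 8 ab (ab+1) (2((log n)^Cr+1) + n^{c₀C1}) ≤ n^{4θ+ε/100+ε/200}`: for `∑ m f = 0`,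
  `∑ m f² ≤ (3K+2) Dir`; `lam := 1/(3K+2) ≥ n^{-ε/20}`.
* `ε₁ = 2/n`, `ε₂ = 1/n` as in A08, `ε₃ = 1/N'` (`mm_sq`, `card_reps`), which is `≤ 100/N`.
* `τ := ⌈n^{ε/10}⌉₊`, `s := ⌊√N n^{-ε/4}⌋₊`; `lam (τ-1) ≥ n^{ε/20}/2`.
* `E₀ = Ecyc`: `s ∑ c ≤ 3 s n^θ`, `b₀ := 300 s n^θ/N → 0` (as `∑ m ≥ N/100`).
* `P = PPa`: `s² ∑ c c' ≤ 9 s² n^{4θ} N`, `b₁ := 9·10⁴ s² n^{4θ}/N ≤ 9·10⁴ n^{4θ-ε/2} → 0`.
* `Q = QQb`: `m (rep) = 1` for pairs in `QQb` (`≤ 1` suffices): `s ∑ m c ≤ 3 s n^{3θ} N`,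
  `b₂ := 3·10⁴ s n^{3θ}/N → 0`.
* `M := ⌈n^{-ε} √(h n)⌉₊`. (L): from `l_fixed`: `q + 1 ≤ k₀ (ℓ/r' + 1)`, `ℓ < M`, `r' ≥ n^{-θ}/(2h)`, so
  `ℓ/r' ≤ 2 h n^θ (n^{-ε} √(hn) + 1) ≤ 2 n^{θ-ε} √N + 1` (`h √(hn) = √N`, `h n^θ ≤ 1/2`), and
  `(q+1) τ + 2τ + 2 ≤ k₀ (2 n^{θ-ε}√N + 2) τ + 2τ + 2 ≤ s` since `τ ≤ 2n^{ε/10}` and
  `s ≥ √N n^{-ε/4}/2`, `√N ≥ n^{3ε/2}`.
* error: `2/n + 2/n + 100/N + 2b₀ + 8b₁ + 8b₂ + (1 + 2s²|PPa| + 2s|QQb|) exp(-lam(τ-1))`, the last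
  factor beats every power of `n` (`s ≤ n`, `|PPa|, |QQb| ≤ n^5`). Total `≤ ε`.
-/

open Finset MeasureTheory

namespace RST.A

theorem A09_ev (ε Y : ℝ) (Cr : ℕ) (hε : 0 < ε) : ∃ n₀ : ℕ, ∀ n : ℕ, n₀ ≤ n →
    Y ≤ (n : ℝ) ^ (ε / 200) ∧ (Real.log n) ^ Cr + 1 ≤ (n : ℝ) ^ (ε / 200) ∧
    5 * (n : ℝ) ^ 4 * Real.exp (-(n : ℝ) ^ (ε / 200)) ≤ ε / 2 ∧ 1 ≤ n := by
  have ha : 0 < ε / 200 := by positivity
  have hc : Filter.Tendsto (fun n : ℕ => (n : ℝ)) Filter.atTop Filter.atTop :=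
    tendsto_natCast_atTop_atTop
  have ht : Filter.Tendsto (fun n : ℕ => (n : ℝ) ^ (ε / 200)) Filter.atTop Filter.atTop :=
    (tendsto_rpow_atTop ha).comp hc
  have e1 : ∀ᶠ n : ℕ in Filter.atTop, Y ≤ (n : ℝ) ^ (ε / 200) := ht.eventually_ge_atTop Y
  have e2 : ∀ᶠ n : ℕ in Filter.atTop, 2 ≤ (n : ℝ) ^ (ε / 200) := ht.eventually_ge_atTop 2
  have e3 : ∀ᶠ n : ℕ in Filter.atTop, ‖Real.log n ^ (Cr : ℝ)‖ ≤ 1 / 2 * ‖(n : ℝ) ^ (ε / 200)‖ :=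
    hc.eventually ((isLittleO_log_rpow_rpow_atTop (Cr : ℝ) ha).bound (by norm_num : (0:ℝ) < 1 / 2))
  have e4 : ∀ᶠ n : ℕ in Filter.atTop,
      ((n : ℝ) ^ (ε / 200)) ^ ⌈4 / (ε / 200)⌉₊ * Real.exp (-(n : ℝ) ^ (ε / 200)) < ε / 10 := by
    have := ((Real.tendsto_pow_mul_exp_neg_atTop_nhds_zero ⌈4 / (ε / 200)⌉₊).comp ht)
    exact this.eventually (gt_mem_nhds (by positivity))
  have e5 : ∀ᶠ n : ℕ in Filter.atTop, 1 ≤ n := Filter.eventually_ge_atTop 1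
  obtain ⟨n₀, hn₀⟩ := Filter.eventually_atTop.1 (e1.and (e2.and (e3.and (e4.and e5))))
  refine ⟨n₀, fun n hn => ?_⟩
  obtain ⟨h1, h2, h3, h4, h5⟩ := hn₀ n hn
  have hn1 : (1 : ℝ) ≤ n := by exact_mod_cast h5
  have hlog : 0 ≤ Real.log n := Real.log_nonneg hn1
  have hX : 0 < (n : ℝ) ^ (ε / 200) := by positivity
  refine ⟨h1, ?_, ?_, h5⟩
  · rw [Real.rpow_natCast, Real.norm_eq_abs, Real.norm_eq_abs, abs_of_nonneg (pow_nonneg hlog _),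
      abs_of_pos hX] at h3
    linarith
  · have h6 : (n : ℝ) ^ 4 ≤ ((n : ℝ) ^ (ε / 200)) ^ ⌈4 / (ε / 200)⌉₊ := by
      rw [← Real.rpow_natCast, ← Real.rpow_natCast, ← Real.rpow_mul (by linarith)]
      apply Real.rpow_le_rpow_of_exponent_le hn1
      have h7 := Nat.le_ceil (4 / (ε / 200))
      rw [div_le_iff₀ ha] at h7
      push_cast
      linarith
    have h8 := Real.exp_pos (-(n : ℝ) ^ (ε / 200))
    nlinarith

theorem A09_L (X rt : ℝ) (k₀ : ℕ) (hX : 1000 ≤ X) (hk : (k₀ : ℝ) ≤ X) (hrt : X ^ 300 ≤ rt)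
    (q D : ℕ) (hD : (D : ℝ) ≤ 2 * rt / X ^ 199) (hq : q + 1 ≤ k₀ * (D + 1)) :
    (q + 1) * ⌈X ^ 20⌉₊ + 2 * ⌈X ^ 20⌉₊ + 2 ≤ ⌊rt / X ^ 50⌋₊ := by
  have hX0 : 0 < X := by linarith
  have hX1 : 1 ≤ X := by linarith
  have hrt0 : 0 < rt := lt_of_lt_of_le (by positivity) hrt
  apply Nat.le_floor
  push_cast
  have hτ : ((⌈X ^ 20⌉₊ : ℕ) : ℝ) ≤ 2 * X ^ 20 := by
    have h1 := Nat.ceil_lt_add_one (show 0 ≤ X ^ 20 by positivity)
    have h2 : 1 ≤ X ^ 20 := one_le_pow₀ hX1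
    linarith
  have hq' : ((q : ℝ) + 1) ≤ X * (2 * rt / X ^ 199 + 1) := by
    have h1 : ((q + 1 : ℕ) : ℝ) ≤ ((k₀ * (D + 1) : ℕ) : ℝ) := by exact_mod_cast hq
    push_cast at h1
    have h2 : (k₀ : ℝ) * (D + 1) ≤ X * (2 * rt / X ^ 199 + 1) := by gcongr
    linarith
  obtain ⟨A, hA⟩ : ∃ A : ℝ, A = rt / X ^ 50 := ⟨_, rfl⟩
  have hrtA : rt = A * X ^ 50 := by rw [hA]; field_simp
  have hA250 : X ^ 250 ≤ A := by
    rw [hA, le_div_iff₀ (by positivity), ← pow_add]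
    exact hrt
  have hA0 : 0 < A := lt_of_lt_of_le (by positivity) hA250
  have e1 : X * (2 * rt / X ^ 199 + 1) = 2 * A / X ^ 148 + X := by
    rw [hrtA]
    field_simp
  rw [e1] at hq'
  rw [← hA]
  have h3 : ((q : ℝ) + 1) * (⌈X ^ 20⌉₊ : ℕ) ≤ (2 * A / X ^ 148 + X) * (2 * X ^ 20) := by
    gcongr
  have h4 : (2 * A / X ^ 148 + X) * (2 * X ^ 20) = 4 * A / X ^ 128 + 2 * X ^ 21 := by
    field_simp
    ring
  have h5 : 4 * A / X ^ 128 ≤ A / 2 := by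
    rw [div_le_div_iff₀ (by positivity) (by norm_num)]
    have h6 : X ≤ X ^ 128 := le_self_pow₀ hX1 (by norm_num)
    nlinarith
  have h7 : X ^ 22 ≤ X ^ 250 := pow_le_pow_right₀ hX1 (by norm_num)
  have h8 : X ^ 22 = X * X ^ 21 := by ring
  have h9 : X ^ 20 ≤ X ^ 21 := pow_le_pow_right₀ hX1 (by norm_num)
  have h10 : 1 ≤ X ^ 20 := one_le_pow₀ hX1
  have h11 : 1000 * X ^ 21 ≤ X * X ^ 21 := by
    apply mul_le_mul_of_nonneg_right hX (by positivity)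
  linarith

open Classical in
theorem A09_bigs_ne {V : Type} [Fintype V] (R : V → V → Prop) (k : ℕ) (Q : Finset V)
    (hQ : Q ∈ bigs R univ k) : Q.Nonempty := by
  unfold bigs at hQ
  rw [mem_filter, mem_image] at hQ
  obtain ⟨⟨v, -, rfl⟩, -⟩ := hQ
  exact ⟨v, (A07_mem_cmp _ _ _).2 Relation.ReflTransGen.refl⟩

theorem A09_rep {n : ℕ} (hn : 1 ≤ n) (h : ℝ) (lab : Sym2 (Fin n) → ℝ) :
    ∃ rep : Finset (Fin n) → Fin n, ∀ Q ∈ SS h lab, rep Q ∈ Q := by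
  classical
  refine ⟨fun Q => if hQ : Q.Nonempty then hQ.choose else ⟨0, hn⟩, fun Q hQ => ?_⟩
  have hne : Q.Nonempty := A09_bigs_ne _ _ Q hQ
  simp only [dif_pos hne]
  exact hne.choose_spec

theorem A09_gap {n : ℕ} (δ θ c₀ h : ℝ) (Cr : ℕ) (lab : Sym2 (Fin n) → ℝ)
    (F : WFacts δ θ c₀ Cr n h lab) (R₀ RA κ t : ℝ) (hR₀ : 0 ≤ R₀) (hRA : 0 ≤ RA)
    (hC : CFacts (Gm h lab) (GA h lab) (cc c₀ h lab) R₀ RA)
    (hκ : 0 < κ) (hc : ∀ e, κ ≤ cc c₀ h lab e) (ht : 0 ≤ t)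
    (ht1 : t * n ≤ κ) (ht2 : t * n ≤ 1) (rep : Finset (Fin n) → Fin n)
    (hrep : ∀ Q ∈ SS h lab, rep Q ∈ Q) (hne : (reps h lab rep).Nonempty) (f : Fin n → ℝ)
    (h0 : ∑ x, mm (reps h lab rep) t x * f x = 0) :
    1 / (3 * (8 * (abN θ n : ℝ) * ((abN θ n : ℝ) + 1) * (2 * R₀ + RA)) + 2) *
      ∑ x, mm (reps h lab rep) t x * f x ^ 2 ≤ Dir (cc c₀ h lab) f := by
  have h1 := poincareS (Gm h lab) (GA h lab) (GW c₀ h lab) (kh h) (lmN n h) (rN θ n h)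
    (rN θ n h / 2) (k0N θ) (2 * k0N θ + 4) (abN θ n) (ebN θ n) F.D (cc c₀ h lab) R₀ RA hC hR₀ hRA
    rep hrep f
  have hK : (0 : ℝ) ≤ 8 * (abN θ n : ℝ) * ((abN θ n : ℝ) + 1) * (2 * R₀ + RA) := by positivity
  have h2 := mass_gap (cc c₀ h lab) κ t hκ hc ht (by rwa [Fintype.card_fin])
    (by rwa [Fintype.card_fin]) (reps h lab rep) hne
    (8 * (abN θ n : ℝ) * ((abN θ n : ℝ) + 1) * (2 * R₀ + RA)) hK f (by
      rw [card_reps h lab rep hrep, sum_reps h lab rep hrep f]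
      rw [sum_reps h lab rep hrep (fun x => (f x - (∑ Q ∈ SS h lab, f (rep Q)) /
        ((SS h lab).card : ℝ)) ^ 2)]
      exact h1) h0
  rw [one_div, inv_mul_le_iff₀ (by positivity)]
  exact h2

/-- numerical bounds for the error terms -/
theorem A09_err (X rt N n N' s : ℝ) (hX : 1000 ≤ X) (hrt : X ^ 300 ≤ rt) (hN : rt ^ 2 = N)
    (hs0 : 0 ≤ s) (hs : s ≤ rt / X ^ 50) (hn : X ≤ n) (hN' : N / 100 ≤ N') :
    300 * s * X / N ≤ 1 / X ∧ 90000 * s ^ 2 * X ^ 4 / N ≤ 1 / X ∧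
    30000 * s * X ^ 3 / N ≤ 1 / X ∧ 1 / N' ≤ 1 / X ∧ 1 / n ≤ 1 / X := by
  have hX0 : 0 < X := by linarith
  have hX1 : 1 ≤ X := by linarith
  have hrt0 : 0 < rt := lt_of_lt_of_le (by positivity) hrt
  have hrt1 : 1 ≤ rt := le_trans (one_le_pow₀ hX1) hrt
  have hNp : 0 < N := by rw [← hN]; positivity
  have hs1 : s * X ^ 50 ≤ rt := by rwa [le_div_iff₀ (by positivity)] at hs
  have hrN : rt ≤ N := by rw [← hN]; nlinarith
  have p1 : ∀ k : ℕ, k ≤ 49 → 1000 * (s * X ^ k) ≤ s * X ^ 50 := by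
    intro k hk
    have h1 : X ^ (k + 1) ≤ X ^ 50 := pow_le_pow_right₀ hX1 (by omega)
    have h2 : X ^ (k + 1) = X * X ^ k := by ring
    have h3 : 1000 * X ^ k ≤ X * X ^ k := mul_le_mul_of_nonneg_right hX (by positivity)
    calc 1000 * (s * X ^ k) = s * (1000 * X ^ k) := by ring
      _ ≤ s * X ^ 50 := by
        apply mul_le_mul_of_nonneg_left _ hs0
        linarith
  have p2 : ∀ k : ℕ, k ≤ 48 → 1000000 * (s * X ^ k) ≤ s * X ^ 50 := by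
    intro k hk
    have h1 := p1 (k + 1) (by omega)
    have h2 : 1000 * X ^ k ≤ X * X ^ k := mul_le_mul_of_nonneg_right hX (by positivity)
    have h3 : X ^ (k + 1) = X * X ^ k := by ring
    rw [h3] at h1
    have h4 : s * (1000 * X ^ k) ≤ s * (X * X ^ k) := mul_le_mul_of_nonneg_left h2 hs0
    linarith
  refine ⟨?_, ?_, ?_, ?_, ?_⟩
  · rw [div_le_div_iff₀ hNp hX0]
    have := p1 2 (by norm_num)
    have h2 : 0 ≤ s * X ^ 2 := by positivity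
    nlinarith
  · rw [div_le_div_iff₀ hNp hX0]
    have h1 := p2 3 (by norm_num)
    have h0 : 0 ≤ s * X ^ 3 := by positivity
    have h2 : (1000000 * (s * X ^ 3)) ^ 2 ≤ rt ^ 2 := by
      apply pow_le_pow_left₀ (by positivity)
      linarith
    rw [hN] at h2
    have h3 : X ^ 5 ≤ X ^ 6 := pow_le_pow_right₀ hX1 (by norm_num)
    have h4 : 90000 * s ^ 2 * X ^ 4 * X = 90000 * (s ^ 2 * X ^ 5) := by ring
    have h5 : s ^ 2 * X ^ 5 ≤ s ^ 2 * X ^ 6 := mul_le_mul_of_nonneg_left h3 (by positivity)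
    have h6 : (1000000 * (s * X ^ 3)) ^ 2 = 1000000000000 * (s ^ 2 * X ^ 6) := by ring
    have h7 : 0 ≤ s ^ 2 * X ^ 6 := by positivity
    rw [h4, one_mul]
    rw [h6] at h2
    linarith
  · rw [div_le_div_iff₀ hNp hX0]
    have := p2 4 (by norm_num)
    have h2 : 0 ≤ s * X ^ 4 := by positivity
    have h3 : 30000 * s * X ^ 3 * X = 30000 * (s * X ^ 4) := by ring
    rw [h3, one_mul]
    linarith
  · apply one_div_le_one_div_of_le hX0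
    have h1 : X ^ 2 ≤ X ^ 300 := pow_le_pow_right₀ hX1 (by norm_num)
    have h2 : 1000 * X ≤ X ^ 2 := by nlinarith
    linarith
  · exact one_div_le_one_div_of_le hX0 hn

theorem A09_gapnum (X K ab R₀ RA : ℝ) (τ : ℕ) (hX : 1000 ≤ X) (hab0 : 0 ≤ ab) (hab : ab ≤ X ^ 2)
    (hR0 : 0 ≤ R₀) (hR : R₀ ≤ X) (hA0 : 0 ≤ RA) (hA : RA ≤ X)
    (hK : K = 8 * ab * (ab + 1) * (2 * R₀ + RA)) (hτ : X ^ 20 ≤ (τ : ℝ)) :
    0 < 1 / (3 * K + 2) ∧ X ≤ 1 / (3 * K + 2) * (τ - 1) := by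
  have hX0 : 0 < X := by linarith
  have hX1 : 1 ≤ X := by linarith
  have hX2 : 1 ≤ X ^ 2 := one_le_pow₀ hX1
  have hK0 : 0 ≤ K := by rw [hK]; positivity
  have hK1 : K ≤ 48 * X ^ 5 := by
    rw [hK]
    calc 8 * ab * (ab + 1) * (2 * R₀ + RA) ≤ 8 * X ^ 2 * (2 * X ^ 2) * (3 * X) := by
          gcongr
          · linarith
          · linarith
      _ = 48 * X ^ 5 := by ring
  have h5 : 1 ≤ X ^ 5 := one_le_pow₀ hX1
  have h6 : 1000 * X ^ 5 ≤ X ^ 6 := by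
    have : X ^ 6 = X * X ^ 5 := by ring
    rw [this]
    exact mul_le_mul_of_nonneg_right hX (by positivity)
  have h7 : 3 * K + 2 ≤ X ^ 6 := by linarith
  have h8 : 0 < 3 * K + 2 := by linarith
  refine ⟨by positivity, ?_⟩
  rw [one_div, le_inv_mul_iff₀ h8]
  have h9 : (3 * K + 2) * X ≤ X ^ 6 * X := mul_le_mul_of_nonneg_right h7 hX0.le
  have h10 : X ^ 6 * X + 1 ≤ X ^ 20 := by
    have h11 : X ^ 8 ≤ X ^ 20 := pow_le_pow_right₀ hX1 (by norm_num)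
    have h12 : X ^ 8 = X * X ^ 7 := by ring
    have h13 : X ^ 6 * X = X ^ 7 := by ring
    have h14 : 1 ≤ X ^ 7 := one_le_pow₀ hX1
    have h15 : 1000 * X ^ 7 ≤ X * X ^ 7 := mul_le_mul_of_nonneg_right hX (by positivity)
    linarith
  linarith

theorem lower_fixed (δ θ c₀ ε : ℝ) (Cr : ℕ) (hδ : 0 < δ) (hδ1 : δ ≤ 1 / 10) (hε : 0 < ε)
    (hε1 : ε ≤ δ) (hθ : 0 < θ) (hθ1 : θ ≤ δ / 10) (hθ2 : θ ≤ ε / 200) (hc : 0 < c₀)
    (hc1 : c₀ * C1 ≤ ε / 200) : ∃ n₀ : ℕ, ∀ n : ℕ, n₀ ≤ n →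
    ∀ h : ℝ, R2Par δ n h → ∀ lab : Sym2 (Fin n) → ℝ, WFacts δ θ c₀ Cr n h lab →
    PT (cc c₀ h lab) {T | ∀ (γ : ℕ → Fin n) (ℓ : ℕ), IsSAW T.Adj γ ℓ →
      (ℓ : ℝ) < (n : ℝ) ^ (-ε) * Real.sqrt (h * n)} ≤ ε := by
  have hc1' : c₀ * C1 ≤ 1 := by linarith
  have hc2 : c₀ ≤ 1 := by
    have h1 : (1 : ℝ) ≤ C1 := by unfold C1; norm_num
    nlinarith
  obtain ⟨n₁, H1⟩ := cfacts δ c₀ Cr hδ hδ1 hc hc2
  obtain ⟨n₂, H2⟩ := l_fixed δ θ c₀ Cr hδ hδ1 hθ hθ1 hc hc1'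
  obtain ⟨n₃, H3⟩ := hpar δ c₀ hδ hδ1 hc hc2
  obtain ⟨n₄, H4⟩ := sizes δ θ hδ hδ1 hθ hθ1
  obtain ⟨n₅, H5⟩ := A09_ev ε (1000 + k0N θ + 100 / ε) Cr hε
  refine ⟨n₁ + n₂ + n₃ + n₄ + n₅ + 2, fun n hn h hR lab F => ?_⟩
  have hC := H1 n (by omega) h hR lab F.D.d1 F.rcnt
  have hL := H2 n (by omega) h hR lab F
  obtain ⟨-, hh, hh1, -, -, -, hN3⟩ := H3 n (by omega) h hR
  obtain ⟨-, -, hr2, -, -, hrlo, -, -⟩ := H4 n (by omega) h hR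
  obtain ⟨hX, hlogX, hexp, hn1⟩ := H5 n (by omega)
  have hn2 : 2 ≤ n := by omega
  have hnR : (1 : ℝ) ≤ n := by exact_mod_cast hn1
  have hn0 : (0 : ℝ) < n := by linarith
  have h100 : 0 < 100 / ε := by positivity
  have hk0' : (0 : ℝ) ≤ k0N θ := Nat.cast_nonneg _
  obtain ⟨X, hXdef⟩ : ∃ X : ℝ, X = (n : ℝ) ^ (ε / 200) := ⟨_, rfl⟩
  rw [← hXdef] at hX hlogX hexp
  have hX1000 : 1000 ≤ X := by linarith
  have hXk : (k0N θ : ℝ) ≤ X := by linarith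
  have hXε : 100 / ε ≤ X := by linarith
  have hX0 : 0 < X := by linarith
  have hX1 : 1 ≤ X := by linarith
  have hXp : ∀ k : ℕ, X ^ k = (n : ℝ) ^ (ε / 200 * k) := by
    intro k
    rw [hXdef, ← Real.rpow_natCast, ← Real.rpow_mul hn0.le]
  have hpw : ∀ k : ℕ, (n : ℝ) ^ ((k : ℝ) * θ) ≤ X ^ k := by
    intro k
    rw [hXp]
    apply Real.rpow_le_rpow_of_exponent_le hnR
    have : (0 : ℝ) ≤ k := Nat.cast_nonneg _
    nlinarith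
  have hpθ : (n : ℝ) ^ θ ≤ X := by simpa using hpw 1
  have hp2 : (n : ℝ) ^ (2 * θ) ≤ X ^ 2 := by simpa using hpw 2
  have hp3 : (n : ℝ) ^ (3 * θ) ≤ X ^ 3 := by simpa using hpw 3
  have hp4 : (n : ℝ) ^ (4 * θ) ≤ X ^ 4 := by simpa using hpw 4
  have hXn4 : X ^ 4 ≤ n := by
    rw [hXp]
    calc (n : ℝ) ^ (ε / 200 * (4 : ℕ)) ≤ (n : ℝ) ^ (1 : ℝ) := by
          apply Real.rpow_le_rpow_of_exponent_le hnR
          push_cast
          linarith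
      _ = n := Real.rpow_one _
  have hXn3 : X ^ 3 ≤ n := le_trans (pow_le_pow_right₀ hX1 (by norm_num)) hXn4
  have hXn : X ≤ n := le_trans (le_self_pow₀ hX1 (by norm_num)) hXn4
  obtain ⟨N, hN⟩ : ∃ N : ℝ, N = h ^ 3 * n := ⟨_, rfl⟩
  have hX600 : X ^ 600 ≤ N := by
    rw [hN]
    refine le_trans ?_ hN3
    rw [hXp]
    apply Real.rpow_le_rpow_of_exponent_le hnR
    push_cast
    linarith
  have hNpos : 0 < N := lt_of_lt_of_le (by positivity) hX600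
  obtain ⟨rt, hrt⟩ : ∃ rt : ℝ, rt = Real.sqrt N := ⟨_, rfl⟩
  have hrt2 : rt ^ 2 = N := by rw [hrt]; exact Real.sq_sqrt hNpos.le
  have hrt300 : X ^ 300 ≤ rt := by
    rw [hrt]
    apply Real.le_sqrt_of_sq_le
    calc (X ^ 300) ^ 2 = X ^ 600 := by ring
      _ ≤ N := hX600
  have hrt0 : 0 < rt := lt_of_lt_of_le (by positivity) hrt300
  have hNn : N ≤ n := by
    rw [hN]
    have : h ^ 3 ≤ 1 := pow_le_one₀ hh.le (by linarith)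
    nlinarith
  have hrtn : rt ≤ n := by
    have h1 : rt ^ 2 ≤ (n : ℝ) ^ 2 := by
      rw [hrt2]
      nlinarith
    exact (pow_le_pow_iff_left₀ hrt0.le hn0.le two_ne_zero).1 h1
  have hhrt : h * Real.sqrt (h * n) = rt := by
    have h1 : Real.sqrt (h ^ 2 * (h * n)) = h * Real.sqrt (h * n) := by
      rw [Real.sqrt_mul (sq_nonneg h), Real.sqrt_sq hh.le]
    rw [hrt, hN, ← h1]
    congr 1
    ring
  obtain ⟨rep, hrep⟩ := A09_rep hn1 h lab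
  have hcard := card_reps h lab rep hrep
  have hnlo := F.nlo
  rw [← hN] at hnlo
  have hRcard : N / 100 ≤ ((reps h lab rep).card : ℝ) := by rw [hcard]; exact hnlo
  have hRpos : 0 < (reps h lab rep).card := by
    have : (0 : ℝ) < ((reps h lab rep).card : ℝ) := by linarith [show 0 < N / 100 by positivity]
    exact_mod_cast this
  have hRne : (reps h lab rep).Nonempty := card_pos.1 hRpos
  obtain ⟨κ, hκ⟩ : ∃ κ : ℝ, κ = Real.exp (-(c₀ / h) * (n - 1)) := ⟨_, rfl⟩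
  have hκ0 : 0 < κ := by rw [hκ]; exact Real.exp_pos _
  have hκ1 : κ ≤ 1 := by
    rw [hκ]
    apply Real.exp_le_one_iff.2
    have h1 : 0 < c₀ / h := div_pos hc hh
    nlinarith
  have hκc : ∀ e, κ ≤ cc c₀ h lab e := fun e => by
    rw [hκ]; exact c_min c₀ h lab hc hh (by omega) F.rng e
  obtain ⟨t, ht⟩ : ∃ t : ℝ, t = κ / n ^ 2 := ⟨_, rfl⟩
  have ht0 : 0 < t := by rw [ht]; positivity
  have htn : t * n = κ / n := by rw [ht]; field_simp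
  have htn1 : t * n ≤ κ := by
    rw [htn]; exact div_le_self hκ0.le hnR
  have htn2 : t * n ≤ 1 := by linarith
  have ht1 : t ≤ 1 := by nlinarith
  have htn3 : t * n ≤ 1 / n := by
    rw [htn]; gcongr
  obtain ⟨S, hS⟩ : ∃ S : ℝ, S = ∑ x, mm (reps h lab rep) t x := ⟨_, rfl⟩
  have hSR : ((reps h lab rep).card : ℝ) ≤ S := by rw [hS]; exact mm_sum_ge _ t ht0.le
  have hSN : N / 100 ≤ S := le_trans hRcard hSR
  have hS1 : 1 ≤ S := by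
    have : (1 : ℝ) ≤ ((reps h lab rep).card : ℝ) := by exact_mod_cast hRpos
    linarith
  obtain ⟨R₀, hR₀⟩ : ∃ R₀ : ℝ, R₀ = (Real.log n) ^ Cr + 1 := ⟨_, rfl⟩
  obtain ⟨RA, hRA⟩ : ∃ RA : ℝ, RA = (n : ℝ) ^ (c₀ * C1) := ⟨_, rfl⟩
  rw [← hR₀, ← hRA] at hC
  have hR₀0 : 0 ≤ R₀ := by
    rw [hR₀]
    have := pow_nonneg (Real.log_nonneg hnR) Cr
    linarith
  have hRA0 : 0 ≤ RA := by rw [hRA]; positivity
  have hR₀X : R₀ ≤ X := by rw [hR₀]; exact hlogX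
  have hRAX : RA ≤ X := by
    rw [hRA, hXdef]
    exact Real.rpow_le_rpow_of_exponent_le hnR hc1
  have hab : (abN θ n : ℝ) ≤ X ^ 2 := by
    unfold abN
    exact le_trans (Nat.floor_le (by positivity)) hp2
  obtain ⟨K, hK⟩ : ∃ K : ℝ, K = 8 * (abN θ n : ℝ) * ((abN θ n : ℝ) + 1) * (2 * R₀ + RA) := ⟨_, rfl⟩
  obtain ⟨τ, hτ⟩ : ∃ τ : ℕ, τ = ⌈X ^ 20⌉₊ := ⟨_, rfl⟩
  obtain ⟨s, hs⟩ : ∃ s : ℕ, s = ⌊rt / X ^ 50⌋₊ := ⟨_, rfl⟩
  have hτX : X ^ 20 ≤ (τ : ℝ) := by rw [hτ]; exact Nat.le_ceil _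
  have hτ2 : 2 ≤ τ := by
    have h1 : X ≤ X ^ 20 := le_self_pow₀ hX1 (by norm_num)
    have h2 : (2 : ℝ) ≤ τ := by linarith
    exact_mod_cast h2
  have hsX : (s : ℝ) ≤ rt / X ^ 50 := by rw [hs]; exact Nat.floor_le (by positivity)
  have hsrt : (s : ℝ) ≤ rt := by
    have h1 : rt / X ^ 50 ≤ rt := div_le_self hrt0.le (one_le_pow₀ hX1)
    linarith
  have hsn : (s : ℝ) ≤ n := by linarith
  have hs0 : (0 : ℝ) ≤ s := Nat.cast_nonneg _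
  obtain ⟨hlam, hlamX⟩ := A09_gapnum X K (abN θ n) R₀ RA τ hX1000 (Nat.cast_nonneg _) hab hR₀0
    hR₀X hRA0 hRAX hK hτX
  obtain ⟨E1, E2, E3, E4, E5⟩ := A09_err X rt N n (reps h lab rep).card s hX1000 hrt300 hrt2 hs0
    hsX hXn hRcard
  have hgap : ∀ f : Fin n → ℝ, ∑ x, mm (reps h lab rep) t x * f x = 0 →
      1 / (3 * K + 2) * ∑ x, mm (reps h lab rep) t x * f x ^ 2 ≤ Dir (cc c₀ h lab) f := by
    intro f hf
    rw [hK]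
    exact A09_gap δ θ c₀ h Cr lab F R₀ RA κ t hR₀0 hRA0 hC hκ0 hκc ht0.le htn1 htn2 rep hrep hRne f hf
  have hnpp := F.npp
  have hnqq := F.nqq rep
  rw [← hN] at hnpp hnqq
  have hcpos : ∀ e, 0 < cc c₀ h lab e := fun e => Real.exp_pos _
  obtain ⟨Ec, hEc⟩ : ∃ E : Finset (Sym2 (Fin n)),
    E = Ecyc (Gm h lab) (GW c₀ h lab) (2 * k0N θ + 4) := ⟨_, rfl⟩
  obtain ⟨P, hP⟩ : ∃ P : Finset (Sym2 (Fin n) × Sym2 (Fin n)),
    P = PPa (Gm h lab) (GW c₀ h lab) (rN θ n h / 2) := ⟨_, rfl⟩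
  obtain ⟨Q, hQ⟩ : ∃ Q : Finset (Fin n × Sym2 (Fin n)),
    Q = QQb (Gm h lab) (GW c₀ h lab) (kh h) (rN θ n h / 2) rep := ⟨_, rfl⟩
  rw [← hP] at hnpp
  rw [← hQ] at hnqq
  have hPc : (P.card : ℝ) ≤ X ^ 4 * N := hnpp.trans (by gcongr)
  have hQc : (Q.card : ℝ) ≤ X ^ 3 * N := hnqq.trans (by gcongr)
  have hEcard : (Ec.card : ℝ) ≤ X := by
    have h1 : (Ec.card : ℝ) ≤ ebN θ n := by rw [hEc]; exact_mod_cast F.D.d7
    have h2 : (ebN θ n : ℝ) ≤ (n : ℝ) ^ θ := by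
      unfold ebN; exact Nat.floor_le (by positivity)
    linarith
  have hEsum : ∑ e ∈ Ec, cc c₀ h lab e ≤ 3 * X := by
    calc ∑ e ∈ Ec, cc c₀ h lab e ≤ ∑ e ∈ Ec, (3 : ℝ) := by
          apply sum_le_sum
          intro e he
          rw [hEc] at he
          exact c_window_Ecyc c₀ h lab hc hc2 hh _ e he
      _ = Ec.card * 3 := by rw [sum_const, nsmul_eq_mul]
      _ ≤ 3 * X := by linarith
  have hPsum : ∑ p ∈ P, cc c₀ h lab p.1 * cc c₀ h lab p.2 ≤ 9 * (X ^ 4 * N) := by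
    calc ∑ p ∈ P, cc c₀ h lab p.1 * cc c₀ h lab p.2 ≤ ∑ p ∈ P, (9 : ℝ) := by
          apply sum_le_sum
          intro p hp
          rw [hP] at hp
          obtain ⟨h1, h2⟩ := c_window_PPa c₀ h lab hc hc2 hh _ p hp
          calc cc c₀ h lab p.1 * cc c₀ h lab p.2 ≤ 3 * 3 :=
                mul_le_mul h1 h2 (hcpos _).le (by norm_num)
            _ = 9 := by norm_num
      _ = P.card * 9 := by rw [sum_const, nsmul_eq_mul]
      _ ≤ 9 * (X ^ 4 * N) := by linarith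
  have hmm1 : ∀ x, mm (reps h lab rep) t x ≤ 1 := by
    intro x
    unfold mm
    split_ifs
    · exact le_rfl
    · exact ht1
  have hQsum : ∑ p ∈ Q, mm (reps h lab rep) t p.1 * cc c₀ h lab p.2 ≤ 3 * (X ^ 3 * N) := by
    calc ∑ p ∈ Q, mm (reps h lab rep) t p.1 * cc c₀ h lab p.2 ≤ ∑ p ∈ Q, (3 : ℝ) := by
          apply sum_le_sum
          intro p hp
          rw [hQ] at hp
          have h1 := c_window_QQb c₀ h lab hc hc2 hh _ _ rep p hp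
          calc mm (reps h lab rep) t p.1 * cc c₀ h lab p.2 ≤ 1 * 3 :=
                mul_le_mul (hmm1 _) h1 (hcpos _).le (by norm_num)
            _ = 3 := by norm_num
      _ = Q.card * 3 := by rw [sum_const, nsmul_eq_mul]
      _ ≤ 3 * (X ^ 3 * N) := by linarith
  have hτs : τ ≤ s := by
    have h1 := A09_L X rt (k0N θ) hX1000 hXk hrt300 0 0 (by push_cast; positivity)
      (by unfold k0N; omega)
    rw [← hτ, ← hs] at h1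
    omega
  haveI hne : Nonempty (Fin n) := ⟨⟨0, by omega⟩⟩
  have hmain := lower_abstract (cc c₀ h lab) hcpos (mm (reps h lab rep) t)
    (fun x => mm_pos _ t ht0 x) (reps h lab rep) (GoodT c₀ h lab) (2 / n) (1 / n)
    (1 / (reps h lab rep).card) (300 * s * X / N) (90000 * s ^ 2 * X ^ 4 / N)
    (30000 * s * X ^ 3 / N) (1 / (3 * K + 2)) hlam
    (goodT_prob c₀ h lab δ θ Cr hc hh hn2 F)
    (by
      have h1 := mm_compl (reps h lab rep) t ht0.le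
      rw [Fintype.card_fin] at h1
      have h2 : 1 / (n : ℝ) * 1 ≤ 1 / n * ∑ x, mm (reps h lab rep) t x := by
        rw [← hS]
        gcongr
      linarith)
    hgap
    (mm_sq (reps h lab rep) t ht0.le ht1 hRne) s τ hτ2 hτs Ec
    (by
      rw [← hS]
      calc (s : ℝ) * ∑ e ∈ Ec, cc c₀ h lab e ≤ s * (3 * X) := by gcongr
        _ = 300 * s * X / N * (N / 100) := by field_simp; ring
        _ ≤ 300 * s * X / N * S := by gcongr)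
    P
    (by
      rw [← hS]
      calc (s : ℝ) ^ 2 * ∑ p ∈ P, cc c₀ h lab p.1 * cc c₀ h lab p.2 ≤ s ^ 2 * (9 * (X ^ 4 * N)) := by
            gcongr
        _ = 90000 * s ^ 2 * X ^ 4 / N * (N / 100) ^ 2 := by field_simp; ring
        _ ≤ 90000 * s ^ 2 * X ^ 4 / N * S ^ 2 := by gcongr)
    Q
    (by
      rw [← hS]
      calc (s : ℝ) * ∑ p ∈ Q, mm (reps h lab rep) t p.1 * cc c₀ h lab p.2 ≤
            s * (3 * (X ^ 3 * N)) := by gcongr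
        _ = 30000 * s * X ^ 3 / N * (N / 100) ^ 2 := by field_simp; ring
        _ ≤ 30000 * s * X ^ 3 / N * S ^ 2 := by gcongr)
    ⌈(n : ℝ) ^ (-ε) * Real.sqrt (h * n)⌉₊
    (by
      intro T hT hTt γ ℓ hγ hℓ hγ0 hγl hne hE
      rw [hEc] at hE
      obtain ⟨q, g, g1, g2, g3, g4, g5⟩ := hL rep hrep T hT hTt γ ℓ hγ hγ0 hγl hne hE
      refine ⟨q, g, g1, ?_, by rw [hQ]; exact g3, by rw [hQ]; exact g4, fun j hj => Or.inl ?_⟩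
      · rw [hτ, hs]
        refine A09_L X rt (k0N θ) hX1000 hXk hrt300 q (ℓ / rN θ n h) ?_ g2
        have hℓ' : (ℓ : ℝ) < (n : ℝ) ^ (-ε) * Real.sqrt (h * n) := Nat.lt_ceil.1 hℓ
        have hr0 : (0 : ℝ) < rN θ n h := by
          have : 0 < rN θ n h := by omega
          exact_mod_cast this
        have h1 : ((ℓ / rN θ n h : ℕ) : ℝ) ≤ (ℓ : ℝ) / (rN θ n h : ℝ) := Nat.cast_div_le
        have h2 : (n : ℝ) ^ (-θ) / (2 * h) = 1 / (2 * h * (n : ℝ) ^ θ) := by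
          rw [Real.rpow_neg hn0.le]; field_simp
        have h3 : (n : ℝ) ^ (-ε) = 1 / X ^ 200 := by
          rw [hXp, Real.rpow_neg hn0.le, one_div]
          congr 2
          push_cast
          ring
        have hnθ : 0 < (n : ℝ) ^ θ := by positivity
        calc ((ℓ / rN θ n h : ℕ) : ℝ) ≤ (ℓ : ℝ) / (rN θ n h : ℝ) := h1
          _ ≤ ((n : ℝ) ^ (-ε) * Real.sqrt (h * n)) / ((n : ℝ) ^ (-θ) / (2 * h)) := by
            gcongr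
          _ = 2 * (n : ℝ) ^ θ * (h * Real.sqrt (h * n)) / X ^ 200 := by
            rw [h2, h3]; field_simp
          _ ≤ 2 * X * rt / X ^ 200 := by
            rw [hhrt]; gcongr
          _ = 2 * rt / X ^ 199 := by field_simp
      · rw [hP]; exact g5 j hj)
  have hset : {T : SimpleGraph (Fin n) | ∀ (γ : ℕ → Fin n) (ℓ : ℕ), IsSAW T.Adj γ ℓ →
      (ℓ : ℝ) < (n : ℝ) ^ (-ε) * Real.sqrt (h * n)} =
      {T | ∀ (γ : ℕ → Fin n) (ℓ : ℕ), IsSAW T.Adj γ ℓ →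
        ℓ < ⌈(n : ℝ) ^ (-ε) * Real.sqrt (h * n)⌉₊} := by
    ext T
    simp only [Set.mem_ofPred_eq, Nat.lt_ceil]
  rw [hset]
  refine hmain.trans ?_
  have hfac : 1 + 2 * (s : ℝ) ^ 2 * P.card + 2 * s * Q.card ≤ 5 * (n : ℝ) ^ 4 := by
    have h1 : (P.card : ℝ) ≤ (n : ℝ) ^ 2 := by
      calc (P.card : ℝ) ≤ X ^ 4 * N := hPc
        _ ≤ n * n := by gcongr
        _ = (n : ℝ) ^ 2 := by ring
    have h2 : (Q.card : ℝ) ≤ (n : ℝ) ^ 2 := by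
      calc (Q.card : ℝ) ≤ X ^ 3 * N := hQc
        _ ≤ n * n := by gcongr
        _ = (n : ℝ) ^ 2 := by ring
    have h3 : 2 * (s : ℝ) ^ 2 * P.card ≤ 2 * (n : ℝ) ^ 2 * (n : ℝ) ^ 2 := by gcongr
    have h4 : 2 * (s : ℝ) * Q.card ≤ 2 * (n : ℝ) * (n : ℝ) ^ 2 := by gcongr
    have h5 : (n : ℝ) ^ 3 ≤ (n : ℝ) ^ 4 := pow_le_pow_right₀ hnR (by norm_num)
    have h6 : 1 ≤ (n : ℝ) ^ 4 := one_le_pow₀ hnR
    have h7 : 2 * (n : ℝ) * (n : ℝ) ^ 2 = 2 * (n : ℝ) ^ 3 := by ring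
    have h8 : 2 * (n : ℝ) ^ 2 * (n : ℝ) ^ 2 = 2 * (n : ℝ) ^ 4 := by ring
    linarith
  have hexp2 : (1 + 2 * (s : ℝ) ^ 2 * P.card + 2 * s * Q.card) *
      Real.exp (-(1 / (3 * K + 2)) * (τ - 1)) ≤ ε / 2 := by
    refine le_trans ?_ hexp
    have h1 : Real.exp (-(1 / (3 * K + 2)) * (τ - 1)) ≤ Real.exp (-X) := by
      apply Real.exp_le_exp.2
      linarith
    have h2 : 0 ≤ 1 + 2 * (s : ℝ) ^ 2 * P.card + 2 * s * Q.card := by positivity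
    exact mul_le_mul hfac h1 (Real.exp_pos _).le (by positivity)
  have hXε' : 1 / X ≤ ε / 100 := by
    rw [div_le_div_iff₀ hX0 (by norm_num)]
    rw [div_le_iff₀ hε] at hXε
    linarith
  have h2n : (2 : ℝ) / n = 2 * (1 / n) := by ring
  rw [h2n]
  linarith

end RST.A
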