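import Pool.Agent.Lib.MP_7946c7_pr.A.A04
import Pool.Agent.Lib.MP_7946c7_pr.P.Main

/-!
# A10. Probability of the facts

PROOF. Intersection of the measurable sets given by `dfacts_prob (ε/4)`, `recent_edges` (with
exponent `Cr = 2` and `x = -h`; `x ≤ 2 LL h` is clear), `hang_facts_prob (δ/2)` (with `hpar`, and a
`j₂` with `3 log n ≤ sc xb j₂ ≤ 4 log n`: the least `j` with `3 log n ≤ sc xb j` works, as
`sc xb 0 = xb < 3 log n` and `21/20 · 3 ≤ 4`), `T2 (ε/4)` (its event is the field `t2`).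
Complements: `labLaw (A ∩ A')ᶜ ≤ ...` (`measure_union_le`, `ENNReal.toReal`; `labLaw n` is a
probability measure: `Measure.pi` of `volume.restrict (Icc 0 1)`).
`rng`: `(1 + xlab n ω e)/n = ω e`.
-/

open Finset MeasureTheory

namespace RST.A

private theorem a10_prob (n : ℕ) : IsProbabilityMeasure (labLaw n) := by
  unfold labLaw
  have : IsProbabilityMeasure (volume.restrict (Set.Icc (0 : ℝ) 1)) := by
    refine ⟨?_⟩
    rw [Measure.restrict_apply_univ, Real.volume_Icc]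
    simp
  infer_instance

private theorem a10_union {n : ℕ} (A B : Set (Sym2 (Fin n) → ℝ)) {a b : ℝ}
    (hA : (labLaw n Aᶜ).toReal ≤ a) (hB : (labLaw n Bᶜ).toReal ≤ b) :
    (labLaw n (A ∩ B)ᶜ).toReal ≤ a + b := by
  have := a10_prob n
  rw [Set.compl_inter]
  have h1 : (labLaw n (Aᶜ ∪ Bᶜ)).toReal ≤ (labLaw n Aᶜ + labLaw n Bᶜ).toReal :=
    ENNReal.toReal_mono (by simp) (measure_union_le _ _)
  rw [ENNReal.toReal_add (measure_ne_top _ _) (measure_ne_top _ _)] at h1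
  linarith

/-- the last scale -/
private theorem a10_scale {x L : ℝ} (hx : 0 < x) (hxL : x < 3 * L) :
    ∃ j₂ : ℕ, 3 * L ≤ sc x j₂ ∧ sc x j₂ ≤ 4 * L := by
  classical
  have hex : ∃ j : ℕ, 3 * L ≤ sc x j := by
    obtain ⟨j, hj⟩ := pow_unbounded_of_one_lt (3 * L / x) (show (1 : ℝ) < 21 / 20 by norm_num)
    refine ⟨j, ?_⟩
    unfold sc
    rw [div_lt_iff₀ hx] at hj
    exact hj.le
  refine ⟨Nat.find hex, Nat.find_spec hex, ?_⟩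
  rcases hj : Nat.find hex with _ | j
  · exfalso
    have := Nat.find_spec hex
    rw [hj] at this
    unfold sc at this
    rw [pow_zero, one_mul] at this
    linarith
  · have h1 : ¬ 3 * L ≤ sc x j := Nat.find_min hex (by omega)
    have h2 : sc x (j + 1) = 21 / 20 * sc x j := by
      unfold sc
      rw [pow_succ]
      ring
    rw [h2]
    push Not at h1
    nlinarith

private theorem a10_large (ε : ℝ) (hε : 0 < ε) : ∃ n₀ : ℕ, ∀ n : ℕ, n₀ ≤ n →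
    1 ≤ n ∧ 1 ≤ Real.log n ∧ 1 / (n : ℝ) ≤ ε / 4 ∧ 2 / (n : ℝ) ^ (1 / 4 : ℝ) ≤ ε / 4 := by
  have h1 : ∀ᶠ n : ℕ in Filter.atTop, 1 ≤ Real.log (n : ℝ) :=
    (Real.tendsto_log_atTop.comp tendsto_natCast_atTop_atTop).eventually_ge_atTop 1
  have h2 : ∀ᶠ n : ℕ in Filter.atTop, 4 / ε ≤ (n : ℝ) :=
    tendsto_natCast_atTop_atTop.eventually_ge_atTop _
  have h3 : ∀ᶠ n : ℕ in Filter.atTop, 8 / ε ≤ (n : ℝ) ^ (1 / 4 : ℝ) :=
    ((tendsto_rpow_atTop (by norm_num)).comp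
      (tendsto_natCast_atTop_atTop (R := ℝ))).eventually_ge_atTop _
  obtain ⟨n₀, hn₀⟩ := Filter.eventually_atTop.1 ((Filter.eventually_ge_atTop 1).and
    (h1.and (h2.and h3)))
  refine ⟨n₀, fun n hn => ?_⟩
  obtain ⟨a1, a2, a3, a4⟩ := hn₀ n hn
  have hn0 : (0 : ℝ) < n := by exact_mod_cast a1
  refine ⟨a1, a2, ?_, ?_⟩
  · rw [div_le_iff₀ hn0]
    rw [div_le_iff₀ hε] at a3
    nlinarith
  · have h0 : (0 : ℝ) < (n : ℝ) ^ (1 / 4 : ℝ) := Real.rpow_pos_of_pos hn0 _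
    rw [div_le_iff₀ h0]
    rw [div_le_iff₀ hε] at a4
    nlinarith

theorem wfacts_prob (δ θ c₀ ε : ℝ) (hδ : 0 < δ) (hδ1 : δ ≤ 1 / 10) (hθ : 0 < θ)
    (hθ1 : θ ≤ δ / 10) (hc : 0 < c₀) (hc1 : c₀ * C1 ≤ 1) (hε : 0 < ε) : ∃ Cr n₀ : ℕ, ∀ n : ℕ,
    n₀ ≤ n → ∀ h : ℝ, R2Par δ n h → ∃ A : Set (Sym2 (Fin n) → ℝ), MeasurableSet A ∧
      (labLaw n Aᶜ).toReal ≤ ε ∧ ∀ ω ∈ A, (∀ e, 0 ≤ ω e ∧ ω e ≤ 1) →
        WFacts δ θ c₀ Cr n h (xlab n ω) := by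
  have hC1 : (1 : ℝ) ≤ C1 := by unfold C1; norm_num
  have hc1' : c₀ ≤ 1 := by nlinarith
  obtain ⟨n₁, H₁⟩ := dfacts_prob δ θ c₀ (ε / 4) hδ hδ1 hθ hθ1 hc hc1 (by linarith)
  obtain ⟨Cr, n₂, H₂⟩ := recent_edges δ c₀ hδ hδ1 hc hc1' 2
  obtain ⟨n₃, H₃⟩ := hang_facts_prob (δ / 2) (by linarith) (by linarith)
  obtain ⟨n₄, H₄⟩ := T2 δ c₀ (ε / 4) hδ hδ1 hc hc1' (by linarith)
  obtain ⟨n₅, H₅⟩ := hpar δ c₀ hδ hδ1 hc hc1'
  obtain ⟨n₆, H₆⟩ := a10_large ε hε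
  refine ⟨Cr, n₁ + n₂ + n₃ + n₄ + n₅ + n₆, fun n hn h hR => ?_⟩
  obtain ⟨hn1, hlog, hn2, hn3⟩ := H₆ n (by omega)
  obtain ⟨hH, hh, -, hxb1, hxb2, hxb3, -⟩ := H₅ n (by omega) h hR
  have hn0 : (0 : ℝ) < n := by exact_mod_cast hn1
  have hxpos : 0 < xb c₀ n h := lt_of_lt_of_le (by positivity) hxb1
  have hxle : xb c₀ n h ≤ 1 := hH.hi.trans
    (Real.rpow_le_one_of_one_le_of_nonpos (by exact_mod_cast hn1) (by linarith))
  obtain ⟨j₂, hj1, hj2⟩ := a10_scale (L := Real.log n) hxpos (by linarith)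
  obtain ⟨A₁, hA₁, hP₁, F₁⟩ := H₁ n (by omega) h hR
  obtain ⟨A₂, hA₂, hP₂, F₂⟩ := H₂ n (by omega) h hR (-h) le_rfl (by linarith)
  obtain ⟨A₃, hA₃, hP₃, F₃⟩ := H₃ n (by omega) (xb c₀ n h) (kst δ n h) j₂ hH hj1 hj2
  obtain ⟨A₄, hA₄, hP₄, F₄⟩ := H₄ n (by omega) h hR
  refine ⟨(A₁ ∩ A₂) ∩ (A₃ ∩ A₄), (hA₁.inter hA₂).inter (hA₃.inter hA₄), ?_, ?_⟩
  · have := a10_union _ _ (a10_union A₁ A₂ hP₁ hP₂) (a10_union A₃ A₄ hP₃ hP₄)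
    linarith
  · intro ω hω hrng
    obtain ⟨⟨h1, h2⟩, h3, h4⟩ := hω
    obtain ⟨D, nlo, nhi, nbig, npp, nqq⟩ := F₁ ω h1
    refine ⟨D, nlo, nhi, nbig, npp, nqq, F₂ ω h2, ⟨j₂, hj1, hj2, F₃ ω h3⟩, F₄ ω h4, ?_⟩
    intro e
    have he : (1 + xlab n ω e) / n = ω e := by
      unfold xlab
      field_simp
      ring
    rw [he]
    exact hrng e

end RST.A
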