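import Pool.Agent.Lib.MP_7946c7_pr.A.A08
import Pool.Agent.Lib.MP_7946c7_pr.A.A09
import Pool.Agent.Lib.MP_7946c7_pr.A.A10

/-!
# A11. Regime 2

PROOF. Put `δ' = δ/2`, `ε' = min (ε/3) δ'` (also `≤ 1`), `θ = min (δ'/10) (ε'/200)`,
`c₀ = ε'/(200 C1) ≤ 1`, `h = c₀ n/β`. Then `R2Par δ' n h` for `n` large: `h ≥ c₀ n^{-1/3+δ} ≥ n^{-1/3+δ'}`,
`h ≤ c₀ n^{-δ} ≤ n^{-δ'}`. `A` from `wfacts_prob`. For `ω ∈ A` with labels in `[0,1]`: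
`cc c₀ h (xlab n ω) = fun e => exp (-(β/n) xlab n ω e)` since `c₀/h = β/n`. `upper_fixed` and
`lower_fixed` with `ε'`: with `PT`-probability `≥ 1 - 2ε'` there is a path of length
`≥ n^{-ε'} √(hn)` and none of length `> n^{ε'} √(hn)`; by `saw_le_diam` and `exists_saw_diam`
(IfT) the diameter is between these numbers. `√(h n) = √c₀ · n/√β`, so
`n^{ε'} √(hn) ≤ n^ε n/√β` and `n^{-ε'} √(hn) = n^{-ε'} √c₀ n/√β ≥ n^{-ε} n/√β` for `n^{ε-ε'} ≥ 1/√c₀`.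
`avg_ge` concludes (`3ε' ≤ ε`).
-/

open Finset MeasureTheory

namespace RST.A

/-- For `a > 0` and `b > 0`, `n ^ (-a) ≤ b` for `n` large. -/
private theorem A11_small (a b : ℝ) (ha : 0 < a) (hb : 0 < b) :
    ∃ n₀ : ℕ, ∀ n : ℕ, n₀ ≤ n → (n : ℝ) ^ (-a) ≤ b := by
  have h1 : Filter.Tendsto (fun n : ℕ => (n : ℝ) ^ (-a)) Filter.atTop (nhds 0) :=
    (tendsto_rpow_neg_atTop ha).comp tendsto_natCast_atTop_atTop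
  have h2 := (h1.eventually (gt_mem_nhds hb))
  obtain ⟨n₀, hn₀⟩ := Filter.eventually_atTop.1 h2
  exact ⟨n₀, fun n hn => (hn₀ n hn).le⟩

/-- The parameter `h = c₀ n / β` is in the range of regime 2. -/
private theorem A11_par (δ c₀ : ℝ) (hδ : 0 < δ) (hc1 : c₀ ≤ 1) (n : ℕ)
    (hn : 1 ≤ n) (hs : (n : ℝ) ^ (-(δ / 2)) ≤ c₀) (β : ℝ) (hβ1 : (n : ℝ) ^ (1 + δ) ≤ β)
    (hβ2 : β ≤ (n : ℝ) ^ (4 / 3 - δ)) : R2Par (δ / 2) n (c₀ * n / β) := by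
  have hn0 : (0 : ℝ) < n := by exact_mod_cast hn
  have hn1 : (1 : ℝ) ≤ n := by exact_mod_cast hn
  have hβ : 0 < β := lt_of_lt_of_le (Real.rpow_pos_of_pos hn0 _) hβ1
  constructor
  · rw [le_div_iff₀ hβ]
    have e1 : (n : ℝ) ^ (-(1 / 3 : ℝ) + δ / 2) * (n : ℝ) ^ (4 / 3 - δ) =
        (n : ℝ) ^ (-(δ / 2)) * n := by
      rw [← Real.rpow_add hn0, ← Real.rpow_add_one hn0.ne']
      congr 1
      ring
    calc (n : ℝ) ^ (-(1 / 3 : ℝ) + δ / 2) * β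
        ≤ (n : ℝ) ^ (-(1 / 3 : ℝ) + δ / 2) * (n : ℝ) ^ (4 / 3 - δ) :=
          mul_le_mul_of_nonneg_left hβ2 (Real.rpow_nonneg hn0.le _)
      _ = (n : ℝ) ^ (-(δ / 2)) * n := e1
      _ ≤ c₀ * n := mul_le_mul_of_nonneg_right hs hn0.le
  · rw [div_le_iff₀ hβ]
    have e1 : (n : ℝ) ^ (-(δ / 2)) * (n : ℝ) ^ (1 + δ) = (n : ℝ) ^ (δ / 2) * n := by
      rw [← Real.rpow_add hn0, ← Real.rpow_add_one hn0.ne']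
      congr 1
      ring
    have e2 : (1 : ℝ) ≤ (n : ℝ) ^ (δ / 2) := Real.one_le_rpow hn1 (by positivity)
    calc c₀ * n ≤ 1 * n := mul_le_mul_of_nonneg_right hc1 hn0.le
      _ ≤ (n : ℝ) ^ (δ / 2) * n := mul_le_mul_of_nonneg_right e2 hn0.le
      _ = (n : ℝ) ^ (-(δ / 2)) * (n : ℝ) ^ (1 + δ) := e1.symm
      _ ≤ (n : ℝ) ^ (-(δ / 2)) * β :=
          mul_le_mul_of_nonneg_left hβ1 (Real.rpow_nonneg hn0.le _)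

/-- `√(h n) = √c₀ · (n / √β)` for `h = c₀ n / β`. -/
private theorem A11_sqrt (c₀ β : ℝ) (hc : 0 < c₀) (n : ℕ) :
    Real.sqrt (c₀ * n / β * n) = Real.sqrt c₀ * (n / Real.sqrt β) := by
  have e1 : c₀ * n / β * n = c₀ * ((n : ℝ) ^ 2 / β) := by ring
  rw [e1, Real.sqrt_mul hc.le, Real.sqrt_div (sq_nonneg _), Real.sqrt_sq (Nat.cast_nonneg n)]

/-- From the bad sets to the diameter. -/
private theorem A11_good {n : ℕ} (hn : 0 < n) (c : Sym2 (Fin n) → ℝ) (hc : ∀ e, 0 < c e)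
    (a b a' b' ε : ℝ) (ha : a ≤ a') (hb : b' ≤ b)
    (h1 : PT c {T | ∃ (γ : ℕ → Fin n) (ℓ : ℕ), IsSAW T.Adj γ ℓ ∧ b' < ℓ} ≤ ε)
    (h2 : PT c {T | ∀ (γ : ℕ → Fin n) (ℓ : ℕ), IsSAW T.Adj γ ℓ → (ℓ : ℝ) < a'} ≤ ε) :
    1 - 2 * ε ≤ PT c {T | a ≤ (T.diam : ℝ) ∧ (T.diam : ℝ) ≤ b} := by
  have : Nonempty (Fin n) := ⟨⟨0, hn⟩⟩
  have h3 := PT_compl hc {T : SimpleGraph (Fin n) | a ≤ (T.diam : ℝ) ∧ (T.diam : ℝ) ≤ b}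
  have h4 : PT c {T : SimpleGraph (Fin n) | a ≤ (T.diam : ℝ) ∧ (T.diam : ℝ) ≤ b}ᶜ ≤
      PT c ({T | ∃ (γ : ℕ → Fin n) (ℓ : ℕ), IsSAW T.Adj γ ℓ ∧ b' < ℓ} ∪
        {T | ∀ (γ : ℕ → Fin n) (ℓ : ℕ), IsSAW T.Adj γ ℓ → (ℓ : ℝ) < a'}) := by
    refine PT_mono hc ?_
    intro G hG hG2
    by_cases h5 : a ≤ (G.diam : ℝ)
    · left
      obtain ⟨γ, hγ⟩ := exists_saw_diam G hG
      refine ⟨γ, G.diam, hγ, ?_⟩
      have h6 : ¬ (G.diam : ℝ) ≤ b := fun h => hG2 ⟨h5, h⟩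
      exact lt_of_le_of_lt hb (not_le.1 h6)
    · right
      intro γ ℓ hγ
      have h6 : ((ℓ : ℕ) : ℝ) ≤ (G.diam : ℝ) := by exact_mod_cast saw_le_diam G hG γ ℓ hγ
      exact lt_of_le_of_lt h6 (lt_of_lt_of_le (not_le.1 h5) ha)
  have h5 := PT_union_le hc {T : SimpleGraph (Fin n) | ∃ (γ : ℕ → Fin n) (ℓ : ℕ),
      IsSAW T.Adj γ ℓ ∧ b' < ℓ}
    {T | ∀ (γ : ℕ → Fin n) (ℓ : ℕ), IsSAW T.Adj γ ℓ → (ℓ : ℝ) < a'}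
  linarith

theorem regime2 (δ ε : ℝ) (hδ : 0 < δ) (hδ1 : δ ≤ 1 / 10) (hε : 0 < ε) : ∃ n₀ : ℕ, ∀ n : ℕ,
    n₀ ≤ n → ∀ β : ℝ, (n : ℝ) ^ (1 + δ) ≤ β → β ≤ (n : ℝ) ^ (4 / 3 - δ) →
    1 - ε ≤ avg n β {T | (n : ℝ) ^ (-ε) * (n / Real.sqrt β) ≤ (T.diam : ℝ) ∧
      (T.diam : ℝ) ≤ (n : ℝ) ^ ε * (n / Real.sqrt β)} := by
  have hC1 : (0 : ℝ) < C1 := by norm_num [C1]
  have hC1' : (1 : ℝ) ≤ C1 := by norm_num [C1]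
  obtain ⟨δ', hδ'⟩ : ∃ δ' : ℝ, δ' = δ / 2 := ⟨_, rfl⟩
  obtain ⟨ε', hε'⟩ : ∃ ε' : ℝ, ε' = min (ε / 3) δ' := ⟨_, rfl⟩
  obtain ⟨θ, hθ⟩ : ∃ θ : ℝ, θ = min (δ' / 10) (ε' / 200) := ⟨_, rfl⟩
  obtain ⟨c₀, hc₀⟩ : ∃ c₀ : ℝ, c₀ = ε' / (200 * C1) := ⟨_, rfl⟩
  have hδ'0 : 0 < δ' := by rw [hδ']; linarith
  have hδ'1 : δ' ≤ 1 / 10 := by rw [hδ']; linarith
  have hε'0 : 0 < ε' := by rw [hε']; exact lt_min (by linarith) hδ'0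
  have hε'3 : ε' ≤ ε / 3 := by rw [hε']; exact min_le_left _ _
  have hε'δ : ε' ≤ δ' := by rw [hε']; exact min_le_right _ _
  have hε'1 : ε' ≤ 1 := by linarith
  have hθ0 : 0 < θ := by rw [hθ]; exact lt_min (by linarith) (by linarith)
  have hθ1 : θ ≤ δ' / 10 := by rw [hθ]; exact min_le_left _ _
  have hθ2 : θ ≤ ε' / 200 := by rw [hθ]; exact min_le_right _ _
  have hc0 : 0 < c₀ := by rw [hc₀]; positivity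
  have hcC : c₀ * C1 = ε' / 200 := by rw [hc₀]; field_simp
  have hcC1 : c₀ * C1 ≤ ε' / 200 := hcC.le
  have hcC2 : c₀ * C1 ≤ 1 := by rw [hcC]; linarith
  have hc1 : c₀ ≤ 1 := by nlinarith
  obtain ⟨Cr, n₁, hn₁⟩ := wfacts_prob δ' θ c₀ ε' hδ'0 hδ'1 hθ0 hθ1 hc0 hcC2 hε'0
  obtain ⟨n₂, hn₂⟩ := upper_fixed δ' θ c₀ ε' Cr hδ'0 hδ'1 hε'0 hε'1 hθ0 hθ1 hθ2 hc0 hcC1
  obtain ⟨n₃, hn₃⟩ := lower_fixed δ' θ c₀ ε' Cr hδ'0 hδ'1 hε'0 hε'δ hθ0 hθ1 hθ2 hc0 hcC1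
  obtain ⟨n₄, hn₄⟩ := A11_small (δ / 2) c₀ (by linarith) hc0
  obtain ⟨n₅, hn₅⟩ := A11_small (ε - ε') (Real.sqrt c₀) (by linarith) (Real.sqrt_pos.2 hc0)
  refine ⟨n₁ + n₂ + n₃ + n₄ + n₅ + 1, ?_⟩
  intro n hn β hβ1 hβ2
  have hn1 : 1 ≤ n := by omega
  have hn0 : 0 < n := hn1
  have hnR : (0 : ℝ) < n := by exact_mod_cast hn0
  have hnR1 : (1 : ℝ) ≤ n := by exact_mod_cast hn1
  have hβ : 0 < β := lt_of_lt_of_le (Real.rpow_pos_of_pos hnR _) hβ1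
  obtain ⟨h, hh⟩ : ∃ h : ℝ, h = c₀ * n / β := ⟨_, rfl⟩
  have hh0 : 0 < h := by rw [hh]; positivity
  have hpar : R2Par δ' n h := by
    rw [hδ', hh]
    exact A11_par δ c₀ hδ hc1 n hn1 (hn₄ n (by omega)) β hβ1 hβ2
  obtain ⟨A, hA, hA1, hA2⟩ := hn₁ n (by omega) h hpar
  have hcb : c₀ / h = β / n := by
    rw [hh]
    field_simp
  have hsq : Real.sqrt (h * n) = Real.sqrt c₀ * (n / Real.sqrt β) := by
    rw [hh]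
    exact A11_sqrt c₀ β hc0 n
  have hq : 0 ≤ (n : ℝ) / Real.sqrt β := by positivity
  have hs1 : Real.sqrt c₀ ≤ 1 := Real.sqrt_le_one.2 hc1
  have hup : (n : ℝ) ^ ε' * Real.sqrt (h * n) ≤ (n : ℝ) ^ ε * (n / Real.sqrt β) := by
    rw [hsq]
    have e1 : (n : ℝ) ^ ε' ≤ (n : ℝ) ^ ε := Real.rpow_le_rpow_of_exponent_le hnR1 (by linarith)
    have e2 : Real.sqrt c₀ * (n / Real.sqrt β) ≤ n / Real.sqrt β :=
      mul_le_of_le_one_left hq hs1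
    exact mul_le_mul e1 e2 (by positivity) (by positivity)
  have hlo : (n : ℝ) ^ (-ε) * (n / Real.sqrt β) ≤ (n : ℝ) ^ (-ε') * Real.sqrt (h * n) := by
    rw [hsq]
    have e1 : (n : ℝ) ^ (-ε) = (n : ℝ) ^ (-ε') * (n : ℝ) ^ (-(ε - ε')) := by
      rw [← Real.rpow_add hnR]
      congr 1
      ring
    rw [e1, mul_assoc]
    refine mul_le_mul_of_nonneg_left ?_ (Real.rpow_nonneg hnR.le _)
    exact mul_le_mul_of_nonneg_right (hn₅ n (by omega)) hq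
  have hfin := avg_ge n hn0 β {T | (n : ℝ) ^ (-ε) * (n / Real.sqrt β) ≤ (T.diam : ℝ) ∧
      (T.diam : ℝ) ≤ (n : ℝ) ^ ε * (n / Real.sqrt β)} A hA ε' (2 * ε') hA1 ?_ (by linarith)
  · linarith
  intro ω hω hω1
  have hW := hA2 ω hω hω1
  have h1 := hn₂ n (by omega) h hpar _ hW
  have h2 := hn₃ n (by omega) h hpar _ hW
  have hcc : cc c₀ h (xlab n ω) = fun e => Real.exp (-(β / n) * xlab n ω e) := by
    funext e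
    simp only [cc, hcb]
  rw [hcc] at h1 h2
  exact A11_good hn0 _ (fun e => Real.exp_pos _) _ _ _ _ ε' hlo hup h1 h2

end RST.A
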