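import Pool.Agent.Lib.MP_7946c7_pr.DefsW
import Pool.Agent.Lib.MP_7946c7_pr.H.HDefs
import Pool.Agent.Lib.MP_7946c7_pr.Params

/-!
# Assembly of regime 2: definitions
-/

open Finset MeasureTheory

namespace RST.A

/-- Conductances. -/
noncomputable def cc {V : Type} (c₀ h : ℝ) (lab : Sym2 V → ℝ) : Sym2 V → ℝ :=
  fun e => Real.exp (-(c₀ / h) * lab e)

/-- The three graphs. -/
abbrev Gm {V : Type} (h : ℝ) (lab : Sym2 V → ℝ) : V → V → Prop := gr lab (-h)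

abbrev GA {n : ℕ} (h : ℝ) (lab : Sym2 (Fin n) → ℝ) : Fin n → Fin n → Prop :=
  gr lab (C1 * Real.log n * h)

abbrev GW {n : ℕ} (c₀ h : ℝ) (lab : Sym2 (Fin n) → ℝ) : Fin n → Fin n → Prop :=
  gr lab (LL c₀ n * h)

/-- The base scale of the hanging pieces. -/
noncomputable def xb (c₀ : ℝ) (n : ℕ) (h : ℝ) : ℝ := XS n h (JN c₀ n + 1)

/-- The macroscopic components. -/
noncomputable def SS {n : ℕ} (h : ℝ) (lab : Sym2 (Fin n) → ℝ) : Finset (Finset (Fin n)) :=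
  bigs (Gm h lab) univ (kh h)

open Classical in
/-- The representatives. -/
noncomputable def reps {n : ℕ} (h : ℝ) (lab : Sym2 (Fin n) → ℝ) (rep : Finset (Fin n) → Fin n) :
    Finset (Fin n) := (SS h lab).image rep

open Classical in
/-- The mass function: `1` on the representatives, `t` elsewhere. -/
noncomputable def mm {V : Type} (R : Finset V) (t : ℝ) : V → ℝ := fun x => if x ∈ R then 1 else t

/-- Good trees: the property of `tree_labels` and the property of `T2`. -/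
def GoodT {n : ℕ} (c₀ h : ℝ) (lab : Sym2 (Fin n) → ℝ) : Set (SimpleGraph (Fin n)) :=
  {T | (∀ (x : ℝ) (γ : ℕ → Fin n) (ℓ : ℕ), IsSAW T.Adj γ ℓ → Rch (gr lab x) univ (γ 0) (γ ℓ) →
      ∀ i < ℓ, lab s(γ i, γ (i + 1)) ≤ x + 6 * Real.log n / (c₀ / h)) ∧
    ∀ γ : ℕ → Fin n, IsSAW T.Adj γ (l1N n h) →
      (∀ i < l1N n h, gr lab (LL c₀ n * h) (γ i) (γ (i + 1))) →
      ∃ i ≤ l1N n h, AGood (Gm h lab) (GA h lab) (kh h) (γ i)}

open Classical in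
/-- All the facts on the labels used in regime 2. -/
structure WFacts (δ θ c₀ : ℝ) (Cr : ℕ) (n : ℕ) (h : ℝ) (lab : Sym2 (Fin n) → ℝ) : Prop where
  D : DFacts (Gm h lab) (GA h lab) (GW c₀ h lab) (kh h) (lmN n h) (rN θ n h) (rN θ n h / 2)
    (k0N θ) (2 * k0N θ + 4) (abN θ n) (ebN θ n)
  nlo : h ^ 3 * n / 100 ≤ ((SS h lab).card : ℝ)
  nhi : ((SS h lab).card : ℝ) ≤ (n : ℝ) ^ θ * (h ^ 3 * n)
  nbig : ((Ebig (Gm h lab) (GW c₀ h lab) (rN θ n h / 2)).card : ℝ) ≤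
    (n : ℝ) ^ (3 * θ) * (h ^ 3 * n)
  npp : ((PPa (Gm h lab) (GW c₀ h lab) (rN θ n h / 2)).card : ℝ) ≤
    (n : ℝ) ^ (4 * θ) * (h ^ 3 * n)
  nqq : ∀ rep : Finset (Fin n) → Fin n,
    ((QQb (Gm h lab) (GW c₀ h lab) (kh h) (rN θ n h / 2) rep).card : ℝ) ≤
      (n : ℝ) ^ (3 * θ) * (h ^ 3 * n)
  rcnt : ∀ (γ : ℕ → Fin n) (ℓ : ℕ), IsSAW (Gm h lab) γ ℓ → (ℓ : ℝ) ≤ (Real.log n) ^ 2 / h →
    ((range ℓ).filter fun i => -h - 2 / c₀ * Real.log n * h < lab s(γ i, γ (i + 1))).card ≤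
      (Real.log n) ^ Cr
  hang : ∃ j₂ : ℕ, 3 * Real.log n ≤ sc (xb c₀ n h) j₂ ∧ sc (xb c₀ n h) j₂ ≤ 4 * Real.log n ∧
    HangFacts lab (xb c₀ n h) (kst δ n h) j₂
  t2 : PT (cc c₀ h lab) {T | ∃ γ : ℕ → Fin n, IsSAW T.Adj γ (l1N n h) ∧
      (∀ i < l1N n h, gr lab (LL c₀ n * h) (γ i) (γ (i + 1))) ∧
      ∀ i ≤ l1N n h, ¬ AGood (Gm h lab) (GA h lab) (kh h) (γ i)} ≤ 1 / n
  rng : ∀ e, 0 ≤ (1 + lab e) / n ∧ (1 + lab e) / n ≤ 1

end RST.A
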